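import Pool.Agent.XM.Edge
import Pool.Agent.ZTS.IntPtK
import Pool.Agent.CDep.Val

/-!
# XM, row X1: the generic point of a hypersurface, and the permanent on it
-/

set_option autoImplicit false

namespace Pool.XM

open Finset MvPolynomial

section generic

variable {s F : Type} [Field F]

/-- the generic point of the hypersurface `P = 0` -/
theorem exists_generic (P : MvPolynomial s F) (hP : Prime P) :
    ∃ (R : Type) (_ : CommRing R) (_ : IsDomain R) (_ : Algebra F R) (c : s → R),
      (∀ G : MvPolynomial s F, aeval c G = 0 ↔ P ∣ G) ∧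
      ∀ C0 : s → F, eval C0 P = 0 → ∃ ev : R →ₐ[F] F, ∀ p, ev (c p) = C0 p := by
  have hI : (Ideal.span {P}).IsPrime := (Ideal.span_singleton_prime hP.ne_zero).2 hP
  refine ⟨MvPolynomial s F ⧸ Ideal.span {P}, inferInstance, Ideal.Quotient.isDomain _,
    inferInstance, fun p => Ideal.Quotient.mk _ (X p), ?_, ?_⟩
  · intro G
    have h1 : (aeval (fun p => Ideal.Quotient.mk (Ideal.span {P}) (X p)) :
        MvPolynomial s F →ₐ[F] MvPolynomial s F ⧸ Ideal.span {P}) =
        Ideal.Quotient.mkₐ F (Ideal.span {P}) := by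
      apply algHom_ext
      intro p
      rw [aeval_X]
      rfl
    rw [h1, Ideal.Quotient.mkₐ_eq_mk, Ideal.Quotient.eq_zero_iff_mem, Ideal.mem_span_singleton]
  · intro C0 hC0
    refine ⟨Ideal.Quotient.liftₐ (Ideal.span {P}) (aeval C0) (fun a ha => ?_), fun p => ?_⟩
    · rw [Ideal.mem_span_singleton] at ha
      obtain ⟨b, rfl⟩ := ha
      have h2 : aeval C0 P = 0 := by
        rw [← hC0]
        rfl
      rw [map_mul, h2, zero_mul]
    · have h3 : (Ideal.Quotient.liftₐ (Ideal.span {P}) (aeval C0 : MvPolynomial s F →ₐ[F] F)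
          (fun a ha => by
            rw [Ideal.mem_span_singleton] at ha
            obtain ⟨b, rfl⟩ := ha
            have h2 : aeval C0 P = 0 := by
              rw [← hC0]
              rfl
            rw [map_mul, h2, zero_mul])) (Ideal.Quotient.mk _ (X p)) = aeval C0 (X p) :=
        Ideal.Quotient.lift_mk _ _ _
      exact h3.trans (aeval_X _ _)

theorem exists_mult {P G : MvPolynomial s F} (hP : Prime P) (hG : G ≠ 0) (h : P ∣ G) :
    ∃ (e : ℕ) (H : MvPolynomial s F), G = P ^ (e + 1) * H ∧ ¬ P ∣ H := by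
  obtain ⟨n, H, hH, hGH⟩ := WfDvdMonoid.max_power_factor hG hP.irreducible
  rcases n with _ | e
  · exfalso
    rw [pow_zero, one_mul] at hGH
    rw [hGH] at h
    exact hH h
  · exact ⟨e, H, hGH, hH⟩

end generic

section perm

theorem aeval_permP {F A : Type} [Field F] [CommRing A] [Algebra F A] (n : ℕ)
    (y : Fin n × Fin n → A) :
    aeval y (Pool.CDep.permP n F) = (Matrix.of fun i j => y (i, j)).permanent := by
  unfold Pool.CDep.permP
  have h1 := Pool.CDep.map_permanent' (aeval y : MvPolynomial (Fin n × Fin n) F →ₐ[F] A).toRingHom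
    (Matrix.of fun i j => (X (i, j) : MvPolynomial (Fin n × Fin n) F))
  refine h1.trans ?_
  congr 1
  refine Matrix.ext fun i j => ?_
  exact aeval_X _ _

/-- the permanent is affine in each entry of the diagonal -/
theorem perm_aff (n : ℕ) (z : Fin n) (F : Type) [Field F] :
    ∃ a : MvPolynomial (Fin n × Fin n) F, ∀ (A : Type) [CommRing A] [Algebra F A]
      (y : Fin n × Fin n → A) (t : A),
      aeval (fun p => y p + if p = (z, z) then t else 0) (Pool.CDep.permP n F) =
        aeval y (Pool.CDep.permP n F) + t * aeval y a := by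
  classical
  refine ⟨∑ σ ∈ (univ : Finset (Equiv.Perm (Fin n))).filter (fun σ => σ z = z),
    ∏ i ∈ univ.erase z, X (σ i, i), fun A _ _ y t => ?_⟩
  rw [aeval_permP, aeval_permP, map_sum, mul_sum]
  unfold Matrix.permanent
  rw [sum_filter, ← sum_add_distrib]
  refine sum_congr rfl fun σ _ => ?_
  simp only [Matrix.of_apply]
  by_cases h : σ z = z
  · rw [if_pos h, map_prod, ← mul_prod_erase univ _ (mem_univ z),
      ← mul_prod_erase univ (fun i => y (σ i, i)) (mem_univ z), h, if_pos rfl]
    have h1 : ∏ i ∈ univ.erase z, (y (σ i, i) + if (σ i, i) = (z, z) then t else 0) =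
        ∏ i ∈ univ.erase z, y (σ i, i) := by
      refine prod_congr rfl fun i hi => ?_
      rw [if_neg, add_zero]
      intro hc
      exact ne_of_mem_erase hi (congrArg Prod.snd hc)
    have h2 : ∏ i ∈ univ.erase z, aeval y (X (σ i, i) : MvPolynomial (Fin n × Fin n) F) =
        ∏ i ∈ univ.erase z, y (σ i, i) := prod_congr rfl fun i _ => aeval_X _ _
    rw [h1, h2, add_mul]
  · rw [if_neg h, add_zero]
    refine prod_congr rfl fun i _ => ?_
    rw [if_neg, add_zero]
    intro hc
    apply h
    have h1 := congrArg Prod.snd hc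
    have h2 := congrArg Prod.fst hc
    simp only at h1 h2
    rw [h1] at h2
    exact h2

theorem permP_prime (n : ℕ) (hn : 1 ≤ n) (F : Type) [Field F] : Prime (Pool.CDep.permP n F) :=
  Pool.ZTS.IP.perm_prime hn

open Pool.XD in
/-- the gadget with the direct edge, on polynomials -/
theorem perm_edge_aeval (F : Type) [Field F] (d : ℕ) (wd : ℕ → ℕ) (hd : 2 ≤ d) (hw0 : wd 0 = 1)
    (hw1 : wd d = 1) {n : ℕ} (hn : 1 + ∑ j ∈ Ico 1 d, wd j ≤ n) (z : Fin n) :
    ∃ (C0 : Fin n × Fin n → ℤ) (D : Fin n × Fin n → Option (Ltr d wd)),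
      (∀ p, C0 p = 0 ∨ C0 p = 1) ∧ C0 (z, z) = 0 ∧ D (z, z) = none ∧
      ∀ (A : Type) [CommRing A] [Algebra F A] (t : A) (x : Ltr d wd → A),
        aeval (fun p => (C0 p : A) + (if p = (z, z) then t else 0) + (D p).elim 0 x)
          (Pool.CDep.permP n F) = t + aeval x (chn d wd F) := by
  obtain ⟨C0, D, h1, h2, h3, h4⟩ := perm_edge d wd hd hw0 hw1 hn z
  refine ⟨C0, D, h1, h2, h3, fun A _ _ t x => ?_⟩
  rw [aeval_permP]
  have h5 := h4 A t x
  have h6 : aeval x (chn d wd F) = ∑ s : Wrd d wd, ∏ i : Fin d, x (ltr s i) := by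
    unfold chn
    rw [map_sum]
    refine sum_congr rfl fun s _ => ?_
    rw [map_prod]
    exact prod_congr rfl fun i _ => aeval_X _ _
  rw [h6, ← h5]
  congr 1
  refine Matrix.ext fun i j => ?_
  simp only [Matrix.of_apply, Prod.mk.injEq]

end perm

end Pool.XM
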