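import Mathlib

/-!
# XM: matrices over a valuation ring, coefficients of matrices of power series

`exists_peel`: a matrix over a valuation ring, of rank `ρ` over the fraction field, is a sum of `ρ`
matrices of rank one over the ring.  `rank_coeff_le`: every coefficient of a matrix of power series
has rank at most `(c + 1) * ρ`.
-/

set_option autoImplicit false

namespace Pool.XM

open Finset Matrix

section peel

variable {R K : Type} [CommRing R] [IsDomain R] [ValuationRing R] [Field K] [Algebra R K]
  [IsFractionRing R K]

omit [IsDomain R] in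
theorem exists_dvd_all {ι : Type} (s : Finset ι) (f : ι → R) (hs : s.Nonempty)
    (htot : ∀ a b : R, a ∣ b ∨ b ∣ a) : ∃ i ∈ s, ∀ j ∈ s, f i ∣ f j := by
  classical
  induction hs using Finset.Nonempty.cons_induction with
  | singleton a => exact ⟨a, mem_singleton_self a, fun j hj => by rw [mem_singleton.1 hj]⟩
  | cons a s ha hs ih =>
    obtain ⟨i, hi, h⟩ := ih
    rcases htot (f a) (f i) with h1 | h1
    · refine ⟨a, mem_cons_self a s, fun j hj => ?_⟩
      rcases mem_cons.1 hj with rfl | hj
      · exact dvd_rfl
      · exact h1.trans (h j hj)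
    · refine ⟨i, mem_cons_of_mem hi, fun j hj => ?_⟩
      rcases mem_cons.1 hj with rfl | hj
      · exact h1
      · exact h j hj

variable {m n : Type} [Fintype m] [Fintype n]

variable (K) in
/-- a matrix over a valuation ring is a sum of `rank` many matrices of rank one over the ring -/
theorem exists_peel (ρ : ℕ) (N : Matrix m n R) (hρ : (N.map (algebraMap R K)).rank ≤ ρ) :
    ∃ (a : Fin ρ → m → R) (b : Fin ρ → n → R), ∀ i j, N i j = ∑ s, a s i * b s j := by
  classical
  have htot : ∀ a b : R, a ∣ b ∨ b ∣ a := fun a b => ValuationRing.dvd_total a b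
  induction ρ generalizing N with
  | zero =>
    refine ⟨fun s => s.elim0, fun s => s.elim0, fun i j => ?_⟩
    have h1 : Module.finrank K (LinearMap.range (N.map (algebraMap R K)).mulVecLin) = 0 :=
      Nat.le_zero.1 hρ
    have h2 := Submodule.finrank_eq_zero.1 h1
    have h3 : (N.map (algebraMap R K)).col j ∈
        LinearMap.range (N.map (algebraMap R K)).mulVecLin := by
      rw [Matrix.range_mulVecLin]
      exact Submodule.subset_span ⟨j, rfl⟩
    rw [h2, Submodule.mem_bot] at h3
    rw [Fin.sum_univ_zero]
    exact (IsFractionRing.to_map_eq_zero_iff (K := K)).1 (congrFun h3 i)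
  | succ ρ ih =>
    by_cases hN : N = 0
    · refine ⟨fun _ _ => 0, fun _ _ => 0, fun i j => ?_⟩
      rw [hN]
      simp
    obtain ⟨i1, j1, h1⟩ : ∃ i j, N i j ≠ 0 := by
      by_contra hcon
      push Not at hcon
      exact hN (Matrix.ext hcon)
    obtain ⟨⟨i0, j0⟩, -, h0⟩ := exists_dvd_all (univ : Finset (m × n)) (fun p => N p.1 p.2)
      ⟨(i1, j1), mem_univ _⟩ htot
    have hp : N i0 j0 ≠ 0 := fun h => h1 (zero_dvd_iff.1 (h ▸ h0 (i1, j1) (mem_univ _)))
    choose c hc using fun j => h0 (i0, j) (mem_univ _)
    have hc' : ∀ j, N i0 j = N i0 j0 * c j := hc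
    let N' : Matrix m n R := fun i j => N i j - N i j0 * c j
    have hN' : ∀ i j, N' i j = N i j - N i j0 * c j := fun _ _ => rfl
    have hrank : (N'.map (algebraMap R K)).rank ≤ ρ := by
      apply Nat.lt_succ_iff.1
      refine lt_of_lt_of_le ?_ hρ
      have hle : LinearMap.range (N'.map (algebraMap R K)).mulVecLin ≤
          LinearMap.range (N.map (algebraMap R K)).mulVecLin := by
        rw [Matrix.range_mulVecLin, Submodule.span_le]
        rintro _ ⟨j, rfl⟩
        have e1 : (N'.map (algebraMap R K)).col j = (N.map (algebraMap R K)).col j -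
            algebraMap R K (c j) • (N.map (algebraMap R K)).col j0 := by
          ext i
          show algebraMap R K (N' i j) = algebraMap R K (N i j) -
            algebraMap R K (c j) * algebraMap R K (N i j0)
          rw [hN', map_sub, map_mul, mul_comm (algebraMap R K (c j))]
        have e2 : ∀ j, (N.map (algebraMap R K)).col j ∈
            LinearMap.range (N.map (algebraMap R K)).mulVecLin := fun j => by
          rw [Matrix.range_mulVecLin]
          exact Submodule.subset_span ⟨j, rfl⟩
        rw [SetLike.mem_coe, e1]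
        exact Submodule.sub_mem _ (e2 j) (Submodule.smul_mem _ _ (e2 j0))
      have hne : ∃ v ∈ LinearMap.range (N.map (algebraMap R K)).mulVecLin, v i0 ≠ 0 := by
        refine ⟨(N.map (algebraMap R K)).col j0, ?_, ?_⟩
        · rw [Matrix.range_mulVecLin]
          exact Submodule.subset_span ⟨j0, rfl⟩
        · show algebraMap R K (N i0 j0) ≠ 0
          exact fun h => hp ((IsFractionRing.to_map_eq_zero_iff (K := K)).1 h)
      have hz : ∀ v ∈ LinearMap.range (N'.map (algebraMap R K)).mulVecLin, v i0 = 0 := by
        rintro _ ⟨w, rfl⟩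
        rw [Matrix.mulVecLin_apply, Matrix.mulVec, dotProduct]
        refine sum_eq_zero fun j _ => ?_
        have e3 : N' i0 j = 0 := by rw [hN', hc' j, sub_self]
        rw [Matrix.map_apply, e3, map_zero, zero_mul]
      have hlt : LinearMap.range (N'.map (algebraMap R K)).mulVecLin <
          LinearMap.range (N.map (algebraMap R K)).mulVecLin := by
        refine lt_of_le_of_ne hle fun heq => ?_
        obtain ⟨v, hv, hv0⟩ := hne
        rw [← heq] at hv
        exact hv0 (hz v hv)
      exact Submodule.finrank_lt_finrank_of_lt hlt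
    obtain ⟨a, b, hab⟩ := ih N' hrank
    refine ⟨Fin.cons (fun i => N i j0) a, Fin.cons c b, fun i j => ?_⟩
    rw [Fin.sum_univ_succ]
    simp only [Fin.cons_zero, Fin.cons_succ]
    rw [← hab i j, hN']
    ring

end peel

section coeff

variable {K : Type} [Field K] {m n : Type} [Fintype m] [Fintype n]

/-- the rank of a coefficient of a matrix of power series -/
theorem rank_coeff_le (N : Matrix m n (PowerSeries K)) (c : ℕ) :
    (N.map (PowerSeries.coeff c)).rank ≤
      (c + 1) * (N.map (algebraMap (PowerSeries K) (LaurentSeries K))).rank := by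
  classical
  set ρ := (N.map (algebraMap (PowerSeries K) (LaurentSeries K))).rank with hρ
  obtain ⟨a, b, hab⟩ := exists_peel (LaurentSeries K) ρ N le_rfl
  let A : Matrix m (Fin ρ × Fin (c + 1)) K := fun i s => PowerSeries.coeff s.2.1 (a s.1 i)
  let B : Matrix (Fin ρ × Fin (c + 1)) n K := fun s j => PowerSeries.coeff (c - s.2.1) (b s.1 j)
  have h1 : N.map (PowerSeries.coeff c) = A * B := by
    ext i j
    rw [Matrix.map_apply, hab, map_sum, Matrix.mul_apply, Fintype.sum_prod_type]
    refine sum_congr rfl fun s _ => ?_
    rw [PowerSeries.coeff_mul, Finset.Nat.sum_antidiagonal_eq_sum_range_succ_mk, ← Fin.sum_univ_eq_sum_range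
      (fun t => PowerSeries.coeff t (a s i) * PowerSeries.coeff (c - t) (b s j))]
  rw [h1]
  refine (Matrix.rank_mul_le_left A B).trans ((Matrix.rank_le_card_width A).trans ?_)
  rw [Fintype.card_prod, Fintype.card_fin, Fintype.card_fin, mul_comm]

end coeff

end Pool.XM
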