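import Pool.Agent.XD.Rank
import Pool.Agent.XM.Peel

/-!
# XM: ranks under homomorphisms

`rank_map_le`: the rank goes down under any homomorphism to a field, compared with an injective
one. `exists_V`: a polynomial matrix has at most points at least its generic rank.
`rank_coeff_gen`: the same as `rank_coeff_le` with any injective map into a field.
-/

set_option autoImplicit false

namespace Pool.XM

open Finset Matrix

variable {m n : Type} [Fintype m] [Fintype n]

/-- a homomorphism to a field lowers the rank, an injective one does not -/
theorem rank_map_le {R F K : Type} [CommRing R] [Field F] [Field K] (ev : R →+* F) (j : R →+* K)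
    (hj : Function.Injective j) (N : Matrix m n R) : (N.map ev).rank ≤ (N.map j).rank := by
  obtain ⟨I, J, h⟩ := Pool.XD.exists_minor (N.map ev) rfl
  refine Pool.XD.le_rank_of_minor _ I J ?_
  have h1 : (N.map ev).submatrix I J = ev.mapMatrix (N.submatrix I J) := rfl
  have h2 : (N.map j).submatrix I J = j.mapMatrix (N.submatrix I J) := rfl
  rw [h1, ← RingHom.map_det] at h
  rw [h2, ← RingHom.map_det]
  intro h0
  apply h
  rw [(injective_iff_map_eq_zero j).1 hj _ h0, map_zero]

theorem rank_map_eq {R F K : Type} [CommRing R] [Field F] [Field K] (i : R →+* F) (j : R →+* K)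
    (hi : Function.Injective i) (hj : Function.Injective j) (N : Matrix m n R) :
    (N.map i).rank = (N.map j).rank :=
  le_antisymm (rank_map_le i j hj N) (rank_map_le j i hi N)

/-- a polynomial matrix: outside the zeros of a nonzero polynomial the rank is at least the rank
for any homomorphism into a field -/
theorem exists_V {σ F K : Type} [Field F] [Field K] (j : MvPolynomial σ F →+* K)
    (N : Matrix m n (MvPolynomial σ F)) : ∃ V : MvPolynomial σ F, V ≠ 0 ∧
      ∀ c : σ → F, MvPolynomial.eval c V ≠ 0 →
        (N.map j).rank ≤ (N.map (MvPolynomial.eval c)).rank := by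
  obtain ⟨I, J, h⟩ := Pool.XD.exists_minor (N.map j) rfl
  have h1 : (N.map j).submatrix I J = j.mapMatrix (N.submatrix I J) := rfl
  rw [h1, ← RingHom.map_det] at h
  refine ⟨(N.submatrix I J).det, fun h0 => h (by rw [h0, map_zero]), fun c hc => ?_⟩
  refine Pool.XD.le_rank_of_minor _ I J ?_
  have h2 : (N.map (MvPolynomial.eval c)).submatrix I J =
      (MvPolynomial.eval c).mapMatrix (N.submatrix I J) := rfl
  rw [h2, ← RingHom.map_det]
  exact hc

/-- multiplication by a nonzero scalar does not change the rank -/
theorem rank_smul_ne {K : Type} [Field K] {c : K} (hc : c ≠ 0) (A : Matrix m n K) :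
    (c • A).rank = A.rank := by
  classical
  have key : ∀ (c : K) (A : Matrix m n K), (c • A).rank ≤ A.rank := by
    intro c A
    have h : c • A = (c • (1 : Matrix m m K)) * A := by rw [Matrix.smul_mul, Matrix.one_mul]
    rw [h]
    exact Matrix.rank_mul_le_right _ _
  refine le_antisymm (key c A) ?_
  have h2 := key c⁻¹ (c • A)
  rwa [smul_smul, inv_mul_cancel₀ hc, one_smul] at h2

/-- (X3) a coefficient of a matrix of power series, rank over any field which contains the power
series -/
theorem rank_coeff_gen {K L : Type} [Field K] [Field L] (j : PowerSeries K →+* L)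
    (hj : Function.Injective j) (N : Matrix m n (PowerSeries K)) (c : ℕ) :
    (N.map (PowerSeries.coeff c)).rank ≤ (c + 1) * (N.map j).rank := by
  rw [← rank_map_eq (algebraMap (PowerSeries K) (LaurentSeries K)) j
    (IsFractionRing.injective _ _) hj N]
  exact rank_coeff_le N c

end Pool.XM
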