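import Pool.Agent.QPIT.Phi

/-!
# XM: the substitution `X p ↦ c p + (a letter or zero)` as a series and as a polynomial

`sub D c` is the substitution `X p ↦ c p + (D p).elim 0 X`; `PhiN ty D c` is the same with the
letters of type `true` multiplied by `lam`, the letters of type `false` multiplied by `mu`.
`PhiN_mem`, `PhiN_zero`, `PhiN_one` are the hypotheses of the machine; `opM_PhiN`, `opM_log`: the
matrices of the coefficients of `lam ^ r * mu ^ E` are the matrices of the polynomials.
-/

set_option autoImplicit false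
set_option linter.unusedSectionVars false
set_option linter.unnecessarySeqFocus false

namespace Pool.XM

open Finset Pool.Agent.Helper87.D3 Pool.Agent.Helper41.CD Pool.XD Pool.QPIT

section parts

variable {L : Type} [Fintype L] (ty : L → Bool) {K : Type} [Field K]

theorem PhiX_monomial (m : L →₀ ℕ) (a : K) :
    PhiX ty (fun _ => (0 : K)) (MvPolynomial.monomial m a) =
      lam (MvPolynomial L K) ^ (∑ l, if ty l then m l else 0) *
        mu (MvPolynomial L K) ^ (∑ l, if ty l then 0 else m l) *
        cst (MvPolynomial.monomial m a) := by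
  classical
  have hX : ∀ l, PhiX ty (fun _ => (0 : K)) (MvPolynomial.X l) =
      (if ty l then lam (MvPolynomial L K) else mu (MvPolynomial L K)) *
        cst (MvPolynomial.X l) := by
    intro l
    rw [PhiX_X, map_zero, cst_zero, zero_add]
  have hcp : ∀ (x : MvPolynomial L K) (k : ℕ), (cst (x ^ k) : Ser (MvPolynomial L K)) =
      cst x ^ k := by
    intro x k
    unfold cst
    rw [map_pow, map_pow]
  have h1 : (cst (MvPolynomial.monomial m a) : Ser (MvPolynomial L K)) =
      cst (MvPolynomial.C a) * ∏ l, cst (MvPolynomial.X l) ^ m l := by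
    rw [MvPolynomial.monomial_eq, cst_mul, Finsupp.prod_fintype _ _ (fun _ => pow_zero _)]
    congr 1
    unfold cst
    rw [map_prod, map_prod]
    exact prod_congr rfl fun l _ => by rw [map_pow, map_pow]
  have h2 : PhiX ty (fun _ => (0 : K)) (MvPolynomial.monomial m a) =
      cst (MvPolynomial.C a) * ∏ l, (((if ty l then lam (MvPolynomial L K) else
        mu (MvPolynomial L K)) * cst (MvPolynomial.X l)) ^ m l) := by
    rw [MvPolynomial.monomial_eq, map_mul, PhiX_C, Finsupp.prod_fintype _ _ (fun _ => pow_zero _),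
      map_prod]
    congr 1
    exact prod_congr rfl fun l _ => by rw [map_pow, hX]
  have h3 : ∏ l, (if ty l then lam (MvPolynomial L K) else mu (MvPolynomial L K)) ^ m l =
      lam (MvPolynomial L K) ^ (∑ l, if ty l then m l else 0) *
        mu (MvPolynomial L K) ^ (∑ l, if ty l then 0 else m l) := by
    rw [← prod_pow_eq_pow_sum, ← prod_pow_eq_pow_sum, ← prod_mul_distrib]
    refine prod_congr rfl fun l _ => ?_
    cases ty l <;> simp
  rw [h2, h1, ← h3]
  simp_rw [mul_pow]
  rw [prod_mul_distrib]
  ring

theorem cf_PhiX_monomial (m : L →₀ ℕ) (a : K) (b e : ℕ) :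
    cf b e (PhiX ty (fun _ => (0 : K)) (MvPolynomial.monomial m a)) =
      if (∑ l, if ty l then m l else 0) = b ∧ (∑ l, if ty l then 0 else m l) = e then
        MvPolynomial.monomial m a else 0 := by
  rw [PhiX_monomial, cf_lam_mu_pow, cf_cst]
  by_cases h : (∑ l, if ty l then m l else 0) = b ∧ (∑ l, if ty l then 0 else m l) = e
  · rw [if_pos h, if_pos ⟨h.1.le, h.2.le⟩, if_pos ⟨by omega, by omega⟩]
  · rw [if_neg h]
    by_cases h1 : (∑ l, if ty l then m l else 0) ≤ b ∧ (∑ l, if ty l then 0 else m l) ≤ e
    · rw [if_pos h1, if_neg fun h2 => h ⟨by omega, by omega⟩]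
    · rw [if_neg h1]

/-- the coefficients of the parts of a polynomial -/
theorem coeff_cf_PhiX (P : MvPolynomial L K) (b e : ℕ) (μ : L →₀ ℕ) :
    MvPolynomial.coeff μ (cf b e (PhiX ty (fun _ => (0 : K)) P)) =
      if (∑ l, if ty l then μ l else 0) = b ∧ (∑ l, if ty l then 0 else μ l) = e then
        MvPolynomial.coeff μ P else 0 := by
  classical
  induction P using MvPolynomial.induction_on' with
  | monomial m a =>
    rw [cf_PhiX_monomial]
    by_cases hm : m = μ
    · subst hm
      by_cases h : (∑ l, if ty l then m l else 0) = b ∧ (∑ l, if ty l then 0 else m l) = e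
      · rw [if_pos h, if_pos h]
      · rw [if_neg h, if_neg h, MvPolynomial.coeff_zero]
    · rw [MvPolynomial.coeff_monomial, if_neg hm, ite_self]
      split_ifs
      · rw [MvPolynomial.coeff_monomial, if_neg hm]
      · rw [MvPolynomial.coeff_zero]
  | add p q hp hq =>
    rw [map_add, cf_add, MvPolynomial.coeff_add, hp, hq, MvPolynomial.coeff_add]
    split_ifs
    · rfl
    · rw [add_zero]

/-- the matrix sees only one part -/
theorem opM_cf_PhiX (P : MvPolynomial L K) {r LU : ℕ} (hr : r ≤ LU) (E LV : ℕ) :
    opM ty (cf r E (PhiX ty (fun _ => (0 : K)) P)) LU LV (LU - r) (LV + E) =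
      opM ty P LU LV (LU - r) (LV + E) := by
  classical
  ext α γ
  unfold opM
  by_cases h : Adm ty α.1 γ.1
  · rw [if_pos h, if_pos h, coeff_cf_PhiX, if_pos]
    have h1 := α.2.1
    have h2 := α.2.2
    have h3 := γ.2.1
    have h4 := γ.2.2
    have e1 : (∑ l, if ty l then γ.1 l else 0) + (∑ l, if ty l then gap ty α.1 γ.1 l else 0) =
        ∑ l, if ty l then α.1 l else 0 := by
      rw [← sum_add_distrib]
      refine sum_congr rfl fun l _ => ?_
      have h5 := h l
      show _ + (if ty l then (if ty l then α.1 l - γ.1 l else γ.1 l - α.1 l) else 0) = _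
      cases h6 : ty l <;> simp only [h6, if_true, if_false, Bool.false_eq_true] at h5 ⊢ <;> omega
    have e2 : (∑ l, if ty l then 0 else α.1 l) + (∑ l, if ty l then 0 else gap ty α.1 γ.1 l) =
        ∑ l, if ty l then 0 else γ.1 l := by
      rw [← sum_add_distrib]
      refine sum_congr rfl fun l _ => ?_
      have h5 := h l
      show _ + (if ty l then 0 else (if ty l then α.1 l - γ.1 l else γ.1 l - α.1 l)) = _
      cases h6 : ty l <;> simp only [h6, if_true, if_false, Bool.false_eq_true] at h5 ⊢ <;> omega
    constructor <;> omega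
  · rw [if_neg h, if_neg h]

end parts

section phiN

variable {L σ : Type} [Fintype L] (ty : L → Bool) {K : Type} [Field K]
  (D : σ → Option L)

/-- the substitution `X p ↦ c p + (a letter or zero)` -/
noncomputable def sub {A : Type} [CommRing A] [Algebra K A] (c : σ → A) :
    MvPolynomial σ K →ₐ[K] MvPolynomial L A :=
  MvPolynomial.aeval fun p => MvPolynomial.C (c p) + (D p).elim 0 MvPolynomial.X

/-- the letter of type `true` -/
noncomputable def alp (K : Type) [Field K] (p : σ) : MvPolynomial L K :=
  (D p).elim 0 fun l => if ty l then MvPolynomial.X l else 0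

/-- the letter of type `false` -/
noncomputable def bet (K : Type) [Field K] (p : σ) : MvPolynomial L K :=
  (D p).elim 0 fun l => if ty l then 0 else MvPolynomial.X l

/-- the same substitution, into series -/
noncomputable def PhiN (c : σ → K) : MvPolynomial σ K →ₐ[K] Ser (MvPolynomial L K) :=
  PhiG c (alp ty D K) (bet ty D K)

theorem alp_UU (p : σ) : alp ty D K p ∈ UU ty K 1 := by
  unfold alp
  rcases D p with _ | l
  · exact Submodule.zero_mem _
  · show (if ty l then MvPolynomial.X l else 0 : MvPolynomial L K) ∈ UU ty K 1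
    by_cases h : ty l
    · have := X_mem_UU (K := K) ty l
      rwa [if_pos h] at this ⊢
    · rw [if_neg h]
      exact Submodule.zero_mem _

theorem alp_VV (p : σ) : alp ty D K p ∈ VV ty K 0 := by
  unfold alp
  rcases D p with _ | l
  · exact Submodule.zero_mem _
  · show (if ty l then MvPolynomial.X l else 0 : MvPolynomial L K) ∈ VV ty K 0
    by_cases h : ty l
    · have := X_mem_VV (K := K) ty l
      rwa [if_pos h] at this ⊢
    · rw [if_neg h]
      exact Submodule.zero_mem _

theorem bet_UU (p : σ) : bet ty D K p ∈ UU ty K 0 := by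
  unfold bet
  rcases D p with _ | l
  · exact Submodule.zero_mem _
  · show (if ty l then 0 else MvPolynomial.X l : MvPolynomial L K) ∈ UU ty K 0
    by_cases h : ty l
    · rw [if_pos h]
      exact Submodule.zero_mem _
    · have := X_mem_UU (K := K) ty l
      rwa [if_neg h] at this ⊢

theorem bet_VV (p : σ) : bet ty D K p ∈ VV ty K 1 := by
  unfold bet
  rcases D p with _ | l
  · exact Submodule.zero_mem _
  · show (if ty l then 0 else MvPolynomial.X l : MvPolynomial L K) ∈ VV ty K 1
    by_cases h : ty l
    · rw [if_pos h]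
      exact Submodule.zero_mem _
    · have := X_mem_VV (K := K) ty l
      rwa [if_neg h] at this ⊢

theorem PhiN_mem (c : σ → K) (f : MvPolynomial σ K) :
    InB (Pool.CD.Bi (VV ty K) (UU ty K)) (PhiN ty D c f) :=
  PhiG_mem ty c _ _ (alp_UU ty D) (alp_VV ty D) (bet_UU ty D) (bet_VV ty D) f

theorem PhiN_zero (c : σ → K) (f : MvPolynomial σ K) :
    cf 0 0 (PhiN ty D c f) = algebraMap K (MvPolynomial L K) (MvPolynomial.eval c f) :=
  PhiG_zero c _ _ f

theorem PhiN_one (c : σ → K) (f : MvPolynomial σ K) (hf : f.totalDegree ≤ 1) :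
    ∃ a ∈ VV ty K 0, ∃ b ∈ UU ty K 0,
      PhiN ty D c f = cst (algebraMap K _ (MvPolynomial.eval c f)) + lam _ * cst a +
        mu _ * cst b :=
  PhiG_one ty c _ _ (alp_VV ty D) (bet_UU ty D) f hf

/-- the series of the polynomial -/
theorem PhiN_eq (c : σ → K) (f : MvPolynomial σ K) :
    PhiN ty D c f = PhiX ty (fun _ => (0 : K)) (sub D c f) := by
  have h : PhiN ty D c = (PhiX ty (fun _ => (0 : K))).comp (sub D c) := by
    apply MvPolynomial.algHom_ext
    intro p
    rw [PhiN, PhiG_X, AlgHom.comp_apply, sub, MvPolynomial.aeval_X, map_add]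
    have h1 : PhiX ty (fun _ => (0 : K)) (MvPolynomial.C (c p)) = cst (MvPolynomial.C (c p)) :=
      PhiX_C ty _ (c p)
    rw [h1, add_assoc]
    congr 1
    unfold alp bet
    rcases D p with _ | l
    · show lam _ * cst 0 + mu _ * cst 0 = PhiX ty (fun _ => (0 : K)) 0
      rw [cst_zero, mul_zero, mul_zero, add_zero, map_zero]
    · show lam _ * cst (if ty l then MvPolynomial.X l else 0) +
        mu _ * cst (if ty l then 0 else MvPolynomial.X l) =
          PhiX ty (fun _ => (0 : K)) (MvPolynomial.X l)
      rw [PhiX_X, map_zero, cst_zero, zero_add]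
      by_cases h2 : ty l
      · rw [if_pos h2, if_pos h2, if_pos h2, cst_zero, mul_zero, add_zero]
      · rw [if_neg h2, if_neg h2, if_neg h2, cst_zero, mul_zero, zero_add]
  exact DFunLike.congr_fun h f

/-- the matrix of a part of the series is the matrix of the polynomial -/
theorem opM_PhiN (c : σ → K) (f : MvPolynomial σ K) {r LU : ℕ} (hr : r ≤ LU) (E LV : ℕ) :
    opM ty (cf r E (PhiN ty D c f)) LU LV (LU - r) (LV + E) =
      opM ty (sub D c f) LU LV (LU - r) (LV + E) := by
  rw [PhiN_eq, opM_cf_PhiX ty _ hr]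

/-- the same for a polynomial in a multiple of the series, for instance the truncated logarithm -/
theorem opM_aeval_PhiN (c : σ → K) (f : MvPolynomial σ K) (a : K) (P : Polynomial K) {r LU : ℕ}
    (hr : r ≤ LU) (E LV : ℕ) :
    opM ty (cf r E (Polynomial.aeval (a • PhiN ty D c f - 1) P)) LU LV (LU - r) (LV + E) =
      opM ty (Polynomial.aeval (a • sub D c f - 1) P) LU LV (LU - r) (LV + E) := by
  have h : Polynomial.aeval (a • PhiN ty D c f - 1) P =
      PhiX ty (fun _ => (0 : K)) (Polynomial.aeval (a • sub D c f - 1) P) := by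
    rw [PhiN_eq, ← Polynomial.aeval_algHom_apply, map_sub, map_smul, map_one]
  rw [h, opM_cf_PhiX ty _ hr]

end phiN

end Pool.XM
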