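import Pool.Agent.XM.GenRank
import Pool.Agent.XM.PhiN

/-!
# XM: the generic rank for the permanent and the operator matrices
-/

set_option autoImplicit false
set_option linter.unusedSectionVars false

namespace Pool.XM

open Finset MvPolynomial Pool.XD

section ex

variable {L : Type} [Fintype L] (ty : L → Bool)

open Classical in
/-- the exponents of the operator matrix -/
noncomputable def exM (a b a' b' : ℕ) : Box ty a b → Box ty a' b' → Option (L →₀ ℕ) :=
  fun α γ => if Adm ty α.1 γ.1 then some (gap ty α.1 γ.1) else none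

theorem em_exM {A : Type} [CommRing A] (a b a' b' : ℕ) (p : MvPolynomial L A) :
    em (exM ty a b a' b') (fun m => coeff m p) = opM ty p a b a' b' := by
  ext α γ
  unfold em exM opM
  split_ifs <;> rfl

theorem degree_exM {r E LU LV : ℕ} (hr : r ≤ LU) (α : Box ty LU LV) (γ : Box ty (LU - r) (LV + E))
    (m : L →₀ ℕ) (h : exM ty LU LV (LU - r) (LV + E) α γ = some m) :
    Finsupp.degree m = r + E := by
  classical
  unfold exM at h
  split_ifs at h with hA
  rw [← Option.some_injective _ h]
  have h1 : Finsupp.degree (gap ty α.1 γ.1) = ∑ l, if ty l then α.1 l - γ.1 l else γ.1 l - α.1 l := by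
    rw [Finsupp.degree_eq_sum]
    rfl
  rw [h1]
  have h2 : (∑ l, if ty l then α.1 l - γ.1 l else γ.1 l - α.1 l) +
      ((∑ l, if ty l then γ.1 l else 0) + ∑ l, if ty l then 0 else α.1 l) =
      (∑ l, if ty l then α.1 l else 0) + ∑ l, if ty l then 0 else γ.1 l := by
    rw [← sum_add_distrib, ← sum_add_distrib, ← sum_add_distrib]
    refine sum_congr rfl fun l _ => ?_
    have h3 := hA l
    split_ifs at h3 ⊢ <;> omega
  rw [α.2.1, α.2.2, γ.2.1, γ.2.2] at h2
  omega

end ex

theorem subP_eq_sub {F σ L A : Type} [Field F] [CommRing A] [Algebra F A] (D : σ → Option L)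
    (c : σ → A) : (subP (fun p => (D p).elim 0 X : σ → MvPolynomial L F) c :
      MvPolynomial σ F →ₐ[F] MvPolynomial L A) = sub D c := by
  apply MvPolynomial.algHom_ext
  intro p
  rw [subP_X, sub, aeval_X]
  congr 1
  rcases D p with _ | l
  · exact map_zero _
  · exact map_X _ _

/-- **the generic rank, for the permanent and the chain polynomial** -/
theorem rank_chn_le (F : Type) [Field F] [CharZero F] (d : ℕ) (wd : ℕ → ℕ) (ty : Ltr d wd → Bool)
    (hd : 2 ≤ d) (hw0 : wd 0 = 1) (hw1 : wd d = 1) {n : ℕ} (hn : 1 + ∑ j ∈ Ico 1 d, wd j ≤ n)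
    {r E : ℕ} (hrE : r + E = d) : ∃ D : Fin n × Fin n → Option (Ltr d wd),
      ∀ G : MvPolynomial (Fin n × Fin n) F, G ≠ 0 →
      Pool.CDep.permP n F ∣ homogeneousComponent G.totalDegree G → ∀ LU LV : ℕ, r ≤ LU →
      ∃ V : MvPolynomial (Fin n × Fin n) F, V ≠ 0 ∧ ∀ c : Fin n × Fin n → F, eval c V ≠ 0 →
        eval c G ≠ 0 ∧ (opM ty (chn d wd F) LU LV (LU - r) (LV + E)).rank ≤
          d * (opM ty (lgg (F := F) d (sub D c G) (C (eval c G)))
            LU LV (LU - r) (LV + E)).rank := by
  classical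
  have hn1 : 1 ≤ n := by omega
  let z : Fin n := ⟨0, hn1⟩
  obtain ⟨C0, D, hC01, hC0z, hDz, hedge⟩ := perm_edge_aeval F d wd hd hw0 hw1 hn z
  obtain ⟨a, haff⟩ := perm_aff n z F
  refine ⟨D, fun G hG hPG LU LV hLU => ?_⟩
  set π : Fin n × Fin n → MvPolynomial (Ltr d wd) F := fun p => (D p).elim 0 X with hπ
  have hπ1 : ∀ p, (π p).IsHomogeneous 1 := by
    intro p
    show ((D p).elim 0 X : MvPolynomial (Ltr d wd) F).IsHomogeneous 1
    rcases D p with _ | l
    · exact isHomogeneous_zero _ _ _
    · exact isHomogeneous_X _ _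
  have hsub : ∀ (y : Fin n × Fin n → F) (Q : MvPolynomial (Fin n × Fin n) F),
      subP π y Q = sub D y Q := by
    intro y Q
    rw [hπ, subP_eq_sub]
  have hz0 : ∀ (t : MvPolynomial (Ltr d wd) F), aeval (fun p => (C (C0 p : F) : MvPolynomial _ F) +
      (D p).elim 0 X + if p = (z, z) then t else 0) (Pool.CDep.permP n F) = t + chn d wd F := by
    intro t
    have h1 := hedge (MvPolynomial (Ltr d wd) F) t X
    rw [aeval_X_left_apply] at h1
    rw [← h1]
    congr 2
    funext p
    rw [map_intCast]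
    ring
  have hsubP : ∀ Q : MvPolynomial (Fin n × Fin n) F, subP π (fun p => (C0 p : F)) Q =
      aeval (fun p => (C (C0 p : F) : MvPolynomial _ F) + (D p).elim 0 X) Q := by
    intro Q
    rw [hsub]
    rfl
  have hU : subP π (fun p => (C0 p : F)) (Pool.CDep.permP n F) = chn d wd F := by
    have h1 := hz0 0
    rw [hsubP, ← zero_add (chn d wd F), ← h1]
    congr 2
    funext p
    split_ifs <;> ring
  have hA : subP π (fun p => (C0 p : F)) a = 1 := by
    have h1 := haff (MvPolynomial (Ltr d wd) F) (fun p => (C (C0 p : F) : MvPolynomial _ F) +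
      (D p).elim 0 X) 1
    rw [hz0 1, ← hsubP, ← hsubP, hU, one_mul] at h1
    exact (add_left_cancel (h1.symm.trans (add_comm _ _))).symm ▸ rfl
  have hC00 : eval (fun p => (C0 p : F)) (Pool.CDep.permP n F) = 0 := by
    have h1 := constantCoeff_subP π (fun p => (hπ1 p).coeff_eq_zero (d := 0)
      (by rw [map_zero]; exact zero_ne_one)) (fun p => (C0 p : F)) (Pool.CDep.permP n F)
    rw [hU] at h1
    have h2 : constantCoeff (chn d wd F) = 0 := by
      unfold chn
      rw [map_sum]
      refine sum_eq_zero fun s _ => ?_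
      rw [map_prod]
      exact prod_eq_zero (mem_univ (⟨0, by omega⟩ : Fin d)) (constantCoeff_X _ _)
    rw [h2] at h1
    exact h1.symm
  obtain ⟨V, hV, hV'⟩ := gen_rank (Pool.CDep.permP n F) (permP_prime n hn1 F) (z, z) π hπ1 a haff
    (fun p => (C0 p : F)) hC00 (chn d wd F) hU hA d (by omega)
    (exM ty LU LV (LU - r) (LV + E))
    (fun i j m h => (degree_exM ty hLU i j m h).trans hrE) G hG hPG
  refine ⟨V, hV, fun c hc => ?_⟩
  obtain ⟨h1, h2⟩ := hV' c hc
  refine ⟨h1, ?_⟩
  rw [em_exM] at h2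
  have h3 : em (exM ty LU LV (LU - r) (LV + E)) (lgc π d c G) =
      opM ty (lgg (F := F) d (sub D c G) (C (eval c G))) LU LV (LU - r) (LV + E) := by
    rw [← em_exM]
    refine em_congr _ fun i j m _ => ?_
    unfold lgc
    rw [hsub]
    rfl
  rw [h3] at h2
  exact h2

end Pool.XM
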