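import Pool.Agent.XM.Ld
import Pool.Agent.XM.RankGen
import Pool.Agent.XM.PhiN
import Pool.Agent.XD.ExpLog
import Pool.Agent.XD.Defs

/-!
# XM, row (C): polynomials close to a given one over a valued field

`rank_log_close`: let `G` be a polynomial over `F`, `K` a valued extension of `F` (the valuation is
trivial on `F`), `G1` a polynomial over `K` whose coefficients are close to those of `G`. Then the
matrix of the cleared logarithm of the shifted `G` has at most the rank of the matrix of the
truncated logarithm of the shifted `G1`.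
-/

set_option autoImplicit false
set_option linter.unusedSectionVars false

namespace Pool.XM

open Finset

section cong

variable {K Γ : Type} [Field K] [LinearOrderedCommGroupWithZero Γ] (v : Valuation K Γ)
  {L : Type}

/-- all coefficients are integral -/
def IntP (p : MvPolynomial L K) : Prop := ∀ m, v (MvPolynomial.coeff m p) ≤ 1

/-- all coefficients are small -/
def SmP (p : MvPolynomial L K) : Prop := ∀ m, v (MvPolynomial.coeff m p) < 1

variable {v}

theorem SmP.int {p : MvPolynomial L K} (h : SmP v p) : IntP v p := fun m => (h m).le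

theorem IntP.add {p q : MvPolynomial L K} (hp : IntP v p) (hq : IntP v q) : IntP v (p + q) :=
  fun m => by
    rw [MvPolynomial.coeff_add]
    exact Valuation.map_add_le v (hp m) (hq m)

theorem SmP.add {p q : MvPolynomial L K} (hp : SmP v p) (hq : SmP v q) : SmP v (p + q) :=
  fun m => by
    rw [MvPolynomial.coeff_add]
    exact Valuation.map_add_lt v (hp m) (hq m)

theorem IntP.mul {p q : MvPolynomial L K} (hp : IntP v p) (hq : IntP v q) : IntP v (p * q) := by
  classical
  intro m
  rw [MvPolynomial.coeff_mul]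
  refine Valuation.map_sum_le v fun i _ => ?_
  rw [map_mul]
  exact mul_le_one' (hp _) (hq _)

theorem SmP.mul_int {p q : MvPolynomial L K} (hp : SmP v p) (hq : IntP v q) : SmP v (p * q) := by
  classical
  intro m
  rw [MvPolynomial.coeff_mul]
  refine Valuation.map_sum_lt v one_ne_zero fun i _ => ?_
  rw [map_mul]
  exact mul_lt_one_of_nonneg_of_lt_one_left zero_le (hp _) (hq _)

theorem intP_C {a : K} (ha : v a ≤ 1) : IntP v (MvPolynomial.C a : MvPolynomial L K) := by
  classical
  intro m
  rw [MvPolynomial.coeff_C]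
  split_ifs
  · exact ha
  · rw [map_zero]; exact zero_le

theorem smP_C {a : K} (ha : v a < 1) : SmP v (MvPolynomial.C a : MvPolynomial L K) := by
  classical
  intro m
  rw [MvPolynomial.coeff_C]
  split_ifs
  · exact ha
  · rw [map_zero]; exact zero_lt_one

theorem intP_X (l : L) : IntP v (MvPolynomial.X l : MvPolynomial L K) := by
  classical
  intro m
  rw [MvPolynomial.coeff_X]
  split_ifs
  · rw [map_one]
  · rw [map_zero]; exact zero_le

theorem intP_zero : IntP v (0 : MvPolynomial L K) := by
  intro m
  rw [MvPolynomial.coeff_zero, map_zero]; exact zero_le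

theorem intP_one : IntP v (1 : MvPolynomial L K) := by
  rw [← MvPolynomial.C_1]
  exact intP_C (by rw [map_one])

theorem smP_zero : SmP v (0 : MvPolynomial L K) := by
  intro m
  rw [MvPolynomial.coeff_zero, map_zero]; exact zero_lt_one

variable (v) in
/-- congruent integral polynomials -/
structure Cl (p q : MvPolynomial L K) : Prop where
  left : IntP v p
  right : IntP v q
  sub : SmP v (p - q)

theorem Cl.refl {p : MvPolynomial L K} (hp : IntP v p) : Cl v p p :=
  ⟨hp, hp, by rw [sub_self]; exact smP_zero⟩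

theorem Cl.add {p q p' q' : MvPolynomial L K} (h : Cl v p q) (h' : Cl v p' q') :
    Cl v (p + p') (q + q') := by
  refine ⟨h.left.add h'.left, h.right.add h'.right, ?_⟩
  have : p + p' - (q + q') = (p - q) + (p' - q') := by ring
  rw [this]
  exact h.sub.add h'.sub

theorem Cl.mul {p q p' q' : MvPolynomial L K} (h : Cl v p q) (h' : Cl v p' q') :
    Cl v (p * p') (q * q') := by
  refine ⟨h.left.mul h'.left, h.right.mul h'.right, ?_⟩
  have : p * p' - q * q' = (p - q) * p' + (p' - q') * q := by ring
  rw [this]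
  exact (h.sub.mul_int h'.left).add (h'.sub.mul_int h.right)

theorem Cl.neg {p q : MvPolynomial L K} (h : Cl v p q) : Cl v (-p) (-q) := by
  have h1 : IntP v (-1 : MvPolynomial L K) := by
    have : (-1 : MvPolynomial L K) = MvPolynomial.C (-1) := by
      rw [map_neg, map_one]
    rw [this]
    exact intP_C (by rw [Valuation.map_neg, map_one])
  have := (Cl.refl h1).mul h
  rwa [neg_one_mul, neg_one_mul] at this

theorem Cl.minus {p q p' q' : MvPolynomial L K} (h : Cl v p q) (h' : Cl v p' q') :
    Cl v (p - p') (q - q') := by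
  rw [sub_eq_add_neg, sub_eq_add_neg]
  exact h.add h'.neg

theorem Cl.pow {p q : MvPolynomial L K} (h : Cl v p q) (n : ℕ) : Cl v (p ^ n) (q ^ n) := by
  induction n with
  | zero => rw [pow_zero, pow_zero]; exact Cl.refl intP_one
  | succ n ih => rw [pow_succ, pow_succ]; exact ih.mul h

theorem Cl.sum {ι : Type} (s : Finset ι) (p q : ι → MvPolynomial L K)
    (h : ∀ i ∈ s, Cl v (p i) (q i)) : Cl v (∑ i ∈ s, p i) (∑ i ∈ s, q i) := by
  classical
  induction s using Finset.induction_on with
  | empty => rw [sum_empty, sum_empty]; exact Cl.refl intP_zero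
  | insert a s ha ih =>
    rw [sum_insert ha, sum_insert ha]
    exact (h a (mem_insert_self _ _)).add (ih fun i hi => h i (mem_insert_of_mem hi))

theorem IntP.prod {ι : Type} (s : Finset ι) (p : ι → MvPolynomial L K)
    (h : ∀ i ∈ s, IntP v (p i)) : IntP v (∏ i ∈ s, p i) := by
  classical
  induction s using Finset.induction_on with
  | empty => rw [prod_empty]; exact intP_one
  | insert a s ha ih =>
    rw [prod_insert ha]
    exact (h a (mem_insert_self _ _)).mul (ih fun i hi => h i (mem_insert_of_mem hi))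

theorem IntP.pow {p : MvPolynomial L K} (h : IntP v p) (n : ℕ) : IntP v (p ^ n) := by
  induction n with
  | zero => rw [pow_zero]; exact intP_one
  | succ n ih => rw [pow_succ]; exact ih.mul h

/-- integral substitutions preserve small polynomials -/
theorem SmP.aeval {s : Type} (h : s → MvPolynomial L K) (hh : ∀ i, IntP v (h i))
    (P : MvPolynomial s K) (hP : ∀ m, v (MvPolynomial.coeff m P) < 1) :
    SmP v (MvPolynomial.aeval h P) := by
  intro m
  rw [MvPolynomial.aeval_def, MvPolynomial.eval₂_eq, MvPolynomial.coeff_sum]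
  refine Valuation.map_sum_lt v one_ne_zero fun x _ => ?_
  rw [MvPolynomial.algebraMap_eq, MvPolynomial.coeff_C_mul, map_mul]
  exact mul_lt_one_of_nonneg_of_lt_one_left zero_le (hP x)
    (IntP.prod _ _ (fun i _ => (hh i).pow _) m)

end cong

section close

variable {F K Γ : Type} [Field F] [Field K] [Algebra F K] [LinearOrderedCommGroupWithZero Γ]
  {v : Valuation K Γ}

theorem v_alg_one (hv : ∀ x : F, v (algebraMap F K x) ≤ 1) {x : F} (hx : x ≠ 0) :
    v (algebraMap F K x) = 1 := by
  apply le_antisymm (hv x)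
  have h1 : v (algebraMap F K x) * v (algebraMap F K x⁻¹) = 1 := by
    rw [← map_mul, ← map_mul, mul_inv_cancel₀ hx, map_one, map_one]
  calc (1 : Γ) = v (algebraMap F K x) * v (algebraMap F K x⁻¹) := h1.symm
    _ ≤ v (algebraMap F K x) * 1 := mul_le_mul_right (hv _) _
    _ = _ := mul_one _

/-- a matrix close to a matrix over `F` has at least its rank -/
theorem rank_le_of_close (hv : ∀ x : F, v (algebraMap F K x) ≤ 1) {m n : Type} [Fintype m]
    [Fintype n] (A : Matrix m n F) (B : Matrix m n K)
    (h : ∀ i j, v (B i j - algebraMap F K (A i j)) < 1) : A.rank ≤ B.rank := by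
  obtain ⟨I, J, hIJ⟩ := Pool.XD.exists_minor A rfl
  refine Pool.XD.le_rank_of_minor B I J fun h0 => ?_
  have h1 := Pool.XD.v_det_sub_lt v (B.submatrix I J) ((A.submatrix I J).map (algebraMap F K))
    (fun i j => hv _) (fun i j => h _ _)
  have h2 : ((A.submatrix I J).map (algebraMap F K)).det =
      algebraMap F K (A.submatrix I J).det := by
    rw [RingHom.map_det]
    rfl
  rw [h0, h2, zero_sub, Valuation.map_neg, v_alg_one hv hIJ] at h1
  exact lt_irrefl _ h1

variable {L s : Type} [Fintype L]

theorem map_sub_alg {A B : Type} [Field A] [Field B] (ψ : A →+* B) (D : s → Option L)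
    (c : s → A) (G : MvPolynomial s A) :
    MvPolynomial.map ψ (sub D c G) = sub D (fun p => ψ (c p)) (MvPolynomial.map ψ G) := by
  unfold sub
  have h1 := MvPolynomial.map_bind₁ ψ
    (fun p => (MvPolynomial.C (c p) + (D p).elim 0 MvPolynomial.X : MvPolynomial L A)) G
  have h2 : (fun p => MvPolynomial.map ψ
      (MvPolynomial.C (c p) + (D p).elim 0 MvPolynomial.X : MvPolynomial L A)) =
      fun p => MvPolynomial.C (ψ (c p)) + (D p).elim 0 MvPolynomial.X := by
    funext p
    rw [map_add, MvPolynomial.map_C]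
    rcases D p with _ | l
    · simp
    · simp
  rw [h2] at h1
  exact h1

/-- the shifted polynomials are congruent -/
theorem cl_sub (hv : ∀ x : F, v (algebraMap F K x) ≤ 1) (D : s → Option L) (c : s → ℕ)
    (G : MvPolynomial s F) (G1 : MvPolynomial s K)
    (hcl : ∀ m, v (MvPolynomial.coeff m G1 - algebraMap F K (MvPolynomial.coeff m G)) < 1) :
    Cl v (sub D (fun p => (c p : K)) G1)
      (MvPolynomial.map (algebraMap F K) (sub D (fun p => (c p : F)) G)) := by
  have h1 : IntP v (MvPolynomial.map (algebraMap F K) (sub D (fun p => (c p : F)) G)) := by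
    intro m
    rw [MvPolynomial.coeff_map]
    exact hv _
  have h2 : SmP v (sub D (fun p => (c p : K)) G1 -
      MvPolynomial.map (algebraMap F K) (sub D (fun p => (c p : F)) G)) := by
    rw [map_sub_alg]
    simp only [map_natCast]
    rw [← map_sub]
    refine SmP.aeval _ (fun p => IntP.add (intP_C ?_) ?_) _ fun m => ?_
    · have := hv ((c p : ℕ) : F)
      rwa [map_natCast] at this
    · rcases D p with _ | l
      · exact intP_zero
      · exact intP_X l
    · rw [MvPolynomial.coeff_sub, MvPolynomial.coeff_map]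
      exact hcl m
  refine ⟨?_, h1, h2⟩
  have h3 := (h2.int).add h1
  rwa [sub_add_cancel] at h3

/-- the values at the base point are congruent -/
theorem v_eval_sub_lt (hv : ∀ x : F, v (algebraMap F K x) ≤ 1) (c : s → ℕ)
    (G : MvPolynomial s F) (G1 : MvPolynomial s K)
    (hcl : ∀ m, v (MvPolynomial.coeff m G1 - algebraMap F K (MvPolynomial.coeff m G)) < 1) :
    v (MvPolynomial.eval (fun p => (c p : K)) G1 -
      algebraMap F K (MvPolynomial.eval (fun p => (c p : F)) G)) < 1 := by
  have h1 : algebraMap F K (MvPolynomial.eval (fun p => (c p : F)) G) =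
      MvPolynomial.eval (fun p => (c p : K)) (MvPolynomial.map (algebraMap F K) G) := by
    rw [MvPolynomial.eval_map, ← MvPolynomial.eval₂_id, MvPolynomial.eval₂_comp_left]
    congr 1
    funext p
    simp
  rw [h1, ← map_sub, MvPolynomial.eval_eq]
  refine Valuation.map_sum_lt v one_ne_zero fun x _ => ?_
  rw [map_mul]
  refine mul_lt_one_of_nonneg_of_lt_one_left zero_le ?_ ?_
  · rw [MvPolynomial.coeff_sub, MvPolynomial.coeff_map]
    exact hcl x
  · rw [map_prod]
    refine prod_le_one' fun i _ => ?_
    rw [map_pow]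
    refine pow_le_one' ?_ _
    have := hv ((c i : ℕ) : F)
    rwa [map_natCast] at this

variable [CharZero F]

/-- the truncated logarithm, cleared of denominators -/
theorem aeval_logP_eq (d : ℕ) (g : MvPolynomial L K) {a : K} (ha : a ≠ 0) :
    MvPolynomial.C (a ^ d) * Polynomial.aeval (a⁻¹ • g - 1) (Pool.XD.logP K d) =
      lgg (F := F) d g (MvPolynomial.C a) := by
  unfold Pool.XD.logP lgg
  rw [map_sum, mul_sum]
  refine sum_congr rfl fun t ht => ?_
  have ht' := mem_range.1 ht
  rw [map_mul (Polynomial.aeval (a⁻¹ • g - 1)), Polynomial.aeval_C,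
    map_pow (Polynomial.aeval (a⁻¹ • g - 1)), Polynomial.aeval_X]
  have h1 : a⁻¹ • g - 1 = MvPolynomial.C a⁻¹ * (g - MvPolynomial.C a) := by
    rw [mul_sub, ← MvPolynomial.C_mul, inv_mul_cancel₀ ha, MvPolynomial.C_1,
      MvPolynomial.smul_eq_C_mul]
  have h2 : a ^ d = a ^ (t + 1) * a ^ (d - 1 - t) := by
    rw [← pow_add]
    congr 1
    omega
  have h3 : algebraMap F (MvPolynomial L K) ((-1) ^ t * ((t + 1 : ℕ) : F)⁻¹) =
      algebraMap K (MvPolynomial L K) ((-1) ^ t * ((t + 1 : ℕ) : K)⁻¹) := by
    rw [IsScalarTower.algebraMap_apply F K (MvPolynomial L K), map_mul, map_pow, map_neg, map_one,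
      map_inv₀, map_natCast]
  have h4 : (MvPolynomial.C a : MvPolynomial L K) * MvPolynomial.C a⁻¹ = 1 := by
    rw [← MvPolynomial.C_mul, mul_inv_cancel₀ ha, MvPolynomial.C_1]
  rw [h1, h2, h3, MvPolynomial.C_mul, map_pow, map_pow, mul_pow]
  have h5 : (MvPolynomial.C a : MvPolynomial L K) ^ (t + 1) * MvPolynomial.C a⁻¹ ^ (t + 1) = 1 := by
    rw [← mul_pow, h4, one_pow]
  linear_combination (algebraMap K (MvPolynomial L K) ((-1) ^ t * ((t + 1 : ℕ) : K)⁻¹) *
    (g - MvPolynomial.C a) ^ (t + 1) * MvPolynomial.C a ^ (d - 1 - t)) * h5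

/-- **the valued version** -/
theorem rank_log_close (hv : ∀ x : F, v (algebraMap F K x) ≤ 1) (ty : L → Bool)
    (D : s → Option L) (c : s → ℕ) (G : MvPolynomial s F) (G1 : MvPolynomial s K)
    (hcl : ∀ m, v (MvPolynomial.coeff m G1 - algebraMap F K (MvPolynomial.coeff m G)) < 1)
    (hG : MvPolynomial.eval (fun p => (c p : F)) G ≠ 0) (d a b a' b' : ℕ) :
    v (MvPolynomial.eval (fun p => (c p : K)) G1) = 1 ∧
    (Pool.XD.opM ty (lgg (F := F) d (sub D (fun p => (c p : F)) G)
      (MvPolynomial.C (MvPolynomial.eval (fun p => (c p : F)) G))) a b a' b').rank ≤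
    (Pool.XD.opM ty (Polynomial.aeval ((MvPolynomial.eval (fun p => (c p : K)) G1)⁻¹ •
      sub D (fun p => (c p : K)) G1 - 1) (Pool.XD.logP K d)) a b a' b').rank := by
  set x : F := MvPolynomial.eval (fun p => (c p : F)) G with hx
  set x1 : K := MvPolynomial.eval (fun p => (c p : K)) G1 with hx1
  have h1 : v (x1 - algebraMap F K x) < 1 := v_eval_sub_lt hv c G G1 hcl
  have h2 : v x1 = 1 := by
    have h3 := v_alg_one hv hG
    have h4 : x1 = algebraMap F K x + (x1 - algebraMap F K x) := by ring
    rw [h4, Valuation.map_add_eq_of_lt_left v (by rw [h3]; exact h1), h3]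
  refine ⟨h2, ?_⟩
  have hx10 : x1 ≠ 0 := by
    intro h0
    rw [h0, map_zero] at h2
    exact zero_ne_one h2
  set g1 := sub D (fun p => (c p : K)) G1 with hg1
  set g := sub D (fun p => (c p : F)) G with hg
  -- the congruence
  have h3 : Cl v (lgg (F := F) d g1 (MvPolynomial.C x1))
      (MvPolynomial.map (algebraMap F K) (lgg (F := F) d g (MvPolynomial.C x))) := by
    have e1 : MvPolynomial.map (algebraMap F K) (lgg (F := F) d g (MvPolynomial.C x)) =
        lgg (F := F) d (MvPolynomial.map (algebraMap F K) g)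
          (MvPolynomial.C (algebraMap F K x)) := by
      rw [map_lgg' (F := F) (MvPolynomial.map (algebraMap F K)), MvPolynomial.map_C]
      intro y
      rw [MvPolynomial.algebraMap_eq, MvPolynomial.map_C,
        IsScalarTower.algebraMap_apply F K (MvPolynomial L K), MvPolynomial.algebraMap_eq]
    rw [e1]
    unfold lgg
    have hcg := cl_sub hv D c G G1 hcl
    have hcx : Cl v (MvPolynomial.C x1 : MvPolynomial L K)
        (MvPolynomial.C (algebraMap F K x)) := by
      refine ⟨intP_C h2.le, intP_C (hv _), ?_⟩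
      rw [← MvPolynomial.C_sub]
      exact smP_C h1
    refine Cl.sum _ _ _ fun t _ => ?_
    refine Cl.mul (Cl.refl ?_) (((hcg.minus hcx).pow _).mul (hcx.pow _))
    rw [IsScalarTower.algebraMap_apply F K (MvPolynomial L K), MvPolynomial.algebraMap_eq]
    exact intP_C (hv _)
  -- the matrix over `K`
  have h4 : Pool.XD.opM ty (lgg (F := F) d g1 (MvPolynomial.C x1)) a b a' b' =
      x1 ^ d • Pool.XD.opM ty (Polynomial.aeval (x1⁻¹ • g1 - 1) (Pool.XD.logP K d)) a b a' b' := by
    rw [← aeval_logP_eq (F := F) d g1 hx10]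
    ext α γ
    rw [Matrix.smul_apply]
    unfold Pool.XD.opM
    split_ifs
    · rw [MvPolynomial.coeff_C_mul, smul_eq_mul]
    · rw [smul_zero]
  rw [← rank_smul_ne (pow_ne_zero d hx10) (Pool.XD.opM ty (Polynomial.aeval (x1⁻¹ • g1 - 1)
    (Pool.XD.logP K d)) a b a' b'), ← h4]
  refine rank_le_of_close hv _ _ fun α γ => ?_
  unfold Pool.XD.opM
  split_ifs
  · rw [← MvPolynomial.coeff_map, ← MvPolynomial.coeff_sub]
    exact h3.sub _
  · rw [map_zero, sub_zero, map_zero]
    exact zero_lt_one

end close

end Pool.XM
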