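import Pool.Agent.XD.Par

/-!
# XM: the numbers (row X7)

One threshold more than in XD, with the number `T` of the summands in it.
-/

set_option autoImplicit false

namespace Pool.XM

open Real Pool.XD

/-- **ROW X7**: the parameters and the final bound, with a constant which does not depend on `k` -/
theorem xm_final (K : ℕ) (Bc : ℝ) (hBc : 1 ≤ Bc) : ∃ C : ℝ, 1 ≤ C ∧
    ∀ k n T S w w0 : ℕ, 1 ≤ T → 2 ≤ S → 1 ≤ w → 1 ≤ w0 →
    ∃ (y : ℝ) (m : ℕ) (X Y : ℕ → ℝ), 0 < y ∧ y ≤ 1 ∧ 2 ≤ m ∧ X 0 = 1 ∧ Y 0 = 1 ∧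
      (∀ i, 0 < X i) ∧ (∀ i, 0 < Y i) ∧
      (∀ d ≤ n, ∀ i ≤ 2 * k, NumD d (S * (d + 1) ^ (8 * (w0 + w) + 16)) (exp 1)
        (exp y) (X i) (Y i) (X (i + 1)) (Y (i + 1))) ∧
      (∀ d ≤ n, NumD d (T * (d + 1) ^ 18) (exp 1) (exp y) (X (2 * k + 1)) (Y (2 * k + 1))
        (X (2 * k + 2)) (Y (2 * k + 2))) ∧
      ((∀ g : ℕ, 1 ≤ g → g * (m * (8 * m)) + 1 ≤ n → ∃ r E : ℕ, r + E = g * m ∧
          -((g : ℝ) * y) ≤ r - y * E ∧
          exp 1 ^ r ≤ ((g * m : ℕ) + 1 : ℝ) ^ K *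
            (X (2 * k + 2) ^ r * Y (2 * k + 2) ^ E) * Bc ^ g) →
        (n : ℝ) ≤ C * log (2 * n) *
          (C * (log S + log T + (w + w0) * log (2 * n))) ^ (2 * (Nat.fib (2 * k + 5) - 2))) := by
  obtain ⟨c1, hc1⟩ : ∃ c1 : ℕ, log Bc + 2 ≤ c1 := exists_nat_ge _
  have hlB : 0 ≤ log Bc := log_nonneg hBc
  have hc1' : (2 : ℝ) ≤ c1 := by linarith
  have hc1n : 2 ≤ c1 := by exact_mod_cast hc1'
  obtain ⟨C, hC⟩ : ∃ C : ℝ, C = (K + 3) * (8 * (16 * c1) ^ 2) + 18 * 38 := ⟨_, rfl⟩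
  have hCa : (K + 3) * (8 * (16 * (c1 : ℝ)) ^ 2) ≤ C := by
    rw [hC]
    norm_num
  have hCb : (18 : ℝ) * 38 ≤ C := by
    rw [hC]
    have : (0 : ℝ) ≤ (K + 3) * (8 * (16 * (c1 : ℝ)) ^ 2) := by positivity
    linarith
  refine ⟨C, by linarith, ?_⟩
  intro k n T S w w0 hT hS hw hw0
  obtain ⟨p, hp⟩ : ∃ p : ℕ, p = Nat.fib (2 * k + 5) - 2 := ⟨_, rfl⟩
  have hSr : (2 : ℝ) ≤ S := by exact_mod_cast hS
  have hTr : (1 : ℝ) ≤ T := by exact_mod_cast hT
  have hlT : 0 ≤ log T := log_nonneg hTr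
  have hl2 := log_two_gt_d9
  have hlS : log 2 ≤ log S := log_le_log (by norm_num) hSr
  obtain ⟨κ, hκ⟩ : ∃ κ : ℝ, κ = S * T * (n + 1 : ℝ) ^ (18 * (w + w0)) := ⟨_, rfl⟩
  have hn1 : (1 : ℝ) ≤ n + 1 := by
    have : (0 : ℝ) ≤ n := Nat.cast_nonneg _
    linarith
  have hST : (1 : ℝ) ≤ S * T := by nlinarith
  have hκ1 : 1 ≤ κ := by
    rw [hκ]
    exact one_le_mul_of_one_le_of_one_le hST (one_le_pow₀ hn1)
  have hTr0 : (0 : ℝ) < T := by linarith
  have hSr0 : (0 : ℝ) < S := by linarith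
  have hlκ : log κ = log S + log T + 18 * (w + w0) * log (n + 1) := by
    rw [hκ, log_mul (by positivity) (by positivity), log_mul hSr0.ne' hTr0.ne', log_pow]
    push_cast
    ring
  obtain ⟨σ, hσ⟩ : ∃ σ : ℕ, σ = ⌈2 * log κ⌉₊ := ⟨_, rfl⟩
  have hlκ0 : 0.6931 < log κ := by
    rw [hlκ]
    have : 0 ≤ (18 : ℝ) * (w + w0) * log (n + 1) :=
      mul_nonneg (by positivity) (log_nonneg hn1)
    linarith
  have hσ1 : 2 * log κ ≤ σ := by rw [hσ]; exact Nat.le_ceil _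
  have hσ2 : (σ : ℝ) ≤ 2 * log κ + 1 := by
    rw [hσ]
    exact (Nat.ceil_lt_add_one (by linarith)).le
  have hσ0 : 1 ≤ σ := by
    have : (0 : ℝ) < σ := by linarith
    have : 0 < σ := by exact_mod_cast this
    omega
  obtain ⟨A, B, s, X, Y, hs, hB, hBA, hA2, hsA, hX0, hY0, hXp, hYp, hch, hXL, hYL⟩ :=
    growth_chain (2 * k + 2) σ (by omega) hσ0 κ hκ1 (by linarith)
  rw [show 2 * k + 2 + 3 = 2 * k + 5 by ring, ← hp] at hsA
  have hA : 1 ≤ A := hB.trans hBA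
  have hAr : (0 : ℝ) < A := by exact_mod_cast hA
  have hBr : (0 : ℝ) < B := by exact_mod_cast hB
  obtain ⟨m, hm⟩ : ∃ m : ℕ, m = 4 * (s * A) * c1 := ⟨_, rfl⟩
  have hm2 : 2 ≤ m := by
    have h1 : 1 ≤ s * A := Nat.mul_pos hs hA
    have h2 : 4 * 1 * 1 ≤ 4 * (s * A) * c1 :=
      Nat.mul_le_mul (Nat.mul_le_mul_left _ h1) (by omega)
    omega
  have hm1 : 1 ≤ m := by omega
  -- the numerical conditions
  have hnum : ∀ d ≤ n, ∀ i, i + 1 ≤ 2 * k + 2 → ∀ κ' : ℝ, κ' ≤ κ →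
      NumD d κ' (exp 1) (exp ((B : ℝ) / A)) (X i) (Y i) (X (i + 1)) (Y (i + 1)) := by
    intro d hd i hi κ' hκ' b e hbe _
    rcases hch i hi b e hbe with h1 | h1 | h1
    · exact Or.inr (Or.inl h1)
    · exact Or.inl h1
    · refine Or.inr (Or.inr (le_trans ?_ h1))
      have h2 := hXp i
      have h3 := hYp i
      exact mul_le_mul_of_nonneg_right hκ' (by positivity)
  have hdn : ∀ d : ℕ, d ≤ n → ∀ a : ℕ, a ≤ 18 * (w + w0) →
      ((d : ℝ) + 1) ^ a ≤ ((n : ℝ) + 1) ^ (18 * (w + w0)) := by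
    intro d hd a ha
    have h2 : ((d : ℝ) + 1) ≤ n + 1 := by
      have : (d : ℝ) ≤ n := by exact_mod_cast hd
      linarith
    have h3 : (0 : ℝ) ≤ (d : ℝ) + 1 := by positivity
    exact (pow_le_pow_left₀ h3 h2 _).trans (pow_le_pow_right₀ hn1 ha)
  refine ⟨(B : ℝ) / A, m, X, Y, by positivity, ?_, hm2, hX0, hY0, hXp, hYp, ?_, ?_, ?_⟩
  · rw [div_le_one hAr]
    exact_mod_cast hBA
  · intro d hd i hi
    refine hnum d hd i (by omega) _ ?_
    rw [hκ]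
    exact mul_le_mul (by nlinarith) (hdn d hd _ (by omega)) (by positivity) (by positivity)
  · intro d hd
    refine hnum d hd (2 * k + 1) (by omega) _ ?_
    rw [hκ]
    exact mul_le_mul (by nlinarith) (hdn d hd _ (by omega)) (by positivity) (by positivity)
  intro hg
  rcases Nat.eq_zero_or_pos n with hn0 | hn0
  · subst hn0
    simp
  have hnr : (1 : ℝ) ≤ n := by exact_mod_cast hn0
  obtain ⟨Λ, hΛ⟩ : ∃ Λ : ℝ, Λ = log S + log T + (w + w0) * log (2 * n) := ⟨_, rfl⟩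
  have hl2n : log 2 ≤ log (2 * n) := log_le_log (by norm_num) (by linarith)
  have hln : log (n + 1) ≤ log (2 * n) := log_le_log (by linarith) (by linarith)
  have hww : (2 : ℝ) ≤ w + w0 := by
    have h1 : (1 : ℝ) ≤ w := by exact_mod_cast hw
    have h2 : (1 : ℝ) ≤ w0 := by exact_mod_cast hw0
    linarith
  have hwl : 2 * log 2 ≤ (w + w0) * log (2 * n) :=
    mul_le_mul hww hl2n (by linarith) (by linarith)
  have hΛ1 : 1 ≤ Λ := by rw [hΛ]; linarith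
  have hlκΛ : log κ ≤ 18 * Λ := by
    rw [hlκ, hΛ]
    have h1 : (18 : ℝ) * ((w + w0) * log (n + 1)) ≤ 18 * ((w + w0) * log (2 * n)) :=
      mul_le_mul_of_nonneg_left (mul_le_mul_of_nonneg_left hln (by linarith)) (by norm_num)
    linarith
  have hσΛ : (σ : ℝ) ≤ 38 * Λ := by linarith
  -- the size of m
  have hmle : (m : ℝ) ≤ 16 * c1 * (C * Λ) ^ p := by
    have h1 : m ≤ 4 * (4 * (18 * σ) ^ p) * c1 := by
      rw [hm]
      exact Nat.mul_le_mul_right _ (Nat.mul_le_mul_left _ hsA)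
    have h2 : (m : ℝ) ≤ 4 * (4 * (18 * (σ : ℝ)) ^ p) * c1 := by exact_mod_cast h1
    have h3 : (18 * (σ : ℝ)) ^ p ≤ (C * Λ) ^ p := by
      apply pow_le_pow_left₀ (by positivity)
      calc 18 * (σ : ℝ) ≤ (18 * 38) * Λ := by linarith
        _ ≤ C * Λ := mul_le_mul_of_nonneg_right hCb (by linarith)
    have h5 := mul_le_mul_of_nonneg_left h3 (show (0 : ℝ) ≤ 16 * c1 by positivity)
    linarith
  -- the number of chains
  obtain ⟨g, hgd⟩ : ∃ g : ℕ, g = (n - 1) / (m * (8 * m)) := ⟨_, rfl⟩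
  have hmq : 1 ≤ m * (8 * m) := Nat.mul_pos hm1 (by omega)
  have hgle : (g : ℝ) ≤ K * log (2 * n) := by
    rcases Nat.eq_zero_or_pos g with hg0 | hg0
    · rw [hg0, Nat.cast_zero]
      exact mul_nonneg (Nat.cast_nonneg _) (by linarith)
    · have hgn : g * (m * (8 * m)) + 1 ≤ n := by
        have := Nat.div_mul_le_self (n - 1) (m * (8 * m))
        rw [← hgd] at this
        omega
      obtain ⟨r, E, hrE, hbal, hineq⟩ := hg g hg0 hgn
      have hy1 : (B : ℝ) / A ≤ 1 := by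
        rw [div_le_one hAr]
        exact_mod_cast hBA
      rw [hXL, hYL] at hineq
      have h1 := g_le (T := 1) hs hA hBc hc1 hy1 le_rfl hm hrE hbal
        (by rw [Nat.cast_one, one_mul]; exact hineq)
      rw [Nat.cast_one, log_one, zero_add] at h1
      have h2 : ((g * m : ℕ) + 1 : ℝ) ≤ 2 * n := by
        have h3 : g * m ≤ n := by
          calc g * m = g * (m * 1) := by ring
            _ ≤ g * (m * (8 * m)) :=
              Nat.mul_le_mul_left _ (Nat.mul_le_mul_left _ (by omega))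
            _ ≤ n := by omega
        have h4 : ((g * m : ℕ) : ℝ) ≤ n := by exact_mod_cast h3
        linarith
      have h3 : log ((g * m : ℕ) + 1 : ℝ) ≤ log (2 * n) := log_le_log (by positivity) h2
      have h4 := mul_le_mul_of_nonneg_left h3 (Nat.cast_nonneg (α := ℝ) K)
      linarith
  have hnle : (n : ℝ) ≤ (g + 2) * (m * (8 * m)) := by
    have h1 := Nat.div_add_mod (n - 1) (m * (8 * m))
    have h2 := Nat.mod_lt (n - 1) (show 0 < m * (8 * m) by omega)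
    rw [← hgd] at h1
    have h3 : n ≤ (g + 2) * (m * (8 * m)) := by
      have : (g + 2) * (m * (8 * m)) = m * (8 * m) * g + 2 * (m * (8 * m)) := by ring
      omega
    exact_mod_cast h3
  rw [← hΛ, ← hp]
  have h1 : (g : ℝ) + 2 ≤ (K + 3) * log (2 * n) := by linarith
  have hCΛ : 0 ≤ C * Λ := mul_nonneg (by linarith) (by linarith)
  have h2 : (m : ℝ) * (8 * m) ≤ 8 * (16 * (c1 : ℝ)) ^ 2 * (C * Λ) ^ (2 * p) := by
    have h3 : (m : ℝ) * m ≤ (16 * c1 * (C * Λ) ^ p) * (16 * c1 * (C * Λ) ^ p) :=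
      mul_le_mul hmle hmle (Nat.cast_nonneg _) (by positivity)
    calc (m : ℝ) * (8 * m) = 8 * (m * m) := by ring
      _ ≤ 8 * ((16 * c1 * (C * Λ) ^ p) * (16 * c1 * (C * Λ) ^ p)) := by linarith
      _ = _ := by
        rw [two_mul p, pow_add]
        ring
  have hlog0 : 0 ≤ log (2 * (n : ℝ)) := by linarith
  calc (n : ℝ) ≤ (g + 2) * (m * (8 * m)) := hnle
    _ ≤ ((K + 3) * log (2 * n)) * (8 * (16 * (c1 : ℝ)) ^ 2 * (C * Λ) ^ (2 * p)) := by
      apply mul_le_mul h1 h2 (by positivity)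
      exact mul_nonneg (by positivity) hlog0
    _ = (K + 3) * (8 * (16 * (c1 : ℝ)) ^ 2) * (log (2 * n) * (C * Λ) ^ (2 * p)) := by ring
    _ ≤ C * (log (2 * n) * (C * Λ) ^ (2 * p)) := mul_le_mul_of_nonneg_right hCa (by positivity)
    _ = _ := by ring

end Pool.XM
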