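import Pool.Agent.XM.Mach
import Pool.Agent.XM.RankGen
import Pool.Agent.XM.Bridge
import Pool.Agent.XM.Close
import Pool.Agent.XM.Num
import Pool.Agent.XD.Assembly

/-!
# Multiples of the permanent are hard at every constant depth (XM): the assembly

`core`: the core inequality for `g` chains of length `m`, for a polynomial over a valued field `K`
which is close to a polynomial `G` over a trivially valued field `F` whose form of top degree is
a multiple of the permanent.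
`xm`: the lower bound.
-/

set_option autoImplicit false

namespace Pool.XM

open Finset Pool.Agent.Helper87.D3 Pool.Agent.Helper41.CD Pool.XD Pool.QPIT

/-- the rank of the matrix of the chains does not depend on the field of characteristic zero -/
theorem rank_chn_field (d : ℕ) (wd : ℕ → ℕ) (ty : ℕ → Bool) (F : Type) [Field F] [CharZero F]
    (a b a' b' : ℕ) : (opM (tyl d wd ty) (chn d wd ℝ) a b a' b').rank =
      (opM (tyl d wd ty) (chn d wd F) a b a' b').rank := by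
  have h1 := opM_map (tyl d wd ty) (Int.castRingHom ℝ) (chn d wd ℤ) a b a' b'
  have h2 := opM_map (tyl d wd ty) (Int.castRingHom F) (chn d wd ℤ) a b a' b'
  rw [map_chn] at h1 h2
  rw [← h1, ← h2]
  exact rank_map_eq _ _ (RingHom.injective_int _) (RingHom.injective_int _) _

section inB

variable {K B : Type} [Field K] [CommRing B] [Algebra K B] {M : ℕ → ℕ → Submodule K B}

theorem inB_smul (a : K) {x : Ser B} (hx : InB M x) : InB M (a • x) := fun b e => by
  rw [cf_smul']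
  exact (M b e).smul_mem _ (hx b e)

theorem inB_sub {x z : Ser B} (hx : InB M x) (hz : InB M z) : InB M (x - z) := fun b e => by
  rw [cf_sub]
  exact (M b e).sub_mem (hx b e) (hz b e)

/-- a polynomial in a series of a bigraded family lies in the family -/
theorem inB_aeval (hM : Big M) {x : Ser B} (hx : InB M x) (R : Polynomial K) :
    InB M (Polynomial.aeval x R) := by
  induction R using Polynomial.induction_on' with
  | add p q hp hq => rw [map_add]; exact hp.add hq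
  | monomial n a =>
    rw [Polynomial.aeval_monomial, ← Algebra.smul_def]
    exact inB_smul a (InB.pow hM hx n)

end inB

section core

variable {F K Γ : Type} [Field F] [CharZero F] [Field K] [CharZero K] [Algebra F K]
  [LinearOrderedCommGroupWithZero Γ] (v : Valuation K Γ)

/-- **the core inequality** -/
theorem core (hv : ∀ x : F, v (algebraMap F K x) ≤ 1) {n T S w w0 k g m : ℕ} {y : ℝ}
    {X Y : ℕ → ℝ}
    (f : Fin T → Fin S → MvPolynomial (Fin n × Fin n) K) (hf : ∀ i j, f i j ∈ Cls w0 w S k)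
    (G : MvPolynomial (Fin n × Fin n) F) (hG : G ≠ 0)
    (hPG : Pool.CDep.permP n F ∣ MvPolynomial.homogeneousComponent G.totalDegree G)
    (hcl : ∀ m, v (MvPolynomial.coeff m (∑ i, ∏ j, f i j) -
      algebraMap F K (MvPolynomial.coeff m G)) < 1)
    (hg : 1 ≤ g) (hm : 2 ≤ m) (hy : 0 < y) (hy1 : y ≤ 1) (hn : g * (m * (8 * m)) + 1 ≤ n)
    (hX : ∀ i, 0 < X i) (hY : ∀ i, 0 < Y i) (hX0 : X 0 = 1) (hY0 : Y 0 = 1)
    (hnum : ∀ i ≤ 2 * k, NumD (g * m) (S * ((g * m : ℕ) + 1) ^ (8 * (w0 + w) + 16)) (Real.exp 1)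
        (Real.exp y) (X i) (Y i) (X (i + 1)) (Y (i + 1)))
    (hnum' : NumD (g * m) (T * ((g * m : ℕ) + 1) ^ 18) (Real.exp 1) (Real.exp y) (X (2 * k + 1))
        (Y (2 * k + 1)) (X (2 * k + 2)) (Y (2 * k + 2))) :
    ∃ r E : ℕ, r + E = g * m ∧ -((g : ℝ) * y) ≤ r - y * E ∧
      Real.exp 1 ^ r ≤ ((g * m : ℕ) + 1 : ℝ) ^ 8 *
        (X (2 * k + 2) ^ r * Y (2 * k + 2) ^ E) * (6 * Real.exp 2) ^ g := by
  classical
  obtain ⟨d, hd⟩ : ∃ d, d = g * m := ⟨_, rfl⟩
  obtain ⟨wd, hwd⟩ : ∃ wd, wd = wdc m (8 * m) := ⟨_, rfl⟩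
  obtain ⟨ty, hty⟩ : ∃ ty, ty = tyc y m := ⟨_, rfl⟩
  obtain ⟨r, hr⟩ : ∃ r, r = (univ.filter fun i : Fin d => ty i = true).card := ⟨_, rfl⟩
  obtain ⟨E, hE⟩ : ∃ E, E = (univ.filter fun i : Fin d => ty i = false).card := ⟨_, rfl⟩
  have hwd1 : ∀ j, 1 ≤ wd j := by
    intro j
    rw [hwd]
    unfold wdc
    split_ifs <;> omega
  have hw0' : wd 0 = 1 := by
    rw [hwd]
    unfold wdc
    rw [if_pos (dvd_zero _)]
  have hw1' : wd d = 1 := by
    rw [hwd, hd]
    unfold wdc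
    rw [if_pos (dvd_mul_left _ _)]
  have hd2 : 2 ≤ d := by
    rw [hd]
    exact hm.trans (Nat.le_mul_of_pos_left m hg)
  have hn' : 1 + ∑ j ∈ Ico 1 d, wd j ≤ n := by
    rw [hd, hwd]
    exact inner_le (by omega) hn
  obtain ⟨h1U, h1V, hrE, hrE', LU, LV, hL1, hL2, hL3, hL4, hL5⟩ :=
    params (r := r) (E := E) hg hm hy hy1 (by rw [hr, hd, hty]) (by rw [hE, hd, hty])
  rw [← hd, ← hwd, ← hty] at h1U h1V hL2 hL3 hL4 hL5
  rw [← hd] at hrE
  -- the generic rank
  obtain ⟨D, hD⟩ := rank_chn_le F d wd (tyl d wd ty) hd2 hw0' hw1' hn' hrE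
  obtain ⟨V, hV, hV'⟩ := hD G hG hPG LU LV (by omega)
  -- the machine
  obtain ⟨SU, SV, hSU, hSV⟩ := exists_sub (tyl d wd ty) (K := K)
  have hfV := filt_VV (tyl d wd ty) (K := K)
  have hfU := filt_UU (tyl d wd ty) (K := K)
  have he1 : (0 : ℝ) < Real.exp 1 := Real.exp_pos _
  have hey : (0 : ℝ) < Real.exp y := Real.exp_pos _
  obtain ⟨W, hW, hmach⟩ := machine_log (σ := Fin n × Fin n) (K := K)
    (B := MvPolynomial (Ltr d wd) K)
    (Pool.CD.cost_Nu hfV hfU hey.le he1.le) (Pool.CD.big_Bi hfV hfU) he1 hey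
    (Pool.CD.leaf_Bi hfV hfU (Real.exp y) (Real.exp 1)) SU SV
    (fun a ha b hb => by
      have h1 := Pool.CD.Nu.ofMul (V := VV (tyl d wd ty) K) (U := UU (tyl d wd ty) K)
        (hv := Real.exp y) (hu := Real.exp 1) ((hSU a).1 ha) ((hSV b).1 hb)
      rwa [pow_zero, pow_zero, mul_one] at h1)
    (PhiN (tyl d wd ty) D) (PhiN_mem _ D) (PhiN_zero _ D)
    (fun c p hp => by
      obtain ⟨α, hα, β, hβ, h1⟩ := PhiN_one (tyl d wd ty) D c p hp
      exact ⟨α, (hSU α).2 hα, β, (hSV β).2 hβ, h1⟩)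
    (d := d) (w0 := w0) (w := w) (S := S) (T := T)
    hX hY hX0 hY0 (by rw [hd]; exact hnum) (by rw [hd]; exact hnum') f hf
  have hinj : Function.Injective (algebraMap F K) := (algebraMap F K).injective
  obtain ⟨c, hc⟩ := exists_nat_eval (W * MvPolynomial.map (algebraMap F K) V)
    (mul_ne_zero hW ((map_ne_zero_iff _ (MvPolynomial.map_injective _ hinj)).2 hV))
  rw [map_mul] at hc
  have hNu := hmach (fun l => (c l : K)) (left_ne_zero_of_mul hc) r E (by omega)
  have hcV : MvPolynomial.eval (fun p => (c p : F)) V ≠ 0 := by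
    intro h0
    apply right_ne_zero_of_mul hc
    have h1 : (fun l => (c l : K)) = fun l => algebraMap F K ((c l : F)) := by
      funext l
      rw [map_natCast]
    rw [MvPolynomial.eval_map, h1]
    have h2 := MvPolynomial.eval₂_comp_left (algebraMap F K) (RingHom.id F)
      (fun p => (c p : F)) V
    rw [RingHom.comp_id] at h2
    have h3 : MvPolynomial.eval₂ (RingHom.id F) (fun p => (c p : F)) V = 0 := h0
    rw [h3, map_zero] at h2
    exact h2.symm
  obtain ⟨hG0, hrank⟩ := hV' _ hcV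
  -- the matrix
  set G1 : MvPolynomial (Fin n × Fin n) K := ∑ i, ∏ j, f i j with hG1
  have hclose := (rank_log_close hv (tyl d wd ty) D c G G1 hcl hG0 d LU LV (LU - r) (LV + E)).2
  set P := cf r E (Polynomial.aeval ((MvPolynomial.eval (fun l => (c l : K)) G1)⁻¹ •
    PhiN (tyl d wd ty) D (fun l => (c l : K)) G1 - 1) (logP K d)) with hP
  have hPm : P ∈ UU (tyl d wd ty) K r ∧ P ∈ VV (tyl d wd ty) K E := by
    have hM := Pool.CD.big_Bi hfV hfU
    have h1 : InB (Pool.CD.Bi (VV (tyl d wd ty) K) (UU (tyl d wd ty) K))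
        ((MvPolynomial.eval (fun l => (c l : K)) G1)⁻¹ •
          PhiN (tyl d wd ty) D (fun l => (c l : K)) G1 - 1) :=
      inB_sub (inB_smul _ (PhiN_mem _ D _ _)) (InB.one hM)
    exact inB_aeval hM h1 _ r E
  have hrank1 := rank_opM_le (tyl d wd ty) he1 hey (LU := LU) (LV := LV) (r := r) (E := E)
    (by omega) h1U h1V hL2 hL3 P hPm.1 hPm.2 hNu
  have hopP : opM (tyl d wd ty) P LU LV (LU - r) (LV + E) =
      opM (tyl d wd ty) (Polynomial.aeval ((MvPolynomial.eval (fun l => (c l : K)) G1)⁻¹ •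
        sub D (fun l => (c l : K)) G1 - 1) (logP K d)) LU LV (LU - r) (LV + E) :=
    opM_aeval_PhiN (tyl d wd ty) D _ _ _ _ (by omega) E LV
  rw [← hopP] at hclose
  have hrank2 : (opM (tyl d wd ty) (chn d wd ℝ) LU LV (LU - r) (LV + E)).rank ≤
      d * (opM (tyl d wd ty) P LU LV (LU - r) (LV + E)).rank := by
    rw [rank_chn_field d wd ty F]
    exact hrank.trans (Nat.mul_le_mul_left d hclose)
  -- the count
  have hcount := chain_count d wd ty hwd1 hw0' (LU := LU) (LV := LV) hr hE hL1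
    (Real.exp_pos (1 + 1 / m)).le (Real.exp_pos (-y)).le h1U h1V hL4 hL5
  have hB1 : (1 : ℝ) ≤ Real.exp 2 := Real.one_le_exp (by norm_num)
  have hZ := ZZ_chains (g := g) (m := m) (q := 8 * m) (B := Real.exp 2)
    (oU := Real.exp (1 + 1 / m)) (oV := Real.exp (-y)) (gw 1 y) (by omega) hB1
    (m_mul_exp_le m)
    (Real.exp_pos _) (Real.exp_pos _) (fun i hi => (prefixes hm hy hy1 hi).1)
    (fun i hi => (prefixes hm hy hy1 hi).2)
  have hZ' : (ZZ wd ty (Real.exp (1 + 1 / m)) (Real.exp (-y)) d).1 +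
      (ZZ wd ty (Real.exp (1 + 1 / m)) (Real.exp (-y)) d).2 ≤ (6 * Real.exp 2) ^ g := by
    rw [hwd, hty, hd]
    exact hZ
  -- conclusion
  set D0 : ℝ := (((nU (tyl d wd ty)).multichoose LU * (nV (tyl d wd ty)).multichoose LV : ℕ) : ℝ)
    with hD0
  have hD0pos : 0 < D0 := by
    rw [hD0]
    have h1 : 0 < (nU (tyl d wd ty)).multichoose LU := by
      rw [Nat.multichoose_eq]
      exact Nat.choose_pos (by omega)
    have h2 : 0 < (nV (tyl d wd ty)).multichoose LV := by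
      rw [Nat.multichoose_eq]
      exact Nat.choose_pos (by omega)
    exact_mod_cast Nat.mul_pos h1 h2
  set Rk : ℝ := ((opM (tyl d wd ty) P LU LV (LU - r) (LV + E)).rank : ℝ) with hRk
  have hRk0 : 0 ≤ Rk := Nat.cast_nonneg _
  have hBg : (0 : ℝ) < (6 * Real.exp 2) ^ g := by positivity
  have hd0 : (0 : ℝ) ≤ d := Nat.cast_nonneg _
  have hD0le : D0 ≤ d * Rk * (6 * Real.exp 2) ^ g := by
    refine hcount.trans ?_
    have h1 : ((opM (tyl d wd ty) (chn d wd ℝ) LU LV (LU - r) (LV + E)).rank : ℝ) ≤ d * Rk := by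
      rw [hRk]
      exact_mod_cast hrank2
    calc _ ≤ ((opM (tyl d wd ty) (chn d wd ℝ) LU LV (LU - r) (LV + E)).rank : ℝ) *
          (6 * Real.exp 2) ^ g := mul_le_mul_of_nonneg_left hZ' (Nat.cast_nonneg _)
      _ ≤ _ := mul_le_mul_of_nonneg_right h1 hBg.le
  refine ⟨r, E, by omega, hrE', ?_⟩
  have hXY : 0 < X (2 * k + 2) ^ r * Y (2 * k + 2) ^ E :=
    mul_pos (pow_pos (hX _) _) (pow_pos (hY _) _)
  have h1 : D0 * Real.exp 1 ^ r ≤ d * (((d : ℝ) + 1) ^ 7 * (X (2 * k + 2) ^ r *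
      Y (2 * k + 2) ^ E)) * D0 * (6 * Real.exp 2) ^ g := by
    calc D0 * Real.exp 1 ^ r ≤ d * Rk * (6 * Real.exp 2) ^ g * Real.exp 1 ^ r :=
          mul_le_mul_of_nonneg_right hD0le (by positivity)
      _ = d * (Rk * Real.exp 1 ^ r) * (6 * Real.exp 2) ^ g := by ring
      _ ≤ d * ((((d : ℝ) + 1) ^ 7 * (X (2 * k + 2) ^ r * Y (2 * k + 2) ^ E)) * D0) *
          (6 * Real.exp 2) ^ g :=
          mul_le_mul_of_nonneg_right (mul_le_mul_of_nonneg_left hrank1 hd0) hBg.le
      _ = _ := by ring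
  have h2 : D0 * Real.exp 1 ^ r ≤ D0 * (((d : ℝ) + 1) ^ 8 *
      (X (2 * k + 2) ^ r * Y (2 * k + 2) ^ E) * (6 * Real.exp 2) ^ g) := by
    refine h1.trans ?_
    have h3 : (d : ℝ) * ((d : ℝ) + 1) ^ 7 ≤ ((d : ℝ) + 1) ^ 8 := by
      rw [pow_succ ((d : ℝ) + 1) 7, mul_comm]
      exact mul_le_mul_of_nonneg_left (by linarith) (by positivity)
    calc (d : ℝ) * (((d : ℝ) + 1) ^ 7 * (X (2 * k + 2) ^ r *
        Y (2 * k + 2) ^ E)) * D0 * (6 * Real.exp 2) ^ g = (d * ((d : ℝ) + 1) ^ 7) *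
          ((X (2 * k + 2) ^ r * Y (2 * k + 2) ^ E) * D0 * (6 * Real.exp 2) ^ g) := by ring
      _ ≤ ((d : ℝ) + 1) ^ 8 *
          ((X (2 * k + 2) ^ r * Y (2 * k + 2) ^ E) * D0 * (6 * Real.exp 2) ^ g) :=
          mul_le_mul_of_nonneg_right h3 (by positivity)
      _ = _ := by ring
  have h3 := le_of_mul_le_mul_left h2 hD0pos
  rw [hd] at h3
  exact h3

end core

/-- a coefficient of a nonzero polynomial over a trivially valued field is not small -/
theorem T_pos {F K Γ σ : Type} [Field F] [Field K] [Algebra F K]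
    [LinearOrderedCommGroupWithZero Γ] (v : Valuation K Γ)
    (hv : ∀ x : F, v (algebraMap F K x) ≤ 1) {T S : ℕ} (f : Fin T → Fin S → MvPolynomial σ K)
    (G : MvPolynomial σ F) (hG : G ≠ 0)
    (hcl : ∀ m, v (MvPolynomial.coeff m (∑ i, ∏ j, f i j) -
      algebraMap F K (MvPolynomial.coeff m G)) < 1) : 1 ≤ T := by
  rcases Nat.eq_zero_or_pos T with h0 | h0
  · exfalso
    subst h0
    obtain ⟨m, hm⟩ := MvPolynomial.ne_zero_iff.1 hG
    have h1 := hcl m
    rw [Finset.univ_eq_empty, Finset.sum_empty, MvPolynomial.coeff_zero, zero_sub,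
      Valuation.map_neg, v_alg_one hv hm] at h1
    exact lt_irrefl _ h1
  · exact h0

/-- **MULTIPLES OF THE PERMANENT ARE HARD AT EVERY CONSTANT DEPTH**, valued form -/
theorem xm : ∃ C : ℝ, 1 ≤ C ∧
    ∀ (F K Γ : Type) [Field F] [CharZero F] [Field K] [Algebra F K]
      [LinearOrderedCommGroupWithZero Γ] (v : Valuation K Γ) (k n T S w w0 : ℕ)
      (f : Fin T → Fin S → MvPolynomial (Fin n × Fin n) K) (G : MvPolynomial (Fin n × Fin n) F),
      (∀ x : F, v (algebraMap F K x) ≤ 1) → 2 ≤ S → 1 ≤ w → 1 ≤ w0 →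
      (∀ i j, f i j ∈ Cls w0 w S k) → G ≠ 0 →
      Pool.CDep.permP n F ∣ MvPolynomial.homogeneousComponent G.totalDegree G →
      (∀ m, v (MvPolynomial.coeff m (∑ i, ∏ j, f i j) -
        algebraMap F K (MvPolynomial.coeff m G)) < 1) →
      (n : ℝ) ≤ C * Real.log (2 * n) *
        (C * (Real.log S + Real.log T + (w + w0) * Real.log (2 * n))) ^
          (2 * (Nat.fib (2 * k + 5) - 2)) := by
  have hB : (1 : ℝ) ≤ 6 * Real.exp 2 := by
    have := Real.one_le_exp (show (0 : ℝ) ≤ 2 by norm_num)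
    linarith
  obtain ⟨C, hC, hfin⟩ := xm_final 8 (6 * Real.exp 2) hB
  refine ⟨C, hC, ?_⟩
  intro F K Γ _ _ _ _ _ v k n T S w w0 f G hv hS hw hw0 hf hG hPG hcl
  have : CharZero K := (RingHom.charZero_iff (algebraMap F K).injective).1 inferInstance
  obtain ⟨y, m, X, Y, hy, hy1, hm, hX0, hY0, hX, hY, hnum, hnum', h⟩ :=
    hfin k n T S w w0 (T_pos v hv f G hG hcl) hS hw hw0
  refine h fun g hg hgn => ?_
  have hgm : g * m ≤ n := by
    have h1 : g * m ≤ g * (m * (8 * m)) := by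
      apply Nat.mul_le_mul_left
      nlinarith
    omega
  exact core v hv f hf G hG hPG hcl hg hm hy hy1 hgn hX hY hX0 hY0
    (fun i hi => by
      have h2 := hnum (g * m) hgm i hi
      exact h2)
    (by
      have h2 := hnum' (g * m) hgm
      exact h2)

/-- **MULTIPLES OF THE PERMANENT ARE HARD AT EVERY CONSTANT DEPTH** -/
theorem xm_eq : ∃ C : ℝ, 1 ≤ C ∧
    ∀ (F : Type) [Field F] [CharZero F] (k n T S w w0 : ℕ)
      (f : Fin T → Fin S → MvPolynomial (Fin n × Fin n) F), 2 ≤ S → 1 ≤ w → 1 ≤ w0 →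
      (∀ i j, f i j ∈ Cls w0 w S k) → ∑ i, ∏ j, f i j ≠ 0 →
      Pool.CDep.permP n F ∣ MvPolynomial.homogeneousComponent
        (∑ i, ∏ j, f i j).totalDegree (∑ i, ∏ j, f i j) →
      (n : ℝ) ≤ C * Real.log (2 * n) *
        (C * (Real.log S + Real.log T + (w + w0) * Real.log (2 * n))) ^
          (2 * (Nat.fib (2 * k + 5) - 2)) := by
  classical
  obtain ⟨C, hC, h⟩ := xm
  refine ⟨C, hC, ?_⟩
  intro F _ _ k n T S w w0 f hS hw hw0 hf hG hPG
  refine h F F (WithZero (Multiplicative ℤ)) (1 : Valuation F (WithZero (Multiplicative ℤ)))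
    k n T S w w0 f _ (fun x => Valuation.one_apply_le_one x) hS hw hw0 hf hG hPG (fun m => ?_)
  rw [Algebra.algebraMap_self, RingHom.id_apply, sub_self, map_zero]
  exact zero_lt_one

end Pool.XM
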