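import Pool.Agent.XD.Perm

/-!
# XM, row X6: the gadget of XD with a direct edge of weight `t`

`perm_edge`: `perm (C0 + t * E_00 + letters) = t + (chain polynomial of the letters)`, over every
commutative ring.
-/

set_option autoImplicit false

namespace Pool.XD

open Finset

section edge

variable (d : ℕ) (wd : ℕ → ℕ) (k0 : ℕ)

/-- the letter with the given numbers -/
def lq (i a b : ℕ) : Option (Ltr d wd) :=
  if h : i < d ∧ a < wd i ∧ b < wd (i + 1) then
    some ⟨⟨i, h.1⟩, ⟨a, h.2.1⟩, ⟨b, h.2.2⟩⟩ else none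

theorem lq_ltr (s : Wrd d wd) (i : Fin d) :
    lq d wd i (s i.castSucc) (s i.succ) = some (ltr s i) := by
  have h : (i : ℕ) < d ∧ (s i.castSucc : ℕ) < wd i ∧ (s i.succ : ℕ) < wd (i + 1) :=
    ⟨i.2, (s i.castSucc).2, (s i.succ).2⟩
  unfold lq
  rw [dif_pos h]
  rfl

/-- the letters on the edges of the graph with the extra vertex -/
def lE : Option (Vt d wd k0) → Option (Vt d wd k0) → Option (Ltr d wd)
  | none, some (Sum.inl j) => if (j.1 : ℕ) = 0 then lq d wd 0 0 j.2 else none
  | some (Sum.inl i), none => if (i.1 : ℕ) + 1 = d - 1 then lq d wd (d - 1) i.2 0 else none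
  | some (Sum.inl i), some (Sum.inl j) =>
      if (j.1 : ℕ) = i.1 + 1 then lq d wd (i.1 + 1) i.2 j.2 else none
  | _, _ => none

/-- the weights of the edges -/
def wQ {A : Type} [CommRing A] (x : Ltr d wd → A) (i a b : ℕ) : A := (lq d wd i a b).elim 0 x

theorem acy_eq {A : Type} [CommRing A] (t : A) (x : Ltr d wd → A)
    (i j : Option (Vt d wd k0)) :
    Pool.Agent.Helper97.Form.acy t (gu d wd k0 (wQ d wd x)) (gv d wd k0 (wQ d wd x))
      (gN d wd k0 (wQ d wd x)) i j =
      ((if i = j ∧ i ≠ none then 1 else 0 : ℤ) : A) + (if i = none ∧ j = none then t else 0) +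
        (lE d wd k0 i j).elim 0 x := by
  rcases i with _ | i <;> rcases j with _ | j
  · show t = _
    simp [lE]
  · show gu d wd k0 (wQ d wd x) j = _
    rcases j with j | j
    · show (if (j.1 : ℕ) = 0 then wQ d wd x 0 0 j.2 else 0) = _
      by_cases h : (j.1 : ℕ) = 0
      · simp [lE, h, wQ]
      · simp [lE, h]
    · show (0 : A) = _
      simp [lE]
  · show gv d wd k0 (wQ d wd x) i = _
    rcases i with i | i
    · show (if (i.1 : ℕ) + 1 = d - 1 then wQ d wd x (d - 1) i.2 0 else 0) = _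
      by_cases h : (i.1 : ℕ) + 1 = d - 1
      · simp [lE, h, wQ]
      · simp [lE, h]
    · show (0 : A) = _
      simp [lE]
  · show (if i = j then 1 else 0) + gN d wd k0 (wQ d wd x) i j = _
    have e1 : (((if (some i : Option (Vt d wd k0)) = some j ∧ (some i : Option (Vt d wd k0)) ≠ none
        then 1 else 0 : ℤ)) : A) = if i = j then 1 else 0 := by
      by_cases h : i = j
      · simp [h]
      · simp [h]
    have e2 : (if (some i : Option (Vt d wd k0)) = none ∧ (some j : Option (Vt d wd k0)) = none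
        then t else 0) = 0 := by simp
    rw [e1, e2, add_zero]
    congr 1
    rcases i with i | i
    · rcases j with j | j
      · show (if (j.1 : ℕ) = i.1 + 1 then wQ d wd x (i.1 + 1) i.2 j.2 else 0) = _
        by_cases h : (j.1 : ℕ) = i.1 + 1
        · simp [lE, h, wQ]
        · simp [lE, h]
      · show (0 : A) = _
        simp [lE]
    · show (0 : A) = _
      simp [lE]

/-- **row X6** -/
theorem perm_edge (d : ℕ) (wd : ℕ → ℕ) (hd : 2 ≤ d) (hw0 : wd 0 = 1) (hw1 : wd d = 1) {n : ℕ}
    (hn : 1 + ∑ j ∈ Ico 1 d, wd j ≤ n) (z : Fin n) :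
    ∃ (C0 : Fin n × Fin n → ℤ) (D : Fin n × Fin n → Option (Ltr d wd)),
      (∀ p, C0 p = 0 ∨ C0 p = 1) ∧ C0 (z, z) = 0 ∧ D (z, z) = none ∧
      ∀ (A : Type) [CommRing A] (t : A) (x : Ltr d wd → A),
        (Matrix.of fun i j => (C0 (i, j) : A) + (if i = z ∧ j = z then t else 0) +
          (D (i, j)).elim 0 x).permanent = t + ∑ s : Wrd d wd, ∏ i : Fin d, x (ltr s i) := by
  classical
  have hc : Fintype.card ((j : Fin (d - 1)) × Fin (wd (j + 1))) = ∑ j ∈ Ico 1 d, wd j := by
    rw [Fintype.card_sigma]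
    simp only [Fintype.card_fin]
    rw [Fin.sum_univ_eq_sum_range (fun j => wd (j + 1)), sum_Ico_eq_sum_range]
    exact sum_congr rfl fun j _ => by rw [add_comm]
  set k0 : ℕ := n - 1 - ∑ j ∈ Ico 1 d, wd j with hk0
  have hn' : Fintype.card (Option (Vt d wd k0)) = n := by
    rw [Fintype.card_option, Fintype.card_sum, Fintype.card_fin, hc]
    omega
  let e0 : Fin n ≃ Option (Vt d wd k0) :=
    (finCongr hn'.symm).trans (Fintype.equivFin _).symm
  let e : Fin n ≃ Option (Vt d wd k0) := (Equiv.swap z (e0.symm none)).trans e0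
  have hez : e z = none := by
    show e0 (Equiv.swap z (e0.symm none) z) = none
    rw [Equiv.swap_apply_left, Equiv.apply_symm_apply]
  have hez' : ∀ i, e i = none ↔ i = z := fun i => by
    rw [← hez]
    exact e.injective.eq_iff
  refine ⟨fun p => if e p.1 = e p.2 ∧ e p.1 ≠ none then 1 else 0,
    fun p => lE d wd k0 (e p.1) (e p.2), ?_, ?_, ?_, ?_⟩
  · intro p
    by_cases h : e p.1 = e p.2 ∧ e p.1 ≠ none
    · exact Or.inr (if_pos h)
    · exact Or.inl (if_neg h)
  · show (if e z = e z ∧ e z ≠ none then (1 : ℤ) else 0) = 0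
    rw [if_neg]
    rintro ⟨_, h⟩
    exact h hez
  · show lE d wd k0 (e z) (e z) = none
    rw [hez]
    rfl
  · intro A _ t x
    have h1 := Pool.Agent.Helper97.Form.perm_acy (grk d wd k0) t
      (gu d wd k0 (wQ d wd x)) (gv d wd k0 (wQ d wd x)) (gx d wd k0 (wQ d wd x))
      (gN d wd k0 (wQ d wd x))
      (gN_acyclic d wd k0 _) (gx_rec d wd k0 _ hw1)
    have h2 := sum_gu d wd k0 (wQ d wd x) (by omega) hw1
    rw [if_neg (by omega), zero_add] at h2
    rw [h2, ← sum_wrd d wd _ hw0] at h1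
    have h3 : ∑ s : Wrd d wd, ∏ i : Fin d, wQ d wd x i (s i.castSucc) (s i.succ) =
        ∑ s : Wrd d wd, ∏ i : Fin d, x (ltr s i) :=
      sum_congr rfl fun s _ => prod_congr rfl fun i _ => by rw [wQ, lq_ltr]; rfl
    rw [h3] at h1
    rw [← h1, ← Pool.Agent.Helper97.Form.permanent_reindex e e]
    congr 1
    refine Matrix.ext fun i j => ?_
    show _ = Pool.Agent.Helper97.Form.acy t _ _ _ (e i) (e j)
    rw [acy_eq]
    show ((if e i = e j ∧ e i ≠ none then 1 else 0 : ℤ) : A) + (if i = z ∧ j = z then t else 0) +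
      (lE d wd k0 (e i) (e j)).elim 0 x = _
    simp only [hez']

end edge

end Pool.XD
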