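import Pool.Agent.XM.Ld
import Pool.Agent.XM.RankGen
import Pool.Agent.XM.Generic

/-!
# The generic rank of the logarithm of a multiple of a prime polynomial

`P` is a prime polynomial which is affine in the variable `q`, with the cofactor `a`; the
substitution `X p ↦ y p + π p` has no direction in the variable `q`; at the point `C0` it makes `P`
equal to `f` and `a` equal to `1`.  For a nonzero multiple `G` of `P` (or a polynomial whose form of
top degree is one) the coefficient matrix of the logarithm of `G (c + π x) / G (c)` in the degree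
`d` has rank at least `1 / d` of the rank of the one of `f`, for generic `c`.
-/

set_option autoImplicit false
set_option linter.unusedSectionVars false

namespace Pool.XM

open Finset MvPolynomial

section em

variable {I J L : Type}

/-- the matrix of coefficients at given exponents -/
def em {A : Type} [Zero A] (D : I → J → Option (L →₀ ℕ)) (c : (L →₀ ℕ) → A) : Matrix I J A :=
  fun i j => (D i j).elim 0 c

theorem em_map {A A' : Type} [CommRing A] [CommRing A'] (f : A → A') (hf : f 0 = 0)
    (D : I → J → Option (L →₀ ℕ)) (c : (L →₀ ℕ) → A) : (em D c).map f = em D fun m => f (c m) := by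
  ext i j
  rw [Matrix.map_apply]
  unfold em
  rcases D i j with _ | m
  · exact hf
  · rfl

theorem em_congr {A : Type} [CommRing A] (D : I → J → Option (L →₀ ℕ)) {c c' : (L →₀ ℕ) → A}
    (h : ∀ i j m, D i j = some m → c m = c' m) : em D c = em D c' := by
  ext i j
  unfold em
  rcases hD : D i j with _ | m
  · rfl
  · exact h i j m hD

theorem em_smul {A : Type} [CommRing A] (D : I → J → Option (L →₀ ℕ)) (c : (L →₀ ℕ) → A) (x : A) :
    (em D fun m => x * c m) = x • em D c := by
  ext i j
  rw [Matrix.smul_apply, smul_eq_mul]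
  unfold em
  rcases D i j with _ | m
  · exact (mul_zero x).symm
  · rfl

end em

section sub

variable {F σ L : Type} [Field F] (π : σ → MvPolynomial L F)

/-- the substitution `X p ↦ y p + π p` -/
noncomputable def subP {A : Type} [CommRing A] [Algebra F A] (y : σ → A) :
    MvPolynomial σ F →ₐ[F] MvPolynomial L A :=
  aeval fun p => C (y p) + map (algebraMap F A) (π p)

theorem subP_X {A : Type} [CommRing A] [Algebra F A] (y : σ → A) (p : σ) :
    subP π y (X p) = C (y p) + map (algebraMap F A) (π p) := by
  unfold subP
  rw [aeval_X]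

theorem subP_C {A : Type} [CommRing A] [Algebra F A] (y : σ → A) (x : F) :
    subP π y (C x) = C (algebraMap F A x) := by
  unfold subP
  rw [aeval_C]
  rfl

theorem map_subP {A A' : Type} [CommRing A] [Algebra F A] [CommRing A'] [Algebra F A']
    (f : A →+* A') (hf : ∀ x : F, f (algebraMap F A x) = algebraMap F A' x) (y : σ → A)
    (G : MvPolynomial σ F) : map f (subP π y G) = subP π (fun p => f (y p)) G := by
  induction G using MvPolynomial.induction_on with
  | C x => rw [subP_C, subP_C, map_C, hf]
  | add G H hG hH => rw [map_add, map_add, map_add, hG, hH]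
  | mul_X G p hG =>
    rw [map_mul, map_mul, map_mul, hG, subP_X, subP_X, map_add, map_C, MvPolynomial.map_map]
    have h1 : f.comp (algebraMap F A) = algebraMap F A' := RingHom.ext hf
    rw [h1]

theorem constantCoeff_subP (hπ : ∀ p, constantCoeff (π p) = 0) {A : Type} [CommRing A]
    [Algebra F A] (y : σ → A) (G : MvPolynomial σ F) :
    constantCoeff (subP π y G) = aeval y G := by
  induction G using MvPolynomial.induction_on with
  | C x => rw [subP_C, constantCoeff_C, aeval_C]
  | add G H hG hH => rw [map_add, map_add, map_add, hG, hH]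
  | mul_X G p hG =>
    rw [map_mul, map_mul, map_mul, hG, subP_X, map_add, constantCoeff_C, constantCoeff_map, hπ,
      map_zero, add_zero, aeval_X]

/-- the coefficients of the logarithm of `G (y + π x)`, cleared of denominators -/
noncomputable def lgc {A : Type} [CommRing A] [Algebra F A] (d : ℕ) (y : σ → A)
    (G : MvPolynomial σ F) (m : L →₀ ℕ) : A :=
  coeff m (lgg (F := F) d (subP π y G) (C (aeval y G)))

theorem map_lgc {A A' : Type} [CommRing A] [Algebra F A] [CommRing A'] [Algebra F A']
    (f : A →+* A') (hf : ∀ x : F, f (algebraMap F A x) = algebraMap F A' x) (d : ℕ) (y : σ → A)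
    (G : MvPolynomial σ F) (m : L →₀ ℕ) :
    f (lgc π d y G m) = lgc π d (fun p => f (y p)) G m := by
  unfold lgc
  rw [← coeff_map, map_lgg' (F := F) (map f), map_subP π f hf, map_C]
  · congr 3
    let f' : A →ₐ[F] A' := { f with commutes' := hf }
    have h1 := MvPolynomial.map_aeval (B := A') y f'.toRingHom G
    have h2 : aeval (fun p => f (y p)) G = f' (aeval y G) := by
      rw [← AlgHom.comp_apply, comp_aeval]
      rfl
    rw [h2]
    rfl
  · intro x
    rw [MvPolynomial.algebraMap_apply, MvPolynomial.algebraMap_apply, map_C, hf]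

end sub

section gen

variable {F : Type} [Field F] [CharZero F] {σ L : Type}

/-- **the rank at the generic point of the hypersurface** -/
theorem gen_rank_ps {I J : Type} [Fintype I] [Fintype J] (P : MvPolynomial σ F) (q : σ)
    [DecidableEq σ]
    (π : σ → MvPolynomial L F) (hπ : ∀ p, constantCoeff (π p) = 0)
    (a : MvPolynomial σ F)
    (haff : ∀ (A : Type) [CommRing A] [Algebra F A] (y : σ → A) (t : A),
      aeval (fun p => y p + if p = q then t else 0) P = aeval y P + t * aeval y a)
    (C0 : σ → F) (f : MvPolynomial L F) (hU : subP π C0 P = f) (hA : subP π C0 a = 1)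
    (d : ℕ) (hd : 1 ≤ d) (D : I → J → Option (L →₀ ℕ))
    (hD : ∀ i j m, D i j = some m → Finsupp.degree m = d)
    {R : Type} [CommRing R] [IsDomain R] [Algebra F R] (c : σ → R) (hcP : aeval c P = 0)
    (ev : R →ₐ[F] F) (hev : ∀ p, ev (c p) = C0 p) (e : ℕ) (H : MvPolynomial σ F)
    (hH : aeval c H ≠ 0) :
    (em D fun m => coeff m f).rank ≤ d * (em D fun m =>
      algebraMap (PowerSeries (FractionRing R)) (FractionRing (PowerSeries (FractionRing R)))
        (lgc π d (fun p => PowerSeries.C (algebraMap R (FractionRing R) (c p)) +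
          if p = q then PowerSeries.X else 0) (P ^ (e + 1) * H) m)).rank := by
  classical
  let E := FractionRing R
  let iR : R →+* E := algebraMap R E
  have hiR : Function.Injective iR := IsFractionRing.injective R E
  let cE : σ → E := fun p => iR (c p)
  let jj : PowerSeries E →+* FractionRing (PowerSeries E) := algebraMap _ _
  have hjj : Function.Injective jj := IsFractionRing.injective _ _
  let b : σ → PowerSeries E := fun p => PowerSeries.C (cE p) + if p = q then PowerSeries.X else 0
  set G := P ^ (e + 1) * H with hG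
  have hiRF : ∀ x : F, iR (algebraMap F R x) = algebraMap F E x := fun x =>
    (IsScalarTower.algebraMap_apply F R E x).symm
  have hCF : ∀ x : F, (PowerSeries.C (R := E)) (algebraMap F E x) = algebraMap F (PowerSeries E) x :=
    fun x => by rw [PowerSeries.algebraMap_apply]
  -- the values at the generic point
  let iRa : R →ₐ[F] E := { iR with commutes' := hiRF }
  have hval : ∀ Q : MvPolynomial σ F, aeval cE Q = iR (aeval c Q) := by
    intro Q
    have h1 : (aeval cE : MvPolynomial σ F →ₐ[F] E) = iRa.comp (aeval c) := by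
      rw [comp_aeval]
      rfl
    rw [h1]
    rfl
  have hcE : aeval cE P = 0 := by rw [hval, hcP, map_zero]
  have hf0 : constantCoeff f = 0 := by
    rw [← hU, constantCoeff_subP π hπ]
    have h1 : aeval C0 P = ev (aeval c P) := by
      rw [← AlgHom.comp_apply, comp_aeval]
      congr 2
      funext p
      exact (hev p).symm
    rw [h1, hcP, map_zero]
  have ha0R : aeval c a ≠ 0 := by
    intro h0
    have h1 : constantCoeff (subP π C0 a) = 1 := by rw [hA, map_one]
    rw [constantCoeff_subP π hπ] at h1
    have h2 : aeval C0 a = ev (aeval c a) := by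
      rw [← AlgHom.comp_apply, comp_aeval]
      congr 2
      funext p
      exact (hev p).symm
    rw [h2, h0, map_zero] at h1
    exact zero_ne_one h1
  have ha0 : aeval cE a ≠ 0 := by
    rw [hval]
    exact fun h0 => ha0R (hiR (by rw [h0, map_zero]))
  have hH0 : aeval cE H ≠ 0 := by
    rw [hval]
    exact fun h0 => hH (hiR (by rw [h0, map_zero]))
  -- the power series
  let up : MvPolynomial L E := subP π cE P
  let ap : MvPolynomial L E := subP π cE a
  let u : MvPowerSeries L E := (up : MvPowerSeries L E)
  let aa : MvPowerSeries L E := (ap : MvPowerSeries L E)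
  have hu0 : MvPowerSeries.constantCoeff u = 0 := by
    have h1 := constantCoeff_subP π hπ cE P
    rw [hcE] at h1
    rw [← MvPowerSeries.coeff_zero_eq_constantCoeff_apply, MvPolynomial.coeff_coe]
    exact h1
  have haa : MvPowerSeries.constantCoeff aa = aeval cE a := by
    have h1 := constantCoeff_subP π hπ cE a
    rw [← MvPowerSeries.coeff_zero_eq_constantCoeff_apply, MvPolynomial.coeff_coe]
    exact h1
  have haa0 : MvPowerSeries.constantCoeff aa ≠ 0 := by rw [haa]; exact ha0
  set w : MvPowerSeries L E := u * aa⁻¹ with hw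
  have hwa : w * aa = u := by
    rw [hw, mul_assoc, mul_comm aa⁻¹, MvPowerSeries.mul_inv_cancel aa haa0, mul_one]
  let h : MvPowerSeries L (PowerSeries E) := (subP π b H : MvPolynomial L (PowerSeries E))
  let g : MvPowerSeries L (PowerSeries E) := (subP π b G : MvPolynomial L (PowerSeries E))
  have hg0 : MvPowerSeries.constantCoeff g = aeval b G := by
    rw [← MvPowerSeries.coeff_zero_eq_constantCoeff_apply, MvPolynomial.coeff_coe]
    exact constantCoeff_subP π hπ b G
  have hb0 : ∀ Q : MvPolynomial σ F, PowerSeries.constantCoeff (aeval b Q) = aeval cE Q := by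
    intro Q
    let kk : PowerSeries E →ₐ[F] E := { PowerSeries.constantCoeff with
      commutes' := fun x => by
        show PowerSeries.constantCoeff (algebraMap F (PowerSeries E) x) = _
        rw [PowerSeries.algebraMap_apply, PowerSeries.constantCoeff_C] }
    have h1 : (aeval cE : MvPolynomial σ F →ₐ[F] E) = kk.comp (aeval b) := by
      rw [comp_aeval]
      congr 1
      funext p
      show cE p = PowerSeries.constantCoeff (PowerSeries.C (cE p) + if p = q then PowerSeries.X else 0)
      rw [map_add, PowerSeries.constantCoeff_C]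
      split_ifs
      · rw [PowerSeries.constantCoeff_X, add_zero]
      · rw [map_zero, add_zero]
    rw [h1]
    rfl
  have hh0 : MvPowerSeries.constantCoeff h = aeval b H := by
    rw [← MvPowerSeries.coeff_zero_eq_constantCoeff_apply, MvPolynomial.coeff_coe]
    exact constantCoeff_subP π hπ b H
  have hh : PowerSeries.constantCoeff (MvPowerSeries.constantCoeff h) ≠ 0 := by
    rw [hh0, hb0]
    exact hH0
  have hcm : ∀ Q : MvPolynomial L E, ((MvPolynomial.map (PowerSeries.C (R := E)) Q :
      MvPolynomial L (PowerSeries E)) : MvPowerSeries L (PowerSeries E)) =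
      MvPowerSeries.map (PowerSeries.C (R := E)) (Q : MvPowerSeries L E) := by
    intro Q
    ext m
    rw [MvPolynomial.coeff_coe, MvPolynomial.coeff_map, MvPowerSeries.coeff_map,
      MvPolynomial.coeff_coe]
  have hgg : g = (MvPowerSeries.map (PowerSeries.C (R := E)) u + MvPowerSeries.C PowerSeries.X *
      MvPowerSeries.map (PowerSeries.C (R := E)) aa) ^ (e + 1) * h := by
    have h1 : subP π b P = MvPolynomial.map (PowerSeries.C (R := E)) up +
        C PowerSeries.X * MvPolynomial.map (PowerSeries.C (R := E)) ap := by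
      have h2 := haff (MvPolynomial L (PowerSeries E))
        (fun p => C (PowerSeries.C (cE p)) + MvPolynomial.map (algebraMap F (PowerSeries E)) (π p))
        (C PowerSeries.X)
      have h3 : (fun p => C (PowerSeries.C (cE p)) +
          MvPolynomial.map (algebraMap F (PowerSeries E)) (π p) +
          if p = q then (C PowerSeries.X : MvPolynomial L (PowerSeries E)) else 0) =
          fun p => C (b p) + MvPolynomial.map (algebraMap F (PowerSeries E)) (π p) := by
        funext p
        show _ = C (PowerSeries.C (cE p) + if p = q then PowerSeries.X else 0) + _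
        rw [C_add]
        split_ifs
        · ring
        · rw [C_0]
          ring
      rw [h3] at h2
      have h4 : ∀ Q : MvPolynomial σ F, aeval (fun p => C (PowerSeries.C (cE p)) +
          MvPolynomial.map (algebraMap F (PowerSeries E)) (π p)) Q =
          MvPolynomial.map (PowerSeries.C (R := E)) (subP π cE Q) := by
        intro Q
        rw [map_subP π _ hCF]
        rfl
      rw [h4, h4] at h2
      exact h2
    show ((subP π b G : MvPolynomial L (PowerSeries E)) : MvPowerSeries L (PowerSeries E)) = _
    rw [hG, map_mul, map_pow, h1, MvPolynomial.coe_mul, MvPolynomial.coe_pow, MvPolynomial.coe_add,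
      MvPolynomial.coe_mul, MvPolynomial.coe_C, hcm, hcm]
  have hgne : MvPowerSeries.constantCoeff g ≠ 0 := by
    rw [hgg, map_mul, map_pow, map_add, map_mul, MvPowerSeries.constantCoeff_C,
      MvPowerSeries.constantCoeff_map, MvPowerSeries.constantCoeff_map, hu0, map_zero, zero_add]
    refine mul_ne_zero (pow_ne_zero _ (mul_ne_zero PowerSeries.X_ne_zero ?_)) ?_
    · exact fun h0 => haa0 (PowerSeries.C_injective (by rw [h0, map_zero]))
    · exact fun h0 => hh (by rw [h0, map_zero])
  obtain ⟨N, hN⟩ := residue (F := F) d hd e aa u w haa0 hu0 hwa h hh g hgg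
  -- the matrices
  have hlgc : ∀ m, lgc π d b G m = MvPowerSeries.coeff m (lgg (F := F) d g
      (MvPowerSeries.C (σ := L) (MvPowerSeries.constantCoeff g))) := by
    intro m
    unfold lgc
    rw [← MvPolynomial.coeff_coe, hg0]
    congr 1
    have h1 := map_lgg' (F := F) (MvPolynomial.coeToMvPowerSeries.ringHom (σ := L)
      (R := PowerSeries E)) (fun x => by
        rw [MvPolynomial.coeToMvPowerSeries.ringHom_apply, MvPolynomial.algebraMap_apply,
          MvPolynomial.coe_C, algebraMap_mvps (L := L) (A := PowerSeries E)]) d (subP π b G)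
      (C (aeval b G))
    rw [MvPolynomial.coeToMvPowerSeries.ringHom_apply,
      MvPolynomial.coeToMvPowerSeries.ringHom_apply,
      MvPolynomial.coeToMvPowerSeries.ringHom_apply, MvPolynomial.coe_C] at h1
    exact h1
  have hd0 : ((d : ℕ) : FractionRing (PowerSeries E)) ≠ 0 := by
    have h1 : ((d : ℕ) : FractionRing (PowerSeries E)) = algebraMap F _ ((d : ℕ) : F) := by
      rw [map_natCast]
    rw [h1]
    intro h2
    have h3 := (algebraMap F (FractionRing (PowerSeries E))).injective (h2.trans (map_zero _).symm)
    exact absurd (Nat.cast_eq_zero.1 h3) (by omega)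
  have hX0 : jj PowerSeries.X ≠ 0 := fun h0 => PowerSeries.X_ne_zero (hjj (by rw [h0, map_zero]))
  have hG0 : jj (MvPowerSeries.constantCoeff g) ≠ 0 := fun h0 => hgne (hjj (by rw [h0, map_zero]))
  have hM : (jj PowerSeries.X ^ d * (d : FractionRing (PowerSeries E))) •
      (em D fun m => jj (lgc π d b G m)) =
      jj (MvPowerSeries.constantCoeff g) ^ d • (em D fun m => jj (N m)) := by
    rw [← em_smul, ← em_smul]
    refine em_congr D fun i j m hm => ?_
    have h1 := congrArg jj (hN m (hD i j m hm)).1
    rw [← hlgc, map_mul jj, map_pow jj, map_mul jj, map_natCast jj, map_mul jj, map_pow jj] at h1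
    rw [mul_assoc]
    exact h1
  have hrk : (em D fun m => jj (lgc π d b G m)).rank = (em D fun m => jj (N m)).rank := by
    have h1 := congrArg Matrix.rank hM
    rwa [rank_smul_ne (mul_ne_zero (pow_ne_zero _ hX0) hd0),
      rank_smul_ne (pow_ne_zero _ hG0)] at h1
  have hco := rank_coeff_gen jj hjj (em D N) (d - 1)
  rw [em_map jj (map_zero jj), em_map (PowerSeries.coeff (d - 1)) (map_zero _),
    Nat.sub_add_cancel hd, ← hrk] at hco
  have he0 : ((e : E) + 1) * (d : E) ≠ 0 := by
    have h1 : ((e : E) + 1) * (d : E) = algebraMap F E (((e + 1) * d : ℕ) : F) := by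
      rw [map_natCast]
      push_cast
      rfl
    rw [h1]
    intro h2
    have h3 := (algebraMap F E).injective (h2.trans (map_zero _).symm)
    have h4 := Nat.cast_eq_zero.1 h3
    have h5 : 0 < (e + 1) * d := Nat.mul_pos (by omega) hd
    omega
  have hcoe : (em D fun m => PowerSeries.coeff (d - 1) (N m)) =
      (((e : E) + 1) * (d : E)) • em D fun m => MvPowerSeries.coeff m w := by
    rw [← em_smul]
    refine em_congr D fun i j m hm => ?_
    rw [(hN m (hD i j m hm)).2]
    ring
  rw [hcoe, rank_smul_ne he0] at hco
  refine le_trans ?_ hco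
  -- the specialisation
  let Wh : MvPolynomial L R := subP π c P *
    ∑ k ∈ range (d + 1), (C (aeval c a) - subP π c a) ^ k * (C (aeval c a)) ^ (d + 1 - 1 - k)
  have hev0 : ∀ x : F, (ev : R →+* F) (algebraMap F R x) = algebraMap F F x := fun x => by
    show ev (algebraMap F R x) = _
    rw [AlgHom.commutes]
  have hC0 : (fun p => (ev : R →+* F) (c p)) = C0 := by
    funext p
    exact hev p
  have hevW : MvPolynomial.map (ev : R →+* F) Wh = f := by
    have h1 : (ev : R →+* F) (aeval c a) = 1 := by
      have h2 : constantCoeff (subP π C0 a) = 1 := by rw [hA, map_one]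
      rw [constantCoeff_subP π hπ] at h2
      rw [← h2]
      show ev (aeval c a) = _
      rw [← AlgHom.comp_apply, comp_aeval]
      congr 2
    show MvPolynomial.map (ev : R →+* F) (subP π c P * _) = f
    rw [map_mul, map_subP π _ hev0, hC0, hU, map_sum, sum_range_succ', sum_eq_zero]
    · rw [zero_add, map_mul, map_pow, pow_zero, one_mul, map_pow, map_C, h1, C_1, one_pow, mul_one]
    · intro k _
      rw [map_mul, map_pow, map_sub, map_C, map_subP π _ hev0, hC0, hA, h1, C_1, sub_self,
        zero_pow (Nat.succ_ne_zero k), zero_mul]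
  have hWE : ∀ m : L →₀ ℕ, Finsupp.degree m = d →
      iR (coeff m Wh) = (aeval cE a) ^ (d + 1) * MvPowerSeries.coeff m w := by
    intro m hm
    set ca : MvPowerSeries L E := MvPowerSeries.C (σ := L) (aeval cE a) with hca
    have h1 : ((MvPolynomial.map iR Wh : MvPolynomial L E) : MvPowerSeries L E) =
        u * ∑ k ∈ range (d + 1), (ca - aa) ^ k * ca ^ (d + 1 - 1 - k) := by
      have h2 : MvPolynomial.map iR Wh = up * ∑ k ∈ range (d + 1),
          (C (aeval cE a) - ap) ^ k * (C (aeval cE a)) ^ (d + 1 - 1 - k) := by
        show MvPolynomial.map iR (subP π c P * _) = _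
        rw [map_mul, map_subP π _ hiRF, map_sum, hval]
        congr 1
        refine sum_congr rfl fun k _ => ?_
        rw [map_mul, map_pow, map_sub, map_pow, map_C, map_subP π _ hiRF]
      rw [h2, MvPolynomial.coe_mul]
      congr 1
      have h3 := map_sum (MvPolynomial.coeToMvPowerSeries.ringHom (σ := L) (R := E))
        (fun k => (C (aeval cE a) - ap) ^ k * (C (aeval cE a)) ^ (d + 1 - 1 - k)) (range (d + 1))
      rw [MvPolynomial.coeToMvPowerSeries.ringHom_apply] at h3
      rw [h3]
      refine sum_congr rfl fun k _ => ?_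
      rw [map_mul, map_pow, map_sub, map_pow, MvPolynomial.coeToMvPowerSeries.ringHom_apply,
        MvPolynomial.coeToMvPowerSeries.ringHom_apply, MvPolynomial.coe_C]
    have h4 := (Commute.all (ca - aa) ca).geom_sum₂_mul (d + 1)
    have h5 : u * ∑ k ∈ range (d + 1), (ca - aa) ^ k * ca ^ (d + 1 - 1 - k) =
        ca ^ (d + 1) * w - (ca - aa) ^ (d + 1) * w := by
      rw [← hwa]
      linear_combination -w * h4
    have h6 : OrdM (d + 1) ((ca - aa) ^ (d + 1)) := by
      refine OrdM.pow ?_ (d + 1)
      rw [ordM_one_iff, map_sub, hca, MvPowerSeries.constantCoeff_C, haa, sub_self]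
    rw [← MvPolynomial.coeff_map, ← MvPolynomial.coeff_coe, h1, h5, map_sub,
      (h6.mul_right w) m (by omega), sub_zero, hca, ← map_pow, MvPowerSeries.coeff_C_mul]
  have h1 := rank_map_le (ev : R →+* F) iR hiR (em D fun m => coeff m Wh)
  rw [em_map (ev : R →+* F) (map_zero _), em_map iR (map_zero _)] at h1
  have h2 : (em D fun m => (ev : R →+* F) (coeff m Wh)) = em D fun m => coeff m f := by
    refine em_congr D fun i j m _ => ?_
    rw [← hevW, MvPolynomial.coeff_map]
  have h3 : (em D fun m => iR (coeff m Wh)) =
      (aeval cE a) ^ (d + 1) • em D fun m => MvPowerSeries.coeff m w := by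
    rw [← em_smul]
    exact em_congr D fun i j m hm => hWE m (hD i j m hm)
  rw [h2, h3, rank_smul_ne (pow_ne_zero _ ha0)] at h1
  exact h1

end gen

section top

variable {F : Type} [Field F] {σ L : Type}

/-- homogeneous polynomials at a multiple of a point -/
theorem aeval_smul_homog {S : Type} [CommRing S] [Algebra F S] (z : σ → S) (x : S) {j : ℕ}
    {Q : MvPolynomial σ F} (hQ : Q.IsHomogeneous j) :
    aeval (fun p => x * z p) Q = x ^ j * aeval z Q := by
  conv_lhs => rw [Q.as_sum]
  conv_rhs => rw [Q.as_sum]
  rw [map_sum, map_sum, mul_sum]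
  refine sum_congr rfl fun m hm => ?_
  have hd : m.degree = j := by
    have h := hQ (mem_support_iff.1 hm)
    have h2 := DFunLike.congr_fun (Finsupp.degree_eq_weight_one (R := ℕ) (σ := σ)) m
    exact h2.trans h
  rw [aeval_monomial, aeval_monomial, Finsupp.prod, Finsupp.prod,
    prod_congr rfl fun p _ => mul_pow x (z p) (m p), prod_mul_distrib, prod_pow_eq_pow_sum]
  have h3 : ∑ i ∈ m.support, m i = j := hd
  rw [h3]
  ring

/-- scaling of the letters -/
noncomputable def scl (s : F) : MvPolynomial L F →ₐ[F] MvPolynomial L F := aeval fun l => C s * X l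

theorem coeff_scl (s : F) (p : MvPolynomial L F) (m : L →₀ ℕ) :
    coeff m (scl s p) = s ^ (Finsupp.degree m) * coeff m p := by
  classical
  have h1 : ∀ i, scl s (homogeneousComponent i p) = C (s ^ i) * homogeneousComponent i p := by
    intro i
    unfold scl
    rw [aeval_smul_homog _ _ (homogeneousComponent_isHomogeneous i p), ← C_pow]
    congr 1
    exact aeval_X_left_apply _
  conv_lhs => rw [← sum_homogeneousComponent p, map_sum, coeff_sum]
  conv_rhs => rw [← sum_homogeneousComponent p, coeff_sum, mul_sum]
  refine sum_congr rfl fun i _ => ?_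
  rw [h1, coeff_C_mul, coeff_homogeneousComponent]
  split_ifs with h
  · rw [h]
  · rw [mul_zero, mul_zero]

theorem subP_scl (π : σ → MvPolynomial L F) (hπ : ∀ p, (π p).IsHomogeneous 1) (y : σ → F) {s : F}
    (hs : s ≠ 0) {j : ℕ} {Q : MvPolynomial σ F} (hQ : Q.IsHomogeneous j) :
    C (s ^ j) * subP π (fun p => s⁻¹ * y p) Q = scl s (subP π y Q) := by
  have h1 : scl s (subP π y Q) = aeval (fun p => C s * (C (s⁻¹ * y p) +
      MvPolynomial.map (algebraMap F F) (π p))) Q := by
    have h2 : (scl s).comp (subP π y) = aeval (fun p => C s * (C (s⁻¹ * y p) +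
      MvPolynomial.map (algebraMap F F) (π p))) := by
      apply MvPolynomial.algHom_ext
      intro p
      rw [AlgHom.comp_apply, subP_X, aeval_X, map_add]
      have h3 : scl s (C (y p) : MvPolynomial L F) = C (y p) := by
        unfold scl
        rw [aeval_C]
        rfl
      have h4 : scl s (MvPolynomial.map (algebraMap F F) (π p)) =
          C s * MvPolynomial.map (algebraMap F F) (π p) := by
        have h5 : (MvPolynomial.map (algebraMap F F) (π p)).IsHomogeneous 1 := by
          rw [Algebra.algebraMap_self, MvPolynomial.map_id]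
          exact hπ p
        unfold scl
        rw [aeval_smul_homog _ _ h5, pow_one]
        congr 1
        exact aeval_X_left_apply _
      rw [h3, h4, mul_add, ← C_mul, ← mul_assoc, mul_inv_cancel₀ hs, one_mul]
    rw [← h2]
    rfl
  rw [h1, aeval_smul_homog _ _ hQ, C_pow]
  rfl

theorem lgg_smul {S : Type} [CommRing S] [Algebra F S] (d : ℕ) (x g a : S) :
    lgg (F := F) d (x * g) (x * a) = x ^ d * lgg (F := F) d g a := by
  unfold lgg
  rw [mul_sum]
  refine sum_congr rfl fun t ht => ?_
  have h1 : d = (t + 1) + (d - 1 - t) := by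
    have := mem_range.1 ht
    omega
  conv_rhs => rw [h1]
  rw [← mul_sub, mul_pow, mul_pow, pow_add]
  have h2 : t + 1 + (d - 1 - t) - 1 - t = d - 1 - t := by omega
  rw [h2]
  ring

/-- **from the form of top degree to the polynomial**: a point where the rank is large -/
theorem exists_point_top [Infinite F] {I J : Type} [Fintype I] [Fintype J]
    (π : σ → MvPolynomial L F) (hπ : ∀ p, (π p).IsHomogeneous 1) (d : ℕ)
    (D : I → J → Option (L →₀ ℕ)) (hD : ∀ i j m, D i j = some m → Finsupp.degree m = d)
    (G : MvPolynomial σ F) (y : σ → F) :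
    ∃ y' : σ → F, (em D (lgc π d y (homogeneousComponent G.totalDegree G))).rank ≤
      (em D (lgc π d y' G)).rank := by
  classical
  have hπ0 : ∀ p, constantCoeff (π p) = 0 := by
    intro p
    have h1 := (hπ p).coeff_eq_zero (d := 0) (by rw [map_zero]; exact zero_ne_one)
    exact h1
  set n := G.totalDegree with hn
  let A := Polynomial F
  let Γ : MvPolynomial L A := ∑ j ∈ range (n + 1), C (Polynomial.X ^ (n - j)) *
    MvPolynomial.map (Polynomial.C) (subP π y (homogeneousComponent j G))
  let a : A := ∑ j ∈ range (n + 1), Polynomial.X ^ (n - j) *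
    Polynomial.C (aeval y (homogeneousComponent j G))
  let N : Matrix I J A := em D fun m => coeff m (lgg (F := F) d Γ (C a))
  have hevF : ∀ s x : F, Polynomial.evalRingHom s (algebraMap F A x) = algebraMap F F x := by
    intro s x
    show Polynomial.eval s (Polynomial.C x) = x
    rw [Polynomial.eval_C]
  let Γs : F → MvPolynomial L F := fun s => ∑ j ∈ range (n + 1), C (s ^ (n - j)) *
    subP π y (homogeneousComponent j G)
  let as : F → F := fun s => ∑ j ∈ range (n + 1), s ^ (n - j) * aeval y (homogeneousComponent j G)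
  have hcomp : ∀ s : F, (Polynomial.evalRingHom s).comp Polynomial.C = RingHom.id F := by
    intro s
    ext x
    simp
  have hΓ : ∀ s : F, MvPolynomial.map (Polynomial.evalRingHom s) Γ = Γs s := by
    intro s
    show MvPolynomial.map (Polynomial.evalRingHom s) (∑ j ∈ range (n + 1), _) = _
    rw [map_sum]
    refine sum_congr rfl fun j _ => ?_
    rw [map_mul, map_C, MvPolynomial.map_map, hcomp, MvPolynomial.map_id, map_pow]
    congr 2
    show Polynomial.eval s Polynomial.X ^ _ = _
    rw [Polynomial.eval_X]
  have has : ∀ s : F, Polynomial.evalRingHom s a = as s := by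
    intro s
    show Polynomial.evalRingHom s (∑ j ∈ range (n + 1), _) = _
    rw [map_sum]
    refine sum_congr rfl fun j _ => ?_
    rw [map_mul, map_pow]
    show Polynomial.eval s Polynomial.X ^ _ * Polynomial.eval s (Polynomial.C _) = _
    rw [Polynomial.eval_X, Polynomial.eval_C]
  have hN : ∀ s : F, N.map (Polynomial.evalRingHom s) =
      em D fun m => coeff m (lgg (F := F) d (Γs s) (C (as s))) := by
    intro s
    show (em D fun m => coeff m (lgg (F := F) d Γ (C a))).map (Polynomial.evalRingHom s) = _
    rw [em_map (Polynomial.evalRingHom s) (map_zero _)]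
    refine em_congr D fun i j m _ => ?_
    rw [← coeff_map, map_lgg' (F := F) (MvPolynomial.map (Polynomial.evalRingHom s)), hΓ, map_C,
      has]
    intro x
    rw [MvPolynomial.algebraMap_apply, MvPolynomial.algebraMap_apply, map_C, hevF]
  have hz : ∀ f : ℕ → MvPolynomial L F, ∑ j ∈ range (n + 1), C ((0 : F) ^ (n - j)) * f j = f n := by
    intro f
    rw [sum_range_succ, Nat.sub_self, pow_zero, C_1, one_mul, sum_eq_zero, zero_add]
    intro j hj
    have := mem_range.1 hj
    rw [zero_pow (by omega), C_0, zero_mul]
  have hz' : ∀ f : ℕ → F, ∑ j ∈ range (n + 1), (0 : F) ^ (n - j) * f j = f n := by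
    intro f
    rw [sum_range_succ, Nat.sub_self, pow_zero, one_mul, sum_eq_zero, zero_add]
    intro j hj
    have := mem_range.1 hj
    rw [zero_pow (by omega), zero_mul]
  have h0 : N.map (Polynomial.evalRingHom 0) = em D (lgc π d y (homogeneousComponent n G)) := by
    rw [hN]
    show (em D fun m => coeff m (lgg (F := F) d (∑ j ∈ range (n + 1), C ((0 : F) ^ (n - j)) *
      subP π y (homogeneousComponent j G)) (C (∑ j ∈ range (n + 1), (0 : F) ^ (n - j) *
        aeval y (homogeneousComponent j G))))) = _
    rw [hz, hz']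
    rfl
  -- a nonzero value of the parameter
  obtain ⟨I', J', hdet⟩ := Pool.XD.exists_minor (N.map (Polynomial.evalRingHom 0)) rfl
  have h1 : (N.map (Polynomial.evalRingHom 0)).submatrix I' J' =
      (Polynomial.evalRingHom (0 : F)).mapMatrix (N.submatrix I' J') := rfl
  rw [h1, ← RingHom.map_det] at hdet
  have hne : (N.submatrix I' J').det * Polynomial.X ≠ 0 :=
    mul_ne_zero (fun h => hdet (by rw [h, map_zero])) Polynomial.X_ne_zero
  obtain ⟨s, hs⟩ : ∃ s : F, Polynomial.eval s ((N.submatrix I' J').det * Polynomial.X) ≠ 0 := by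
    by_contra hcon
    push Not at hcon
    exact hne (Polynomial.funext fun s => by rw [hcon, Polynomial.eval_zero])
  rw [Polynomial.eval_mul, Polynomial.eval_X] at hs
  have hs0 : s ≠ 0 := right_ne_zero_of_mul hs
  have hs1 : Polynomial.evalRingHom s (N.submatrix I' J').det ≠ 0 := left_ne_zero_of_mul hs
  rw [RingHom.map_det] at hs1
  have h2 : (N.map (Polynomial.evalRingHom 0)).rank ≤ (N.map (Polynomial.evalRingHom s)).rank :=
    Pool.XD.le_rank_of_minor (N.map (Polynomial.evalRingHom s)) I' J' hs1
  refine ⟨fun p => s⁻¹ * y p, ?_⟩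
  rw [h0] at h2
  refine h2.trans (le_of_eq ?_)
  rw [hN]
  -- the scaling
  have hΓs : C (s ^ n) * subP π (fun p => s⁻¹ * y p) G = scl s (Γs s) := by
    show _ = scl s (∑ j ∈ range (n + 1), C (s ^ (n - j)) * subP π y (homogeneousComponent j G))
    conv_lhs => rw [← sum_homogeneousComponent G, map_sum, mul_sum]
    rw [map_sum]
    refine sum_congr rfl fun j hj => ?_
    have hj' := mem_range.1 hj
    rw [map_mul, ← subP_scl π hπ y hs0 (homogeneousComponent_isHomogeneous j G), ← mul_assoc]
    have h3 : scl s (C (s ^ (n - j)) : MvPolynomial L F) = C (s ^ (n - j)) := by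
      unfold scl
      rw [aeval_C]
      rfl
    rw [h3, ← C_mul, ← pow_add, Nat.sub_add_cancel (by omega)]
  have hcs : ∀ p : MvPolynomial L F, constantCoeff (scl s p) = constantCoeff p := by
    intro p
    have h3 := coeff_scl s p 0
    rw [map_zero, pow_zero, one_mul] at h3
    exact h3
  have hass : s ^ n * aeval (fun p => s⁻¹ * y p) G = as s := by
    have h3 := congrArg constantCoeff hΓs
    rw [map_mul, constantCoeff_C, constantCoeff_subP π hπ0, hcs] at h3
    rw [h3]
    show constantCoeff (∑ j ∈ range (n + 1), C (s ^ (n - j)) *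
      subP π y (homogeneousComponent j G)) = _
    rw [map_sum]
    refine sum_congr rfl fun j _ => ?_
    rw [map_mul, constantCoeff_C, constantCoeff_subP π hπ0]
  have h3 : ∀ m : L →₀ ℕ, Finsupp.degree m = d → s ^ d * coeff m (lgg (F := F) d (Γs s) (C (as s))) =
      (s ^ n) ^ d * lgc π d (fun p => s⁻¹ * y p) G m := by
    intro m hm
    rw [← hm, ← coeff_scl, hm, map_lgg (F := F) (scl s), ← hΓs]
    have h4 : scl s (C (as s) : MvPolynomial L F) = C (s ^ n) * C (aeval (fun p => s⁻¹ * y p) G) := by
      unfold scl
      rw [aeval_C, ← C_mul, hass]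
      rfl
    rw [h4, lgg_smul, ← C_pow, coeff_C_mul]
    rfl
  have h4 : s ^ d • (em D fun m => coeff m (lgg (F := F) d (Γs s) (C (as s)))) =
      (s ^ n) ^ d • em D (lgc π d (fun p => s⁻¹ * y p) G) := by
    rw [← em_smul, ← em_smul]
    exact em_congr D fun i j m hm => h3 m (hD i j m hm)
  have h5 := congrArg Matrix.rank h4
  rwa [rank_smul_ne (pow_ne_zero _ hs0), rank_smul_ne (pow_ne_zero _ (pow_ne_zero _ hs0))] at h5

end top

section main

variable {F : Type} [Field F] [CharZero F] {σ L : Type}

/-- **the generic rank** -/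
theorem gen_rank {I J : Type} [Fintype I] [Fintype J] [DecidableEq σ] (P : MvPolynomial σ F)
    (hP : Prime P) (q : σ) (π : σ → MvPolynomial L F) (hπ : ∀ p, (π p).IsHomogeneous 1)
    (a : MvPolynomial σ F)
    (haff : ∀ (A : Type) [CommRing A] [Algebra F A] (y : σ → A) (t : A),
      aeval (fun p => y p + if p = q then t else 0) P = aeval y P + t * aeval y a)
    (C0 : σ → F) (hC0 : eval C0 P = 0) (f : MvPolynomial L F) (hU : subP π C0 P = f)
    (hA : subP π C0 a = 1) (d : ℕ) (hd : 1 ≤ d) (D : I → J → Option (L →₀ ℕ))
    (hD : ∀ i j m, D i j = some m → Finsupp.degree m = d) (G : MvPolynomial σ F) (hG : G ≠ 0)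
    (hPG : P ∣ homogeneousComponent G.totalDegree G) :
    ∃ V : MvPolynomial σ F, V ≠ 0 ∧ ∀ c : σ → F, eval c V ≠ 0 → eval c G ≠ 0 ∧
      (em D fun m => coeff m f).rank ≤ d * (em D (lgc π d c G)).rank := by
  classical
  have hinf : Infinite F := by infer_instance
  have hπ0 : ∀ p, constantCoeff (π p) = 0 := by
    intro p
    exact (hπ p).coeff_eq_zero (d := 0) (by rw [map_zero]; exact zero_ne_one)
  set G1 := homogeneousComponent G.totalDegree G with hG1
  have hG10 : G1 ≠ 0 := by
    intro h
    have hne : G.support.Nonempty := support_nonempty.mpr hG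
    obtain ⟨u, hu, hmax⟩ := Finset.exists_mem_eq_sup G.support hne fun u => u.sum fun _ e => e
    have h1 : u.degree = G.totalDegree := hmax.symm
    have h2 := congrArg (coeff u) h
    rw [hG1, coeff_homogeneousComponent, if_pos h1, coeff_zero] at h2
    exact (mem_support_iff.mp hu) h2
  obtain ⟨e, H, hGH, hH⟩ := exists_mult hP hG10 hPG
  obtain ⟨R, _, _, _, c, hc, hev⟩ := exists_generic P hP
  obtain ⟨ev, hev'⟩ := hev C0 hC0
  have h1 := gen_rank_ps P q π hπ0 a haff C0 f hU hA d hd D hD c ((hc P).2 dvd_rfl) ev hev' e H
    (fun h => hH ((hc H).1 h))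
  rw [← hGH] at h1
  -- the matrix over the polynomials
  have hmapX : ∀ (Q : MvPolynomial σ F) {A : Type} [CommRing A] [Algebra F A] (y : σ → A),
      (em D (lgc π d (X : σ → MvPolynomial σ F) Q)).map (aeval y : MvPolynomial σ F →ₐ[F] A) =
        em D (lgc π d y Q) := by
    intro Q A _ _ y
    rw [em_map _ (map_zero _)]
    refine em_congr D fun i j m _ => ?_
    have h2 := map_lgc π (aeval y : MvPolynomial σ F →ₐ[F] A).toRingHom (fun x => by
      show aeval y (algebraMap F (MvPolynomial σ F) x) = _
      rw [AlgHom.commutes]) d X Q m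
    refine Eq.trans h2 ?_
    congr 1
    funext p
    exact aeval_X y p
  obtain ⟨V1, hV1, hV1'⟩ := exists_V
    ((algebraMap (PowerSeries (FractionRing R)) (FractionRing (PowerSeries (FractionRing R)))).comp
      (aeval (fun p => PowerSeries.C (algebraMap R (FractionRing R) (c p)) +
          if p = q then PowerSeries.X else 0) :
        MvPolynomial σ F →ₐ[F] PowerSeries (FractionRing R)).toRingHom)
    (em D (lgc π d (X : σ → MvPolynomial σ F) G1))
  obtain ⟨y, hy⟩ : ∃ y : σ → F, eval y V1 ≠ 0 := by
    by_contra hcon
    push Not at hcon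
    exact hV1 (MvPolynomial.funext fun y => by rw [hcon, map_zero])
  have h2 := hV1' y hy
  have h3 : (em D (lgc π d (X : σ → MvPolynomial σ F) G1)).map (eval y) = em D (lgc π d y G1) := by
    have h4 := hmapX G1 y
    rw [← h4]
    rfl
  rw [h3] at h2
  obtain ⟨y', hy'⟩ := exists_point_top π hπ d D hD G y
  obtain ⟨V2, hV2, hV2'⟩ := exists_V (eval y') (em D (lgc π d (X : σ → MvPolynomial σ F) G))
  have h5 : ∀ z : σ → F, (em D (lgc π d (X : σ → MvPolynomial σ F) G)).map (eval z) =
      em D (lgc π d z G) := by
    intro z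
    have h4 := hmapX G z
    rw [← h4]
    rfl
  refine ⟨V2 * G, mul_ne_zero hV2 hG, fun z hz => ?_⟩
  rw [map_mul] at hz
  refine ⟨right_ne_zero_of_mul hz, ?_⟩
  have h6 := hV2' z (left_ne_zero_of_mul hz)
  rw [h5, h5] at h6
  refine h1.trans (Nat.mul_le_mul_left d ?_)
  refine le_trans (le_of_eq ?_) (h2.trans (hy'.trans h6))
  congr 1
  have h7 := hmapX G1 (fun p => PowerSeries.C (algebraMap R (FractionRing R) (c p)) +
          if p = q then PowerSeries.X else 0)
  rw [← em_map (algebraMap (PowerSeries (FractionRing R))
    (FractionRing (PowerSeries (FractionRing R)))) (map_zero _)]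
  rw [show (em D fun m => lgc π d (fun p => PowerSeries.C (algebraMap R (FractionRing R) (c p)) +
          if p = q then PowerSeries.X else 0) G1 m) = _ from h7.symm]
  rw [Matrix.map_map]
  rfl

end main

end Pool.XM
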