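import Mathlib

/-!
# Logarithmic derivatives of power series and the residue at the generic point

* `dt`: the Euler operator on power series in the letters `L`;
* `lgg d g a`: `a ^ d` times the truncated logarithm of `g / a`;
* `residue`: for `g = (u + τ a) ^ (e + 1) * h` the coefficient of `τ ^ (d - 1)` of
  `τ ^ d *` (logarithmic derivative of `g`) is `(e + 1) * d` times the part of degree `d` of `u / a`.
-/

set_option autoImplicit false
set_option linter.unusedSectionVars false

namespace Pool.XM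

open Finset

section euler

variable {L A : Type} [CommRing A]

/-- the Euler operator -/
noncomputable def dt (F : MvPowerSeries L A) : MvPowerSeries L A :=
  fun δ => ((Finsupp.degree δ : ℕ) : A) * MvPowerSeries.coeff δ F

theorem coeff_dt (F : MvPowerSeries L A) (δ : L →₀ ℕ) :
    MvPowerSeries.coeff δ (dt F) = ((Finsupp.degree δ : ℕ) : A) * MvPowerSeries.coeff δ F := rfl

theorem dt_mul (F G : MvPowerSeries L A) : dt (F * G) = dt F * G + F * dt G := by
  classical
  ext δ
  rw [coeff_dt, map_add, MvPowerSeries.coeff_mul, MvPowerSeries.coeff_mul,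
    MvPowerSeries.coeff_mul, mul_sum, ← sum_add_distrib]
  refine sum_congr rfl fun p hp => ?_
  have h1 : Finsupp.degree δ = Finsupp.degree p.1 + Finsupp.degree p.2 := by
    rw [← mem_antidiagonal.1 hp, map_add]
  rw [h1, coeff_dt, coeff_dt]
  push_cast
  ring

theorem dt_add (F G : MvPowerSeries L A) : dt (F + G) = dt F + dt G := by
  ext δ
  rw [map_add, coeff_dt, coeff_dt, coeff_dt, map_add, mul_add]

theorem dt_C (a : A) : dt (MvPowerSeries.C (σ := L) a) = 0 := by
  classical
  ext δ
  rw [coeff_dt, MvPowerSeries.coeff_C, map_zero]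
  split_ifs with h
  · rw [h, map_zero, Nat.cast_zero, zero_mul]
  · rw [mul_zero]

theorem dt_sub (F G : MvPowerSeries L A) : dt (F - G) = dt F - dt G := by
  ext δ
  rw [map_sub, coeff_dt, coeff_dt, coeff_dt, map_sub, mul_sub]

theorem dt_sum {ι : Type} (s : Finset ι) (F : ι → MvPowerSeries L A) :
    dt (∑ i ∈ s, F i) = ∑ i ∈ s, dt (F i) := by
  ext δ
  rw [map_sum, coeff_dt, map_sum, mul_sum]
  exact sum_congr rfl fun i _ => rfl

theorem dt_pow (F : MvPowerSeries L A) (t : ℕ) :
    dt (F ^ (t + 1)) = ((t : MvPowerSeries L A) + 1) * F ^ t * dt F := by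
  induction t with
  | zero => simp
  | succ t ih =>
    rw [pow_succ, dt_mul, ih]
    push_cast
    ring

theorem dt_map {A' : Type} [CommRing A'] (f : A →+* A') (F : MvPowerSeries L A) :
    dt (MvPowerSeries.map f F) = MvPowerSeries.map f (dt F) := by
  ext δ
  rw [coeff_dt, MvPowerSeries.coeff_map, MvPowerSeries.coeff_map, coeff_dt, map_mul, map_natCast]

/-- all coefficients of degree less than `n` vanish -/
def OrdM (n : ℕ) (F : MvPowerSeries L A) : Prop :=
  ∀ δ : L →₀ ℕ, Finsupp.degree δ < n → MvPowerSeries.coeff δ F = 0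

theorem OrdM.any (F : MvPowerSeries L A) : OrdM 0 F := fun _ h => absurd h (Nat.not_lt_zero _)

theorem OrdM.mul {m n : ℕ} {F G : MvPowerSeries L A} (hF : OrdM m F) (hG : OrdM n G) :
    OrdM (m + n) (F * G) := by
  classical
  intro δ hδ
  rw [MvPowerSeries.coeff_mul]
  refine sum_eq_zero fun p hp => ?_
  have h1 : Finsupp.degree δ = Finsupp.degree p.1 + Finsupp.degree p.2 := by
    rw [← mem_antidiagonal.1 hp, map_add]
  by_cases h : Finsupp.degree p.1 < m
  · rw [hF _ h, zero_mul]
  · rw [hG _ (by omega), mul_zero]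

theorem OrdM.mul_right {n : ℕ} {F : MvPowerSeries L A} (hF : OrdM n F) (G : MvPowerSeries L A) :
    OrdM n (F * G) := hF.mul (OrdM.any G)

theorem OrdM.pow {F : MvPowerSeries L A} (hF : OrdM 1 F) (n : ℕ) : OrdM n (F ^ n) := by
  induction n with
  | zero => exact OrdM.any _
  | succ n ih => rw [pow_succ]; exact ih.mul hF

theorem ordM_one_iff {F : MvPowerSeries L A} :
    OrdM 1 F ↔ MvPowerSeries.constantCoeff F = 0 := by
  constructor
  · intro h
    have := h 0 (by simp)
    rwa [MvPowerSeries.coeff_zero_eq_constantCoeff_apply] at this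
  · intro h δ hδ
    have h1 : δ = 0 := by
      have h2 : Finsupp.degree δ = 0 := by omega
      exact (Finsupp.degree_eq_zero_iff δ).1 h2
    rw [h1, MvPowerSeries.coeff_zero_eq_constantCoeff_apply, h]

theorem ordM_dt (F : MvPowerSeries L A) : OrdM 1 (dt F) := by
  intro δ hδ
  have h2 : Finsupp.degree δ = 0 := by omega
  rw [coeff_dt, h2, Nat.cast_zero, zero_mul]

end euler

section lgg

variable {F : Type} [Field F]

/-- `a ^ d` times the truncated logarithm of `g / a` -/
noncomputable def lgg {S : Type} [CommRing S] [Algebra F S] (d : ℕ) (g a : S) : S :=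
  ∑ t ∈ range d, algebraMap F S ((-1) ^ t * ((t + 1 : ℕ) : F)⁻¹) *
    ((g - a) ^ (t + 1) * a ^ (d - 1 - t))

theorem map_lgg' {S S' : Type} [CommRing S] [Algebra F S] [CommRing S'] [Algebra F S']
    (f : S →+* S') (hf : ∀ x : F, f (algebraMap F S x) = algebraMap F S' x) (d : ℕ) (g a : S) :
    f (lgg (F := F) d g a) = lgg (F := F) d (f g) (f a) := by
  unfold lgg
  rw [map_sum]
  refine sum_congr rfl fun t _ => ?_
  rw [map_mul f, map_mul f, map_pow f, map_pow f, map_sub f, hf]

theorem map_lgg {S S' : Type} [CommRing S] [Algebra F S] [CommRing S'] [Algebra F S']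
    (f : S →ₐ[F] S') (d : ℕ) (g a : S) :
    f (lgg (F := F) d g a) = lgg (F := F) d (f g) (f a) := by
  unfold lgg
  rw [map_sum]
  refine sum_congr rfl fun t _ => ?_
  rw [map_mul f, map_mul f, map_pow f, map_pow f, map_sub f, AlgHom.commutes f]

variable [CharZero F] {L A : Type} [CommRing A] [Algebra F A]

theorem algebraMap_mvps (x : F) : algebraMap F (MvPowerSeries L A) x =
    MvPowerSeries.C (σ := L) (algebraMap F A x) := by
  rw [MvPowerSeries.algebraMap_apply]

/-- the derivative of the truncated logarithm -/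
theorem dt_lgg (d : ℕ) (g : MvPowerSeries L A) (a : A) :
    dt (lgg (F := F) d g (MvPowerSeries.C (σ := L) a)) * g =
      MvPowerSeries.C (σ := L) (a ^ d) * dt g -
        dt g * (-(g - MvPowerSeries.C (σ := L) a)) ^ d := by
  set c : MvPowerSeries L A := MvPowerSeries.C (σ := L) a with hc
  have hdc : dt c = 0 := dt_C a
  have h1 : ∀ t, dt (algebraMap F (MvPowerSeries L A) ((-1) ^ t * ((t + 1 : ℕ) : F)⁻¹) *
      ((g - c) ^ (t + 1) * c ^ (d - 1 - t))) = dt g * ((-(g - c)) ^ t * c ^ (d - 1 - t)) := by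
    intro t
    have h2 : dt (c ^ (d - 1 - t)) = 0 := by
      rw [hc, ← map_pow, dt_C]
    have h3 : dt (algebraMap F (MvPowerSeries L A) ((-1) ^ t * ((t + 1 : ℕ) : F)⁻¹)) = 0 := by
      rw [algebraMap_mvps, dt_C]
    have h4 : algebraMap F (MvPowerSeries L A) ((-1) ^ t * ((t + 1 : ℕ) : F)⁻¹) *
        ((t : MvPowerSeries L A) + 1) = (-1) ^ t := by
      have h5 : ((t : MvPowerSeries L A) + 1) = algebraMap F (MvPowerSeries L A) ((t + 1 : ℕ) : F) := by
        rw [map_natCast]
        push_cast
        rfl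
      have h6 : ((t + 1 : ℕ) : F) ≠ 0 := by exact_mod_cast Nat.succ_ne_zero t
      rw [h5, ← map_mul, mul_assoc, inv_mul_cancel₀ h6, mul_one, map_pow, map_neg, map_one]
    rw [dt_mul, h3, zero_mul, zero_add, dt_mul, h2, mul_zero, add_zero, dt_pow, dt_sub, hdc,
      sub_zero, neg_pow (g - c) t]
    calc _ = (algebraMap F (MvPowerSeries L A) ((-1) ^ t * ((t + 1 : ℕ) : F)⁻¹) *
          ((t : MvPowerSeries L A) + 1)) * ((g - c) ^ t * dt g * c ^ (d - 1 - t)) := by ring
      _ = _ := by rw [h4]; ring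
  have h2 : dt (lgg (F := F) d g c) =
      dt g * ∑ t ∈ range d, (-(g - c)) ^ t * c ^ (d - 1 - t) := by
    unfold lgg
    rw [dt_sum, mul_sum]
    exact sum_congr rfl fun t _ => h1 t
  have h3 := (Commute.all (-(g - c)) c).geom_sum₂_mul d
  have h4 : (∑ t ∈ range d, (-(g - c)) ^ t * c ^ (d - 1 - t)) * g = c ^ d - (-(g - c)) ^ d := by
    linear_combination -h3
  rw [h2, mul_assoc, h4, map_pow, ← hc]
  ring

end lgg

section field

variable {F K : Type} [Field F] [CharZero F] [Field K] [Algebra F K] {L : Type}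

/-- the logarithmic derivative -/
noncomputable def ld (g : MvPowerSeries L K) : MvPowerSeries L K := dt g * g⁻¹

theorem coeff_lgg (d : ℕ) (g : MvPowerSeries L K) (hg : MvPowerSeries.constantCoeff g ≠ 0)
    (δ : L →₀ ℕ) (hδ : Finsupp.degree δ = d) :
    (d : K) * MvPowerSeries.coeff δ (lgg (F := F) d g
      (MvPowerSeries.C (σ := L) (MvPowerSeries.constantCoeff g))) =
      (MvPowerSeries.constantCoeff g) ^ d * MvPowerSeries.coeff δ (ld g) := by
  set a := MvPowerSeries.constantCoeff g with ha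
  have h1 := dt_lgg (F := F) d g a
  have h2 : dt (lgg (F := F) d g (MvPowerSeries.C (σ := L) a)) =
      MvPowerSeries.C (σ := L) (a ^ d) * ld g -
        dt g * (-(g - MvPowerSeries.C (σ := L) a)) ^ d * g⁻¹ := by
    have h3 := MvPowerSeries.mul_inv_cancel g hg
    unfold ld
    calc _ = dt (lgg (F := F) d g (MvPowerSeries.C (σ := L) a)) * (g * g⁻¹) := by rw [h3, mul_one]
      _ = (dt (lgg (F := F) d g (MvPowerSeries.C (σ := L) a)) * g) * g⁻¹ := by ring
      _ = _ := by rw [h1]; ring
  have h4 := congrArg (MvPowerSeries.coeff δ) h2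
  have h5 : OrdM (1 + d) (dt g * (-(g - MvPowerSeries.C (σ := L) a)) ^ d) := by
    refine (ordM_dt g).mul (OrdM.pow ?_ d)
    rw [ordM_one_iff, map_neg, map_sub, MvPowerSeries.constantCoeff_C, ← ha, sub_self, neg_zero]
  rw [coeff_dt, map_sub, (h5.mul_right g⁻¹) δ (by omega), sub_zero, hδ,
    MvPowerSeries.coeff_C_mul] at h4
  exact h4

theorem ld_mul (g h : MvPowerSeries L K) (hg : MvPowerSeries.constantCoeff g ≠ 0)
    (hh : MvPowerSeries.constantCoeff h ≠ 0) : ld (g * h) = ld g + ld h := by
  have h1 := MvPowerSeries.mul_inv_cancel g hg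
  have h2 := MvPowerSeries.mul_inv_cancel h hh
  unfold ld
  rw [MvPowerSeries.mul_inv_rev, dt_mul]
  linear_combination dt g * g⁻¹ * h2 + dt h * h⁻¹ * h1

theorem ld_pow (g : MvPowerSeries L K) (hg : MvPowerSeries.constantCoeff g ≠ 0) (e : ℕ) :
    ld (g ^ (e + 1)) = ((e : MvPowerSeries L K) + 1) * ld g := by
  induction e with
  | zero => simp
  | succ e ih =>
    rw [pow_succ, ld_mul _ _ (by rw [map_pow]; exact pow_ne_zero _ hg) hg, ih]
    push_cast
    ring

/-- the logarithmic derivative of `t + w` -/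
theorem coeff_ld_add (d : ℕ) (t : K) (ht : t ≠ 0) (w : MvPowerSeries L K)
    (hw : MvPowerSeries.constantCoeff w = 0) (δ : L →₀ ℕ) (hδ : Finsupp.degree δ = d) :
    t ^ d * MvPowerSeries.coeff δ (ld (MvPowerSeries.C (σ := L) t + w)) =
      ∑ j ∈ range d, t ^ (d - 1 - j) * MvPowerSeries.coeff δ (dt w * (-w) ^ j) := by
  set c : MvPowerSeries L K := MvPowerSeries.C (σ := L) t with hc
  have h0 : MvPowerSeries.constantCoeff (c + w) ≠ 0 := by
    rw [map_add, hw, add_zero, hc, MvPowerSeries.constantCoeff_C]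
    exact ht
  have h1 := MvPowerSeries.mul_inv_cancel (c + w) h0
  have h3 := (Commute.all (-w) c).geom_sum₂_mul d
  have h4 : (∑ j ∈ range d, (-w) ^ j * c ^ (d - 1 - j)) * (c + w) = c ^ d - (-w) ^ d := by
    linear_combination -h3
  have h5 : c ^ d * ld (c + w) = ∑ j ∈ range d, c ^ (d - 1 - j) * (dt w * (-w) ^ j) +
      dt w * (-w) ^ d * (c + w)⁻¹ := by
    have h6 : dt (c + w) = dt w := by rw [dt_add, hc, dt_C, zero_add]
    have h7 : ∑ j ∈ range d, c ^ (d - 1 - j) * (dt w * (-w) ^ j) =
        dt w * ∑ j ∈ range d, (-w) ^ j * c ^ (d - 1 - j) := by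
      rw [mul_sum]
      exact sum_congr rfl fun j _ => by ring
    unfold ld
    rw [h6, h7]
    calc c ^ d * (dt w * (c + w)⁻¹) = dt w * (c ^ d - (-w) ^ d) * (c + w)⁻¹ +
          dt w * (-w) ^ d * (c + w)⁻¹ := by ring
      _ = dt w * (∑ j ∈ range d, (-w) ^ j * c ^ (d - 1 - j)) * ((c + w) * (c + w)⁻¹) +
          dt w * (-w) ^ d * (c + w)⁻¹ := by rw [← h4]; ring
      _ = _ := by rw [h1, mul_one]
  have h8 := congrArg (MvPowerSeries.coeff δ) h5
  have h9 : OrdM (1 + d) (dt w * (-w) ^ d) := by
    refine (ordM_dt w).mul (OrdM.pow ?_ d)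
    rw [ordM_one_iff, map_neg, hw, neg_zero]
  rw [map_add, (h9.mul_right _) δ (by omega), add_zero, map_sum, hc, ← map_pow,
    MvPowerSeries.coeff_C_mul] at h8
  rw [h8]
  refine sum_congr rfl fun j _ => ?_
  rw [← map_pow, MvPowerSeries.coeff_C_mul]

end field

section residue

variable {F E : Type} [Field F] [CharZero F] [Field E] [Algebra F E] {L : Type}

/-- **the residue** -/
theorem residue (d : ℕ) (hd : 1 ≤ d) (e : ℕ) (a u w : MvPowerSeries L E)
    (ha : MvPowerSeries.constantCoeff a ≠ 0) (hu : MvPowerSeries.constantCoeff u = 0)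
    (hw : w * a = u) (h : MvPowerSeries L (PowerSeries E))
    (hh : PowerSeries.constantCoeff (MvPowerSeries.constantCoeff h) ≠ 0)
    (g : MvPowerSeries L (PowerSeries E))
    (hg : g = (MvPowerSeries.map (PowerSeries.C (R := E)) u + MvPowerSeries.C PowerSeries.X *
      MvPowerSeries.map (PowerSeries.C (R := E)) a) ^ (e + 1) * h) :
    ∃ N : (L →₀ ℕ) → PowerSeries E, ∀ δ : L →₀ ℕ, Finsupp.degree δ = d →
      PowerSeries.X ^ d * ((d : PowerSeries E) * MvPowerSeries.coeff δ (lgg (F := F) d g
        (MvPowerSeries.C (σ := L) (MvPowerSeries.constantCoeff g)))) =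
        (MvPowerSeries.constantCoeff g) ^ d * N δ ∧
      PowerSeries.coeff (d - 1) (N δ) = ((e : E) + 1) * (d * MvPowerSeries.coeff δ w) := by
  classical
  have hw0 : MvPowerSeries.constantCoeff w = 0 := by
    have h1 := congrArg MvPowerSeries.constantCoeff hw
    rw [map_mul, hu] at h1
    exact (mul_eq_zero.1 h1).resolve_right ha
  obtain ⟨v, hv⟩ : IsUnit (MvPowerSeries.constantCoeff h) := by
    rw [PowerSeries.isUnit_iff_constantCoeff]
    exact IsUnit.mk0 _ hh
  set hinv := MvPowerSeries.invOfUnit h v with hhinv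
  have hhi : h * hinv = 1 := MvPowerSeries.mul_invOfUnit h v hv.symm
  have hai := MvPowerSeries.mul_inv_cancel a ha
  let K := FractionRing (PowerSeries E)
  let j : PowerSeries E →+* K := algebraMap (PowerSeries E) K
  have hj : Function.Injective j := IsFractionRing.injective (PowerSeries E) K
  let jC : E →+* K := j.comp PowerSeries.C
  have hjC : Function.Injective jC := hj.comp PowerSeries.C_injective
  set t : K := j PowerSeries.X with ht
  have ht0 : t ≠ 0 := by
    rw [ht]
    exact fun h0 => PowerSeries.X_ne_zero (hj (by rw [h0, map_zero]))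
  -- the factors over the fraction field
  set A : MvPowerSeries L K := MvPowerSeries.map jC a with hA
  set W : MvPowerSeries L K := MvPowerSeries.map jC w with hW
  set H : MvPowerSeries L K := MvPowerSeries.map j h with hH
  have hA0 : MvPowerSeries.constantCoeff A ≠ 0 := by
    rw [hA, MvPowerSeries.constantCoeff_map]
    exact fun h0 => ha (hjC (by rw [h0, map_zero]))
  have hW0 : MvPowerSeries.constantCoeff W = 0 := by
    rw [hW, MvPowerSeries.constantCoeff_map, hw0, map_zero]
  have hH0 : MvPowerSeries.constantCoeff H ≠ 0 := by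
    rw [hH, MvPowerSeries.constantCoeff_map, ← hv]
    exact fun h0 => v.ne_zero (hj (by rw [h0, map_zero]))
  have hT0 : MvPowerSeries.constantCoeff (MvPowerSeries.C (σ := L) t + W) ≠ 0 := by
    rw [map_add, hW0, add_zero, MvPowerSeries.constantCoeff_C]
    exact ht0
  have hP : MvPowerSeries.map j (MvPowerSeries.map (PowerSeries.C (R := E)) u +
      MvPowerSeries.C PowerSeries.X * MvPowerSeries.map (PowerSeries.C (R := E)) a) =
      A * (MvPowerSeries.C (σ := L) t + W) := by
    rw [map_add, map_mul, MvPowerSeries.map_C, ← hw, map_mul, map_mul]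
    have h1 : ∀ F : MvPowerSeries L E, MvPowerSeries.map j (MvPowerSeries.map PowerSeries.C F) =
        MvPowerSeries.map jC F := by
      intro F
      ext δ
      rw [MvPowerSeries.coeff_map, MvPowerSeries.coeff_map, MvPowerSeries.coeff_map]
      rfl
    rw [h1, h1, ← hA, ← hW]
    ring
  have hG : MvPowerSeries.map j g = (A * (MvPowerSeries.C (σ := L) t + W)) ^ (e + 1) * H := by
    rw [hg, map_mul, map_pow, hP]
  have hP0 : MvPowerSeries.constantCoeff (A * (MvPowerSeries.C (σ := L) t + W)) ≠ 0 := by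
    rw [map_mul]
    exact mul_ne_zero hA0 hT0
  have hG0 : MvPowerSeries.constantCoeff (MvPowerSeries.map j g) ≠ 0 := by
    rw [hG, map_mul, map_pow]
    exact mul_ne_zero (pow_ne_zero _ hP0) hH0
  have hld : ld (MvPowerSeries.map j g) = ((e : MvPowerSeries L K) + 1) *
      (ld A + ld (MvPowerSeries.C (σ := L) t + W)) + ld H := by
    rw [hG, ld_mul _ _ (by rw [map_pow]; exact pow_ne_zero _ hP0) hH0, ld_pow _ hP0,
      ld_mul _ _ hA0 hT0]
  have hldH : ld H = MvPowerSeries.map j (dt h * hinv) := by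
    have h1 : H⁻¹ = MvPowerSeries.map j hinv := by
      rw [MvPowerSeries.inv_eq_iff_mul_eq_one hH0, hH, ← map_mul, mul_comm, hhi, map_one]
    unfold ld
    rw [h1, hH, dt_map, ← map_mul]
  have hldA : ld A = MvPowerSeries.map jC (dt a * a⁻¹) := by
    have h1 : A⁻¹ = MvPowerSeries.map jC a⁻¹ := by
      rw [MvPowerSeries.inv_eq_iff_mul_eq_one hA0, hA, ← map_mul, mul_comm, hai, map_one]
    unfold ld
    rw [h1, hA, dt_map, ← map_mul]
  refine ⟨fun δ => PowerSeries.X ^ d * MvPowerSeries.coeff δ (dt h * hinv) +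
    PowerSeries.C ((e : E) + 1) * (PowerSeries.X ^ d *
      PowerSeries.C (MvPowerSeries.coeff δ (dt a * a⁻¹))) +
    PowerSeries.C ((e : E) + 1) * ∑ i ∈ range d, PowerSeries.X ^ (d - 1 - i) *
      PowerSeries.C (MvPowerSeries.coeff δ (dt w * (-w) ^ i)), fun δ hδ => ⟨?_, ?_⟩⟩
  · apply hj
    have h1 := coeff_lgg (F := F) d (MvPowerSeries.map j g) hG0 δ hδ
    have h2 : lgg (F := F) d (MvPowerSeries.map j g) (MvPowerSeries.C (σ := L)
        (MvPowerSeries.constantCoeff (MvPowerSeries.map j g))) = MvPowerSeries.map j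
        (lgg (F := F) d g (MvPowerSeries.C (σ := L) (MvPowerSeries.constantCoeff g))) := by
      rw [map_lgg' (F := F) (MvPowerSeries.map j), MvPowerSeries.map_C,
        MvPowerSeries.constantCoeff_map]
      intro x
      rw [algebraMap_mvps (L := L) (A := PowerSeries E), MvPowerSeries.map_C,
        algebraMap_mvps (L := L) (A := K), IsScalarTower.algebraMap_apply F (PowerSeries E) K]
    rw [h2, MvPowerSeries.coeff_map, MvPowerSeries.constantCoeff_map, hld, hldH, hldA] at h1
    have h3 := coeff_ld_add d t ht0 W hW0 δ hδ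
    have h4 : ∀ i, MvPowerSeries.coeff δ (dt W * (-W) ^ i) =
        jC (MvPowerSeries.coeff δ (dt w * (-w) ^ i)) := by
      intro i
      rw [hW, dt_map, ← map_neg, ← map_pow, ← map_mul, MvPowerSeries.coeff_map]
    simp only [h4] at h3
    have h5 : ((e : MvPowerSeries L K) + 1) = MvPowerSeries.C (σ := L) ((e : K) + 1) := by
      rw [map_add, map_natCast, map_one]
    rw [h5, map_add, MvPowerSeries.coeff_C_mul, map_add, MvPowerSeries.coeff_map,
      MvPowerSeries.coeff_map] at h1
    have h6 : j (PowerSeries.C ((e : E) + 1)) = (e : K) + 1 := by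
      rw [map_add, map_natCast, map_one, map_add, map_natCast, map_one]
    have h7 : j (∑ i ∈ range d, PowerSeries.X ^ (d - 1 - i) *
        PowerSeries.C (MvPowerSeries.coeff δ (dt w * (-w) ^ i))) =
        t ^ d * MvPowerSeries.coeff δ (ld (MvPowerSeries.C (σ := L) t + W)) := by
      rw [h3, map_sum]
      refine sum_congr rfl fun i _ => ?_
      rw [map_mul, map_pow, ← ht]
      rfl
    have h8 : j (PowerSeries.C (MvPowerSeries.coeff δ (dt a * a⁻¹))) =
      jC (MvPowerSeries.coeff δ (dt a * a⁻¹)) := rfl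
    show j _ = j (_ * (_ + _ + _))
    rw [map_mul j, map_pow j, map_mul j, map_natCast j, h1, map_mul j, map_pow j, map_add j,
      map_add j, map_mul j, map_mul j, map_mul j (PowerSeries.X ^ d) (PowerSeries.C _),
      map_mul j, map_pow j, h6, h7, h8, ← ht]
    ring
  · rw [map_add, map_add, PowerSeries.coeff_X_pow_mul', if_neg (by omega), zero_add,
      PowerSeries.coeff_C_mul, PowerSeries.coeff_X_pow_mul', if_neg (by omega), mul_zero, zero_add,
      PowerSeries.coeff_C_mul, map_sum, sum_eq_single 0]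
    · rw [PowerSeries.coeff_X_pow_mul', if_pos (by omega), pow_zero, mul_one, Nat.sub_zero,
        Nat.sub_self, PowerSeries.coeff_zero_C, coeff_dt, hδ]
    · intro i hi hi0
      have := mem_range.1 hi
      rw [PowerSeries.coeff_X_pow_mul', if_pos (by omega), PowerSeries.coeff_C, if_neg (by omega)]
    · intro h0
      exact absurd (mem_range.2 (by omega)) h0

end residue

end Pool.XM
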