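import Pool.Agent.XD.Level
import Pool.Agent.CDep.Lift

/-!
# Multiples of the permanent (XM): the machine for the logarithmic derivative

`logder_bound`: the logarithmic derivative of one bounded series costs one more step, because
`Dt G / G = Dt (log (G / c))` and the truncated logarithm is a gate with one input.
`gen_of_injective`: at a generic point of an extension field all members of `Cls` become members
of `NCls`.
`machine_log`, `machine_log_at`, `machine_logder_at`: the combination with the level machine.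
-/

set_option autoImplicit false

namespace Pool.XM

open Finset Pool.Agent.Helper87.D3 Pool.Agent.Helper41.CD Pool.XD

section chain_rule

variable {K B : Type} [Field K] [CommRing B] [Algebra K B]

theorem Dt_add (F G : Ser B) : Dt (F + G) = Dt F + Dt G := by
  apply cf_ext
  intro b e
  rw [cf_add, cf_Dt, cf_Dt, cf_Dt, cf_add, mul_add]

theorem Dt_sub (F G : Ser B) : Dt (F - G) = Dt F - Dt G := by
  apply cf_ext
  intro b e
  rw [cf_sub, cf_Dt, cf_Dt, cf_Dt, cf_sub, mul_sub]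

theorem Dt_smul (c : K) (F : Ser B) : Dt (c • F) = c • Dt F := by
  apply cf_ext
  intro b e
  rw [cf_Dt, cf_smul', cf_smul', cf_Dt, mul_smul_comm]

theorem Dt_algebraMap (c : K) : Dt (algebraMap K (Ser B) c) = 0 := by
  rw [Algebra.algebraMap_eq_smul_one, Dt_smul, Dt_one, smul_zero]

theorem Dt_pow_succ (F : Ser B) (n : ℕ) : Dt (F ^ (n + 1)) = ((n + 1 : ℕ) : Ser B) * F ^ n * Dt F := by
  induction n with
  | zero => simp
  | succ n ih =>
    rw [pow_succ, Dt_mul, ih]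
    push_cast
    ring

/-- the chain rule -/
theorem Dt_aeval (F : Ser B) (R : Polynomial K) :
    Dt (Polynomial.aeval F R) = Polynomial.aeval F (Polynomial.derivative R) * Dt F := by
  induction R using Polynomial.induction_on' with
  | add p q hp hq => rw [map_add, Dt_add, hp, hq, Polynomial.derivative_add, map_add, add_mul]
  | monomial n a =>
    rw [Polynomial.derivative_monomial, Polynomial.aeval_monomial, Polynomial.aeval_monomial]
    rcases n with _ | n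
    · rw [pow_zero, mul_one, Dt_algebraMap]
      simp
    · rw [← Algebra.smul_def, Dt_smul, Dt_pow_succ, Nat.add_sub_cancel, map_mul, map_natCast,
        Algebra.smul_def]
      ring

end chain_rule

section logder

variable {K B : Type} [Field K] [CharZero K] [CommRing B] [Algebra K B] {ν : B → ℝ → Prop}

theorem ord_Dt {n : ℕ} {F : Ser B} (hF : Ord n F) : Ord n (Dt F) := fun b e h => by
  rw [cf_Dt, hF b e h, mul_zero]

theorem Ord.neg' {n : ℕ} {F : Ser B} (hF : Ord n F) : Ord n (-F) := by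
  rw [← zero_sub]
  exact (Ord.zero n).sub hF

/-- multiplication with a series with constant term `1` does not change the order -/
theorem ord_of_mul {n : ℕ} {h A : Ser B} (h0 : Ord 1 h) (hA : Ord n ((1 + h) * A)) : Ord n A := by
  have e1 : (∑ t ∈ range n, (-h) ^ t) * (1 + h) = 1 - (-h) ^ n := by
    have h1 := mul_neg_geom_sum (-h) n
    rw [sub_neg_eq_add] at h1
    rw [mul_comm, h1]
  have e2 : A = (∑ t ∈ range n, (-h) ^ t) * ((1 + h) * A) + (-h) ^ n * A := by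
    rw [← mul_assoc, e1]
    ring
  rw [e2]
  exact (hA.mul_left _).add (((Ord.neg' h0).pow n).mul_right A)

/-- the logarithmic derivative is the derivative of the truncated logarithm -/
theorem cf_logder (d : ℕ) {G F : Ser B} {c : K} (hc : c ≠ 0) (h0 : cf 0 0 G = algebraMap K B c)
    (hF : F * G = Dt G) {b e : ℕ} (hbe : b + e ≤ d) :
    cf b e F = cf b e (Dt (Polynomial.aeval (c⁻¹ • G - 1) (logP K d))) := by
  set h : Ser B := c⁻¹ • G - 1 with hh
  have h1 : Ord 1 h := ord_one_iff.2 (cf00_norm hc h0)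
  set L := Polynomial.aeval h (logP K d) with hL
  have e1 : (1 + h) * Dt L = Dt h - (-h) ^ d * Dt h := by
    rw [hL, Dt_aeval, ← mul_assoc]
    have h2 := congrArg (Polynomial.aeval h) (one_add_mul_derivative_logP (K := K) d)
    rw [map_mul, map_add, map_one, Polynomial.aeval_X, map_sub, map_one, map_pow, map_neg,
      Polynomial.aeval_X] at h2
    rw [h2]
    ring
  have e2 : (1 + h) * F = Dt h := by
    have h3 : 1 + h = c⁻¹ • G := by rw [hh]; ring
    rw [h3, hh, Dt_sub, Dt_one, sub_zero, Dt_smul, ← hF, smul_mul_assoc, mul_comm]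
  have e3 : (1 + h) * (F - Dt L) = (-h) ^ d * Dt h := by
    rw [mul_sub, e1, e2]
    ring
  have h4 : Ord (d + 1) ((1 + h) * (F - Dt L)) := by
    rw [e3]
    exact ((Ord.neg' h1).pow d).mul (ord_Dt h1)
  have h5 := ord_of_mul h1 h4 b e (by omega)
  rw [cf_sub] at h5
  exact sub_eq_zero.1 h5

omit [CharZero K] in
/-- **the logarithm of one series** costs one step -/
theorem log_bound (h : Cost K ν) {M : ℕ → ℕ → Submodule K B} (hM : Big M) {HU HV : ℝ}
    (hHU : 0 < HU) (hHV : 0 < HV) (hL : Leaf M ν HU HV) {d : ℕ} {G : Ser B} (hG : InB M G)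
    {c : K} (h0 : cf 0 0 G = algebraMap K B c)
    {κ x y x' y' : ℝ} (hx' : 0 < x') (hy' : 0 < y') (hbd : BdD ν d κ x y G)
    (hnum : NumD d (((d : ℝ) + 1) ^ 2 * κ) HU HV x y x' y') :
    BwD ν d (((d : ℝ) + 1) ^ 7) x' y' (Polynomial.aeval (c⁻¹ • G - 1) (logP K d)) := by
  intro b e hbe
  have e1 : Polynomial.aeval (c⁻¹ • G - 1) (logP K d) = MvPolynomial.aeval (fun _ : Fin 1 => G)
      (Polynomial.aeval (MvPolynomial.X (0 : Fin 1) : MvPolynomial (Fin 1) K)
        ((logP K d).comp (Polynomial.C c⁻¹ * Polynomial.X - 1))) := by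
    rw [← Polynomial.aeval_algHom_apply, MvPolynomial.aeval_X, Polynomial.aeval_comp, map_sub,
      map_mul, map_one, Polynomial.aeval_C, Polynomial.aeval_X, ← Algebra.smul_def]
  rw [e1]
  exact series_gate' h hM hHU hHV hL (fun _ : Fin 1 => G) (fun _ => hG) (fun _ => c)
    (fun _ => h0) hx' hy' (fun _ => hbd) hnum _ b e hbe

/-- **the logarithmic derivative of one series** costs one step -/
theorem logder_bound (h : Cost K ν) {M : ℕ → ℕ → Submodule K B} (hM : Big M) {HU HV : ℝ}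
    (hHU : 0 < HU) (hHV : 0 < HV) (hL : Leaf M ν HU HV) {d : ℕ} {G F : Ser B} (hG : InB M G)
    {c : K} (hc : c ≠ 0) (h0 : cf 0 0 G = algebraMap K B c) (hF : F * G = Dt G)
    {κ x y x' y' : ℝ} (hx' : 0 < x') (hy' : 0 < y') (hbd : BdD ν d κ x y G)
    (hnum : NumD d (((d : ℝ) + 1) ^ 2 * κ) HU HV x y x' y') :
    BwD ν d (((d : ℝ) + 1) ^ 7) x' y' F := by
  intro b e hbe
  rw [cf_logder d hc h0 hF hbe, cf_Dt, natCast_smul' (K := K)]
  exact h.smul _ (log_bound h hM hHU hHV hL hG h0 hx' hy' hbd hnum b e hbe)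

end logder

section generic

variable {σ K K' : Type} [Field K] [Field K'] [Algebra K K']

open Classical in
/-- at a generic point of an extension the members of `Cls` become members of `NCls` -/
theorem gen_of_injective {w0 w S : ℕ} {c : σ → K'}
    (hc : ∀ q : MvPolynomial σ K, q ≠ 0 → MvPolynomial.aeval c q ≠ 0) :
    ∀ (k : ℕ) {f : MvPolynomial σ K}, f ∈ Cls w0 w S k →
      MvPolynomial.map (algebraMap K K') f ∈ NCls c w0 w S k ∧
        (MvPolynomial.map (algebraMap K K') f = 0 ∨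
          MvPolynomial.eval c (MvPolynomial.map (algebraMap K K') f) ≠ 0) := by
  have h2 : ∀ f : MvPolynomial σ K, MvPolynomial.map (algebraMap K K') f = 0 ∨
      MvPolynomial.eval c (MvPolynomial.map (algebraMap K K') f) ≠ 0 := by
    intro f
    by_cases hf : f = 0
    · left
      rw [hf, map_zero]
    · right
      rw [MvPolynomial.eval_map, ← MvPolynomial.aeval_def]
      exact hc f hf
  intro k
  induction k with
  | zero =>
    rintro f ⟨L, Q, hL, rfl⟩
    refine ⟨⟨fun i => MvPolynomial.map (algebraMap K K') (L i),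
      MvPolynomial.map (algebraMap K K') Q, fun i => ?_, ?_⟩, h2 _⟩
    · exact (Finset.sup_mono (MvPolynomial.support_map_subset _ (L i))).trans (hL i)
    · exact Pool.CDep.map_aeval_eq _ L Q
  | succ k ih =>
    rintro f ⟨F, Q, hF, rfl⟩
    refine ⟨⟨fun l i j => MvPolynomial.map (algebraMap K K') (F l i j),
      MvPolynomial.map (algebraMap K K') Q, fun l i j => ih (hF l i j), ?_⟩, h2 _⟩
    rw [Pool.CDep.map_aeval_eq]
    simp only [map_sum, map_prod]

end generic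

section machine

variable {σ K B : Type} [Field K] [CharZero K] [CommRing B] [Algebra K B] {ν : B → ℝ → Prop}

/-- **THE MACHINE FOR THE LOGARITHM** at one point -/
theorem machine_log_at (h : Cost K ν) {M : ℕ → ℕ → Submodule K B} (hM : Big M) {HU HV : ℝ}
    (hHU : 0 < HU) (hHV : 0 < HV) (hL : Leaf M ν HU HV) (SU SV : Subalgebra K B)
    (hpure : ∀ a ∈ SU, ∀ b ∈ SV, ν (a * b) 1) (c : σ → K)
    (Φ : MvPolynomial σ K →ₐ[K] Ser B) (hΦM : ∀ f, InB M (Φ f))
    (hΦ0 : ∀ f, cf 0 0 (Φ f) = algebraMap K B (MvPolynomial.eval c f))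
    (hΦ1 : ∀ f : MvPolynomial σ K, f.totalDegree ≤ 1 → ∃ α ∈ SU, ∃ β ∈ SV,
      Φ f = cst (algebraMap K B (MvPolynomial.eval c f)) + lam B * cst α + mu B * cst β)
    {w0 w S k d : ℕ} {X Y : ℕ → ℝ}
    (hX : ∀ i, 0 < X i) (hY : ∀ i, 0 < Y i) (hX0 : X 0 = 1) (hY0 : Y 0 = 1)
    (hnum : ∀ i ≤ 2 * k, NumD d (S * ((d : ℝ) + 1) ^ (8 * (w0 + w) + 16)) HU HV (X i) (Y i)
      (X (i + 1)) (Y (i + 1)))
    {T : ℕ} (hnum' : NumD d (T * ((d : ℝ) + 1) ^ 18) HU HV (X (2 * k + 1)) (Y (2 * k + 1))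
      (X (2 * k + 2)) (Y (2 * k + 2)))
    (f : Fin T → Fin S → MvPolynomial σ K) (hf : ∀ i j, f i j ∈ NCls c w0 w S k ∧
      (f i j = 0 ∨ MvPolynomial.eval c (f i j) ≠ 0)) :
    BwD ν d (((d : ℝ) + 1) ^ 7) (X (2 * k + 2)) (Y (2 * k + 2))
      (Polynomial.aeval ((MvPolynomial.eval c (∑ i, ∏ j, f i j))⁻¹ • Φ (∑ i, ∏ j, f i j) - 1)
        (logP K d)) := by
  have h1 := level_machine_at h hM hHU hHV hL SU SV hpure c Φ hΦM hΦ0 hΦ1 hX hY hX0 hY0 hnum f hf
  refine log_bound h hM hHU hHV hL (hΦM _) (hΦ0 _) (hX _) (hY _)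
    (κ := T * ((d : ℝ) + 1) ^ 16) (x := X (2 * k + 1)) (y := Y (2 * k + 1))
    (fun b e _ hbe => ?_) ?_
  · refine h.mono (h1 b e hbe) (le_of_eq ?_)
    ring
  · have e1 : ((d : ℝ) + 1) ^ 2 * (T * ((d : ℝ) + 1) ^ 16) = T * ((d : ℝ) + 1) ^ 18 := by
      rw [show 18 = 2 + 16 by norm_num, pow_add]
      ring
    rw [e1]
    exact hnum'

/-- **THE MACHINE FOR THE LOGARITHMIC DERIVATIVE** at one point -/
theorem machine_logder_at (h : Cost K ν) {M : ℕ → ℕ → Submodule K B} (hM : Big M) {HU HV : ℝ}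
    (hHU : 0 < HU) (hHV : 0 < HV) (hL : Leaf M ν HU HV) (SU SV : Subalgebra K B)
    (hpure : ∀ a ∈ SU, ∀ b ∈ SV, ν (a * b) 1) (c : σ → K)
    (Φ : MvPolynomial σ K →ₐ[K] Ser B) (hΦM : ∀ f, InB M (Φ f))
    (hΦ0 : ∀ f, cf 0 0 (Φ f) = algebraMap K B (MvPolynomial.eval c f))
    (hΦ1 : ∀ f : MvPolynomial σ K, f.totalDegree ≤ 1 → ∃ α ∈ SU, ∃ β ∈ SV,
      Φ f = cst (algebraMap K B (MvPolynomial.eval c f)) + lam B * cst α + mu B * cst β)
    {w0 w S k d : ℕ} {X Y : ℕ → ℝ}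
    (hX : ∀ i, 0 < X i) (hY : ∀ i, 0 < Y i) (hX0 : X 0 = 1) (hY0 : Y 0 = 1)
    (hnum : ∀ i ≤ 2 * k, NumD d (S * ((d : ℝ) + 1) ^ (8 * (w0 + w) + 16)) HU HV (X i) (Y i)
      (X (i + 1)) (Y (i + 1)))
    {T : ℕ} (hnum' : NumD d (T * ((d : ℝ) + 1) ^ 18) HU HV (X (2 * k + 1)) (Y (2 * k + 1))
      (X (2 * k + 2)) (Y (2 * k + 2)))
    (f : Fin T → Fin S → MvPolynomial σ K) (hf : ∀ i j, f i j ∈ NCls c w0 w S k ∧
      (f i j = 0 ∨ MvPolynomial.eval c (f i j) ≠ 0))
    (hG : MvPolynomial.eval c (∑ i, ∏ j, f i j) ≠ 0) {F : Ser B}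
    (hF : F * Φ (∑ i, ∏ j, f i j) = Dt (Φ (∑ i, ∏ j, f i j))) :
    BwD ν d (((d : ℝ) + 1) ^ 7) (X (2 * k + 2)) (Y (2 * k + 2)) F := by
  have h1 := machine_log_at h hM hHU hHV hL SU SV hpure c Φ hΦM hΦ0 hΦ1 hX hY hX0 hY0 hnum hnum'
    f hf
  intro b e hbe
  rw [cf_logder d hG (hΦ0 _) hF hbe, cf_Dt, natCast_smul' (K := K)]
  exact h.smul _ (h1 b e hbe)

/-- **THE MACHINE FOR THE LOGARITHM** at the points outside a hypersurface -/
theorem machine_log (h : Cost K ν) {M : ℕ → ℕ → Submodule K B} (hM : Big M) {HU HV : ℝ}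
    (hHU : 0 < HU) (hHV : 0 < HV) (hL : Leaf M ν HU HV) (SU SV : Subalgebra K B)
    (hpure : ∀ a ∈ SU, ∀ b ∈ SV, ν (a * b) 1)
    (Φ : (σ → K) → MvPolynomial σ K →ₐ[K] Ser B) (hΦM : ∀ c f, InB M (Φ c f))
    (hΦ0 : ∀ c f, cf 0 0 (Φ c f) = algebraMap K B (MvPolynomial.eval c f))
    (hΦ1 : ∀ c (f : MvPolynomial σ K), f.totalDegree ≤ 1 → ∃ α ∈ SU, ∃ β ∈ SV,
      Φ c f = cst (algebraMap K B (MvPolynomial.eval c f)) + lam B * cst α + mu B * cst β)
    {w0 w S k d : ℕ} {X Y : ℕ → ℝ}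
    (hX : ∀ i, 0 < X i) (hY : ∀ i, 0 < Y i) (hX0 : X 0 = 1) (hY0 : Y 0 = 1)
    (hnum : ∀ i ≤ 2 * k, NumD d (S * ((d : ℝ) + 1) ^ (8 * (w0 + w) + 16)) HU HV (X i) (Y i)
      (X (i + 1)) (Y (i + 1)))
    {T : ℕ} (hnum' : NumD d (T * ((d : ℝ) + 1) ^ 18) HU HV (X (2 * k + 1)) (Y (2 * k + 1))
      (X (2 * k + 2)) (Y (2 * k + 2)))
    (f : Fin T → Fin S → MvPolynomial σ K) (hf : ∀ i j, f i j ∈ Cls w0 w S k) :
    ∃ W : MvPolynomial σ K, W ≠ 0 ∧ ∀ c : σ → K, MvPolynomial.eval c W ≠ 0 →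
      BwD ν d (((d : ℝ) + 1) ^ 7) (X (2 * k + 2)) (Y (2 * k + 2))
        (Polynomial.aeval ((MvPolynomial.eval c (∑ i, ∏ j, f i j))⁻¹ •
          Φ c (∑ i, ∏ j, f i j) - 1) (logP K d)) := by
  obtain ⟨W, hW0, hW⟩ := exists_gen (fun p : Fin T × Fin S => f p.1 p.2) (fun p => hf p.1 p.2)
  refine ⟨W, hW0, fun c hc => ?_⟩
  exact machine_log_at h hM hHU hHV hL SU SV hpure c (Φ c) (hΦM c) (hΦ0 c) (hΦ1 c) hX hY hX0 hY0
    hnum hnum' f (fun i j => hW c hc (i, j))

end machine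

end Pool.XM
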