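import Pool.Agent.XM.Bridge
import Pool.Agent.XD.CircUnif
import Pool.Agent.Helper97.HY.Box

/-!
# XM: circuits and zero tests

* `circ_num_mul`, `circ_mul`: from sums of products to circuits of bounded product depth;
* `tests`: no number of tests by small circuits of bounded depth decides whether the permanent
  vanishes.
-/

set_option autoImplicit false

namespace Pool.XM

open Finset MvPolynomial Pool.XD Pool.Agent.Helper41.CD

/-- the bound for nonzero multiples of the permanent and polynomials close to them -/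
def XmBound (C : ℝ) : Prop :=
  ∀ (k : ℕ) (F K Γ : Type) [Field F] [CharZero F] [Field K] [LinearOrderedCommGroupWithZero Γ]
    [Algebra F K] (v : Valuation K Γ) (n T S w w0 : ℕ)
    (f : Fin T → Fin S → MvPolynomial (Fin n × Fin n) K) (G : MvPolynomial (Fin n × Fin n) F),
    (∀ x : F, v (algebraMap F K x) ≤ 1) → 1 ≤ n → 2 ≤ S → 1 ≤ w → 1 ≤ w0 →
    (∀ i j, f i j ∈ Cls w0 w S k) → G ≠ 0 →
    Pool.CDep.permP n F ∣ homogeneousComponent G.totalDegree G →
    (∀ m, v (coeff m (∑ i, ∏ j, f i j) - algebraMap F K (coeff m G)) < 1) →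
    (n : ℝ) ≤ C * Real.log (2 * n) * (C * (Real.log S + Real.log T +
      (w + w0) * Real.log (2 * n))) ^ (2 * (Nat.fib (2 * k + 5) - 2))

/-- **circuits which compute a nonzero multiple of the permanent**, approximately -/
theorem circ_mul {C : ℝ} (hC : 1 ≤ C) (h : XmBound C) (d : ℕ) (F K Γ : Type) [Field F]
    [CharZero F] [Field K] [LinearOrderedCommGroupWithZero Γ] [Algebra F K] (v : Valuation K Γ)
    (hv : ∀ x : F, v (algebraMap F K x) ≤ 1) (n s : ℕ)
    (P : Fin s → MvPolynomial (Fin n × Fin n) K) (hP : IsCircuit (d + 1) P) (g : Fin s)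
    (G : MvPolynomial (Fin n × Fin n) F) (hG : G ≠ 0)
    (hPG : Pool.CDep.permP n F ∣ homogeneousComponent G.totalDegree G)
    (hcl : ∀ m, v (coeff m (P g) - algebraMap F K (coeff m G)) < 1) :
    Real.exp (1 / (24 * C) * (n : ℝ) ^
      (1 / (((2 * (Nat.fib (2 * d + 5) - 2) : ℕ) : ℝ) + 1))) ≤ s + n := by
  have hs : 1 ≤ s := by
    have := g.2
    omega
  have h2 := circ_num_unif (C := 2 * C) (by linarith) (2 * (Nat.fib (2 * d + 5) - 2)) n s hs
    (fun hn => by
      obtain ⟨f, hf, hfg⟩ := circuit_sum (S := s + n ^ 2 + 1)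
        (by rw [Fintype.card_prod, Fintype.card_fin, sq]) hP g
      have hn2 : 1 ≤ n ^ 2 := Nat.one_le_pow _ _ hn
      have h1 := h d F K Γ v n (s + 1) (s + n ^ 2 + 1) 1 1 f G hv hn (by omega) le_rfl le_rfl hf hG
        hPG (by rwa [hfg])
      push_cast at h1
      refine h1.trans ?_
      have hn1 : (1 : ℝ) ≤ n := by exact_mod_cast hn
      have hs1 : (1 : ℝ) ≤ s := by exact_mod_cast hs
      have hn2' : (1 : ℝ) ≤ (n : ℝ) ^ 2 := one_le_pow₀ hn1
      have hL : Real.log ((s : ℝ) + 1) ≤ Real.log ((s : ℝ) + n ^ 2 + 1) :=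
        Real.log_le_log (by positivity) (by linarith)
      have hL0 : 0 ≤ Real.log ((s : ℝ) + 1) := Real.log_nonneg (by linarith)
      have hL1 : 0 ≤ Real.log (2 * (n : ℝ)) := Real.log_nonneg (by linarith)
      have hL2 : Real.log (2 * (n : ℝ)) ≤ Real.log (2 * n * (s + 1)) := by
        refine Real.log_le_log (by positivity) ?_
        nlinarith
      have hC0 : 0 < C := by linarith
      refine mul_le_mul ?_ (pow_le_pow_left₀ ?_ ?_ _) ?_ ?_
      · have : 0 ≤ C * Real.log (2 * n * (s + 1)) := by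
          have := hL1.trans hL2
          positivity
        have h3 := mul_le_mul_of_nonneg_left hL2 hC0.le
        linarith
      · have : 0 ≤ Real.log ((s : ℝ) + n ^ 2 + 1) := hL0.trans hL
        positivity
      · nlinarith
      · have : 0 ≤ Real.log ((s : ℝ) + n ^ 2 + 1) := hL0.trans hL
        positivity
      · have := hL1.trans hL2
        positivity)
  have e1 : 1 / (12 * (2 * C)) = 1 / (24 * C) := by ring
  rw [e1] at h2
  exact h2

/-- **zero tests by circuits of bounded depth** -/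
theorem tests_of {C : ℝ} (hC : 1 ≤ C) (h : XmBound C) (d n s t : ℕ) (hn : 2 ≤ n)
    (hs : (s : ℝ) + n < Real.exp (1 / (24 * C) * (n : ℝ) ^
      (1 / (((2 * (Nat.fib (2 * d + 5) - 2) : ℕ) : ℝ) + 1))))
    (G : Fin t → MvPolynomial (Fin n × Fin n) ℂ)
    (hG : ∀ i, G i ≠ 0 ∧ ∃ P : Fin s → MvPolynomial (Fin n × Fin n) ℂ,
      IsCircuit (d + 1) P ∧ ∃ g, P g = G i) (R : ℕ) :
    ∃ X : Matrix (Fin n) (Fin n) ℤ, X.permanent = 0 ∧
      (∀ a b, (R : ℤ) ≤ |(X + Matrix.single a b 1).permanent| ∧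
        (X - Matrix.single a b 1).permanent = -(X + Matrix.single a b 1).permanent) ∧
      ∀ Y : Matrix (Fin n) (Fin n) ℂ, (∀ a b, ‖Y a b - X a b‖ ≤ R) →
        ∀ i, eval (fun p => Y p.1 p.2) (G i) ≠ 0 := by
  refine Pool.HY.box_int n t hn G (fun i hdvd => ?_) R
  obtain ⟨hG0, P, hP, g, hg⟩ := hG i
  let v : Valuation ℂ (WithZero (Multiplicative ℤ)) := 1
  have h1 := circ_mul hC h d ℂ ℂ (WithZero (Multiplicative ℤ)) v
    (fun x => by
      show (1 : Valuation ℂ (WithZero (Multiplicative ℤ))) x ≤ 1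
      exact Valuation.one_apply_le_one x) n s P hP g (G i) hG0 hdvd
    (fun m => by
      rw [hg]
      show v (coeff m (G i) - coeff m (G i)) < 1
      rw [sub_self, map_zero]
      exact zero_lt_one)
  linarith

end Pool.XM
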